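import Mathlib

/-!
Three ordered lines which are permuted cyclically by some maps, and the rules for the columns
between two neighbouring maps.
-/

set_option autoImplicit false

namespace Pool.Agent.Helper89.SR

variable {P : Type*}

/-- A set of points on three ordered lines. -/
structure Frame (P : Type*) where
  le : P → P → Prop
  lev : P → ZMod 3
  refl : ∀ x, le x x
  trans : ∀ {x y z}, le x y → le y z → le x z
  tot : ∀ {x y}, lev x = lev y → le x y ∨ le y x

variable (F : Frame P)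

/-- A permutation which moves the points one line down and keeps their order. -/
structure Frame.Down (f : Equiv.Perm P) : Prop where
  mono : ∀ {x y}, F.le (f x) (f y) ↔ F.le x y
  lev : ∀ x, F.lev (f x) = F.lev x + 2

/-- Such a permutation of order three. -/
structure Frame.Line (f : Equiv.Perm P) : Prop extends F.Down f where
  cube : ∀ x, f (f (f x)) = x

/-- The rules for the column between the maps `f` and `g`. -/
structure Frame.Col (t f g : Equiv.Perm P) : Prop where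
  z1 : ∀ x, F.le (f x) (g x) → F.le (f.symm x) (g.symm x) → F.le (t (g x)) (f.symm x)
  z1' : ∀ x, F.le (g x) (f x) → F.le (g.symm x) (f.symm x) → F.le (f.symm x) (t (g x))
  z2 : ∀ x, F.le (f.symm x) (g.symm x) → F.le (f (t x)) (g (t x)) → F.le (g.symm x) (f (t x))
  z2' : ∀ x, F.le (g.symm x) (f.symm x) → F.le (g (t x)) (f (t x)) → F.le (f (t x)) (g.symm x)

variable {F}

lemma Frame.Down.link {f : Equiv.Perm P} (L : F.Down f) {u v u' v' : P} (hu : f u = u')
    (hv : f v = v') : F.le u v ↔ F.le u' v' := by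
  rw [← hu, ← hv]
  exact L.mono.symm

lemma Frame.Line.tri {f : Equiv.Perm P} (L : F.Line f) (v : P) :
    ∃ a c, f v = a ∧ f a = c ∧ f c = v :=
  ⟨_, _, rfl, rfl, L.cube v⟩

lemma Frame.Down.up {f : Equiv.Perm P} (_L : F.Down f) (v : P) : ∃ a, f a = v :=
  ⟨f.symm v, f.apply_symm_apply v⟩

lemma Frame.Down.lv {f : Equiv.Perm P} (L : F.Down f) {q u v : P} {c c' : ZMod 3} (e : f u = v)
    (h : F.lev u = F.lev q + c) (hc : c + 2 = c') : F.lev v = F.lev q + c' := by
  rw [← e, L.lev, h, add_assoc, hc]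

lemma Frame.Down.lvUp {f : Equiv.Perm P} (L : F.Down f) {q u v : P} {c c' : ZMod 3} (e : f u = v)
    (h : F.lev v = F.lev q + c) (hc : c' + 2 = c) : F.lev u = F.lev q + c' := by
  rw [← e, L.lev, ← hc, ← add_assoc] at h
  exact add_right_cancel h

lemma Frame.Line.symm_eq {f : Equiv.Perm P} (L : F.Line f) (x : P) : f.symm x = f (f x) := by
  rw [Equiv.symm_apply_eq]
  exact (L.cube x).symm

lemma symm_of {f : Equiv.Perm P} {x c : P} (h : f c = x) : f.symm x = c := by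
  rw [← h, Equiv.symm_apply_apply]

lemma Frame.Col.c1 {t f g : Equiv.Perm P} (C : F.Col t f g) {x a b c d B : P} (ef : f x = a)
    (eg : g x = b) (ec : f c = x) (ed : g d = x) (et : t b = B) (h1 : F.le a b)
    (h2 : F.le c d) : F.le B c := by
  have := C.z1 x (by rwa [ef, eg]) (by rwa [symm_of ec, symm_of ed])
  rwa [eg, et, symm_of ec] at this

lemma Frame.Col.c1' {t f g : Equiv.Perm P} (C : F.Col t f g) {x a b c d B : P} (ef : f x = a)
    (eg : g x = b) (ec : f c = x) (ed : g d = x) (et : t b = B) (h1 : F.le b a)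
    (h2 : F.le d c) : F.le c B := by
  have := C.z1' x (by rwa [ef, eg]) (by rwa [symm_of ec, symm_of ed])
  rwa [eg, et, symm_of ec] at this

lemma Frame.Col.c2 {t f g : Equiv.Perm P} (C : F.Col t f g) {x y a b c d : P} (ec : f c = x)
    (ed : g d = x) (et : t x = y) (ea : f y = a) (eb : g y = b) (h1 : F.le c d)
    (h2 : F.le a b) : F.le d a := by
  have := C.z2 x (by rwa [symm_of ec, symm_of ed]) (by rwa [et, ea, eb])
  rwa [et, ea, symm_of ed] at this

lemma Frame.Col.c2' {t f g : Equiv.Perm P} (C : F.Col t f g) {x y a b c d : P} (ec : f c = x)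
    (ed : g d = x) (et : t x = y) (ea : f y = a) (eb : g y = b) (h1 : F.le d c)
    (h2 : F.le b a) : F.le a d := by
  have := C.z2' x (by rwa [symm_of ec, symm_of ed]) (by rwa [et, ea, eb])
  rwa [et, ea, symm_of ed] at this

/-- The signs along a line cannot all be nonnegative. -/
lemma Frame.Line.col {f g : Equiv.Perm P} (Lf : F.Line f) (Lg : F.Line g) {x : P}
    (h0 : F.le (f x) (g x)) (h1 : F.le (f (g x)) (g (g x)))
    (h2 : F.le (f (g (g x))) (g (g (g x)))) : F.le (g x) (f x) := by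
  have e := Lg.cube x
  rw [e] at h2
  -- x = f (f (f x))
  have a1 : F.le (f (f x)) (g (g x)) := F.trans (Lf.mono.2 h0) h1
  have a2 : F.le (f (f (f x))) (f (g (g x))) := Lf.mono.2 a1
  rw [Lf.cube] at a2
  -- x ≤ f (g (g x)) ≤ x
  have a3 : F.le (f x) (f (f (g (g x)))) := Lf.mono.2 a2
  have a4 : F.le (f (f (g (g x)))) (f x) := Lf.mono.2 h2
  -- g (g x) ≤ f (f x)
  have b1 : F.le (f (g (g x))) x := h2
  have b2 : F.le (g (g x)) (f (f x)) := by
    have := Lf.mono.2 (Lf.mono.2 a2)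
    rw [Lf.cube (g (g x))] at this
    exact F.trans (F.trans (F.refl _) (by
      have h := Lf.mono.2 (Lf.mono.2 b1)
      rw [Lf.cube (g (g x))] at h
      exact h)) (F.refl _)
  -- f (g x) ≤ g (g x) ≤ f (f x), so g x ≤ f x
  exact Lf.mono.1 (F.trans h1 b2)

lemma Frame.Line.col' {f g : Equiv.Perm P} (Lf : F.Line f) (Lg : F.Line g) {x : P}
    (h0 : F.le (g x) (f x)) (h1 : F.le (g (g x)) (f (g x)))
    (h2 : F.le (g (g (g x))) (f (g (g x)))) : F.le (f x) (g x) := by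
  have e := Lg.cube x
  rw [e] at h2
  have a1 : F.le (g (g x)) (f (f x)) := F.trans h1 (Lf.mono.2 h0)
  have a2 : F.le (f (g (g x))) (f (f (f x))) := Lf.mono.2 a1
  rw [Lf.cube] at a2
  have b2 : F.le (f (f x)) (g (g x)) := by
    have h := Lf.mono.2 (Lf.mono.2 h2)
    rw [Lf.cube (g (g x))] at h
    exact h
  exact Lf.mono.1 (F.trans b2 h1)

/-- The rule at a vertex. -/
lemma Frame.vertex {t f g k : Equiv.Perm P} (Dt : F.Down t) (C : F.Col t f g)
    (C' : F.Col t g k) {x : P} (h1 : F.le (f x) (g x)) (h2 : F.le (f.symm x) (g.symm x))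
    (h3 : F.le (k x) (g x)) (h4 : F.le (k.symm x) (g.symm x)) :
    F.le (g.symm x) (f.symm x) ∧ F.le (g x) (k x) := by
  have a1 := C.z1 x h1 h2
  have a2 := C'.z1' x h3 h4
  have a3 : F.le (t (k x)) (t (g x)) := Dt.mono.2 h3
  exact ⟨F.trans a2 (F.trans a3 a1), Dt.mono.1 (F.trans a1 (F.trans h2 a2))⟩

lemma Frame.vertex' {t f g k : Equiv.Perm P} (Dt : F.Down t) (C : F.Col t f g)
    (C' : F.Col t g k) {x : P} (h1 : F.le (g x) (f x)) (h2 : F.le (g.symm x) (f.symm x))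
    (h3 : F.le (g x) (k x)) (h4 : F.le (g.symm x) (k.symm x)) :
    F.le (f.symm x) (g.symm x) ∧ F.le (k x) (g x) := by
  have a1 := C.z1' x h1 h2
  have a2 := C'.z1 x h3 h4
  have a3 : F.le (t (g x)) (t (k x)) := Dt.mono.2 h3
  exact ⟨F.trans a1 (F.trans a3 a2), Dt.mono.1 (F.trans a2 (F.trans h2 a1))⟩

/-- The propositional facts at a line `g` between two columns, for the three points of an orbit.
The propositions `X i`, `X' i`, `Y i`, `Y' i` say that the signs `x i`, `y i` are `≥ 0`, `≤ 0`,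
`≥ 0`, `≤ 0`. -/
structure Facts (X0 X0' X1 X1' X2 X2' Y0 Y0' Y1 Y1' Y2 Y2' : Prop) : Prop where
  tX0 : X0 ∨ X0'
  tX1 : X1 ∨ X1'
  tX2 : X2 ∨ X2'
  tY0 : Y0 ∨ Y0'
  tY1 : Y1 ∨ Y1'
  tY2 : Y2 ∨ Y2'
  cX : X0 → X1 → X2 → X0' ∧ X1' ∧ X2'
  cX' : X0' → X1' → X2' → X0 ∧ X1 ∧ X2
  cY : Y0 → Y1 → Y2 → Y0' ∧ Y1' ∧ Y2'
  cY' : Y0' → Y1' → Y2' → Y0 ∧ Y1 ∧ Y2
  v0 : X0 → X1' → Y0' → Y1 → X1 ∧ Y0
  v0' : X0' → X1 → Y0 → Y1' → X1' ∧ Y0'
  v1 : X1 → X2' → Y1' → Y2 → X2 ∧ Y1
  v1' : X1' → X2 → Y1 → Y2' → X2' ∧ Y1'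
  v2 : X2 → X0' → Y2' → Y0 → X0 ∧ Y2
  v2' : X2' → X0 → Y2 → Y0' → X0' ∧ Y2'

end Pool.Agent.Helper89.SR
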