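import Mathlib
import Pool.Agent.Helper89.SR.Frame

/-!
The signs at a line between two columns.
-/

set_option autoImplicit false

namespace Pool.Agent.Helper89.SR

variable {P : Type*} {F : Frame P}

lemma vert {t f g k : Equiv.Perm P} (Dt : F.Down t) (Lf : F.Line f)
    (Lk : F.Line k) (C : F.Col t f g) (C' : F.Col t g k) {y y' : P} (e : g y' = y)
    (h1 : F.le (f y) (g y)) (h2 : F.le (g y') (f y')) (h3 : F.le (k y) (g y))
    (h4 : F.le (g y') (k y')) : F.le (f y') (g y') ∧ F.le (g y) (k y) := by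
  have e' : g.symm y = y' := symm_of e
  have := Frame.vertex Dt C C' h1 (by
    rw [e', ← Lf.mono (x := f.symm y), Equiv.apply_symm_apply, ← e]; exact h2) h3 (by
    rw [e', ← Lk.mono (y := y'), Equiv.apply_symm_apply, ← e]; exact h4)
  refine ⟨?_, this.2⟩
  have h5 := this.1
  rw [e', ← Lf.mono (x := y'), Equiv.apply_symm_apply, ← e] at h5
  exact h5

lemma vert' {t f g k : Equiv.Perm P} (Dt : F.Down t) (Lf : F.Line f)
    (Lk : F.Line k) (C : F.Col t f g) (C' : F.Col t g k) {y y' : P} (e : g y' = y)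
    (h1 : F.le (g y) (f y)) (h2 : F.le (f y') (g y')) (h3 : F.le (g y) (k y))
    (h4 : F.le (k y') (g y')) : F.le (g y') (f y') ∧ F.le (k y) (g y) := by
  have e' : g.symm y = y' := symm_of e
  have := Frame.vertex' Dt C C' h1 (by
    rw [e', ← Lf.mono (x := y'), Equiv.apply_symm_apply, ← e]; exact h2) h3 (by
    rw [e', ← Lk.mono (x := y'), Equiv.apply_symm_apply, ← e]; exact h4)
  refine ⟨?_, this.2⟩
  have h5 := this.1
  rw [e', ← Lf.mono (x := f.symm y), Equiv.apply_symm_apply, ← e] at h5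
  exact h5

/-- The facts about the signs at the line `g`. -/
theorem facts {t f g k : Equiv.Perm P} (Dt : F.Down t) (Lf : F.Line f) (Lg : F.Line g)
    (Lk : F.Line k) (C : F.Col t f g) (C' : F.Col t g k) {x a c : P} (e0 : g x = a)
    (e1 : g a = c) (e2 : g c = x) :
    Facts (F.le (f x) (g x)) (F.le (g x) (f x)) (F.le (f c) (g c)) (F.le (g c) (f c))
      (F.le (f a) (g a)) (F.le (g a) (f a)) (F.le (g x) (k x)) (F.le (k x) (g x))
      (F.le (g c) (k c)) (F.le (k c) (g c)) (F.le (g a) (k a)) (F.le (k a) (g a)) := by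
  have tf : ∀ y, F.le (f y) (g y) ∨ F.le (g y) (f y) :=
    fun y => F.tot (by rw [Lf.lev, Lg.lev])
  have tk : ∀ y, F.le (g y) (k y) ∨ F.le (k y) (g y) :=
    fun y => F.tot (by rw [Lk.lev, Lg.lev])
  have c1 : ∀ {u v w : P}, g u = v → g v = w → F.le (f u) (g u) → F.le (f v) (g v) →
      F.le (f w) (g w) → F.le (g u) (f u) := by
    intro u v w h1 h2 a1 a2 a3
    subst h2 h1
    exact Lf.col Lg a1 a2 a3
  have c1' : ∀ {u v w : P}, g u = v → g v = w → F.le (g u) (f u) → F.le (g v) (f v) →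
      F.le (g w) (f w) → F.le (f u) (g u) := by
    intro u v w h1 h2 a1 a2 a3
    subst h2 h1
    exact Lf.col' Lg a1 a2 a3
  have d1 : ∀ {u v w : P}, g u = v → g v = w → F.le (k u) (g u) → F.le (k v) (g v) →
      F.le (k w) (g w) → F.le (g u) (k u) := by
    intro u v w h1 h2 a1 a2 a3
    subst h2 h1
    exact Lk.col Lg a1 a2 a3
  have d1' : ∀ {u v w : P}, g u = v → g v = w → F.le (g u) (k u) → F.le (g v) (k v) →
      F.le (g w) (k w) → F.le (k u) (g u) := by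
    intro u v w h1 h2 a1 a2 a3
    subst h2 h1
    exact Lk.col' Lg a1 a2 a3
  exact {
    tX0 := tf x
    tX1 := tf c
    tX2 := tf a
    tY0 := tk x
    tY1 := tk c
    tY2 := tk a
    cX := fun h0 h1 h2 => ⟨c1 e0 e1 h0 h2 h1, c1 e2 e0 h1 h0 h2, c1 e1 e2 h2 h1 h0⟩
    cX' := fun h0 h1 h2 => ⟨c1' e0 e1 h0 h2 h1, c1' e2 e0 h1 h0 h2, c1' e1 e2 h2 h1 h0⟩
    cY := fun h0 h1 h2 => ⟨d1' e0 e1 h0 h2 h1, d1' e2 e0 h1 h0 h2, d1' e1 e2 h2 h1 h0⟩
    cY' := fun h0 h1 h2 => ⟨d1 e0 e1 h0 h2 h1, d1 e2 e0 h1 h0 h2, d1 e1 e2 h2 h1 h0⟩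
    v0 := fun h1 h2 h3 h4 => vert Dt Lf Lk C C' e2 h1 h2 h3 h4
    v0' := fun h1 h2 h3 h4 => vert' Dt Lf Lk C C' e2 h1 h2 h3 h4
    v1 := fun h1 h2 h3 h4 => vert Dt Lf Lk C C' e1 h1 h2 h3 h4
    v1' := fun h1 h2 h3 h4 => vert' Dt Lf Lk C C' e1 h1 h2 h3 h4
    v2 := fun h1 h2 h3 h4 => vert Dt Lf Lk C C' e0 h1 h2 h3 h4
    v2' := fun h1 h2 h3 h4 => vert' Dt Lf Lk C C' e0 h1 h2 h3 h4 }

/-- The facts about the signs at the line `g` in terms of the images and the preimages of a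
point. -/
theorem ac {t f g k : Equiv.Perm P} (Dt : F.Down t) (Lf : F.Line f) (Lg : F.Line g)
    (Lk : F.Line k) (C : F.Col t f g) (C' : F.Col t g k) {x p a r p' c r' : P} (ep : f x = p)
    (ea : g x = a) (er : k x = r) (ep' : f p' = x) (ec : g c = x) (er' : k r' = x) :
    ∃ X2 X2' Y2 Y2' : Prop, Facts (F.le p a) (F.le a p) (F.le c p') (F.le p' c) X2 X2'
      (F.le a r) (F.le r a) (F.le r' c) (F.le c r') Y2 Y2' := by
  have e1 : g a = c := by
    rw [← ea, ← Lg.symm_eq, symm_of ec]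
  have h := facts Dt Lf Lg Lk C C' ea e1 ec
  have q1 : F.le (f c) (g c) ↔ F.le c p' := by
    rw [ec, ← ep', Lf.mono]
  have q2 : F.le (g c) (f c) ↔ F.le p' c := by
    rw [ec, ← ep', Lf.mono]
  have q3 : F.le (g c) (k c) ↔ F.le r' c := by
    rw [ec, ← er', Lk.mono]
  have q4 : F.le (k c) (g c) ↔ F.le c r' := by
    rw [ec, ← er', Lk.mono]
  rw [ep, ea, er, q1, q2, q3, q4] at h
  exact ⟨_, _, _, _, h⟩

end Pool.Agent.Helper89.SR
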