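import Mathlib
import Pool.Agent.Helper89.SR.Facts

/-!
Impossible patterns of signs at a line between two columns.
-/

set_option autoImplicit false

namespace Pool.Agent.Helper89.SR

variable {X0 X0' X1 X1' X2 X2' Y0 Y0' Y1 Y1' Y2 Y2' : Prop}
variable {P : Type*} {F : Frame P}

lemma patMMPP (h : Facts X0 X0' X1 X1' X2 X2' Y0 Y0' Y1 Y1' Y2 Y2') :
    ¬ X0 → ¬ X1 → ¬ Y0' → ¬ Y1' → False := by
  obtain ⟨a1, a2, a3, a4, a5, a6, a7, a8, a9, b1, b2, b3, b4, b5, b6, b7⟩ := h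
  grind

lemma acMMPP {t f g k : Equiv.Perm P} (Dt : F.Down t) (Lf : F.Line f) (Lg : F.Line g)
    (Lk : F.Line k) (C : F.Col t f g) (C' : F.Col t g k) {x p a r p' c r' : P} (ep : f x = p)
    (ea : g x = a) (er : k x = r) (ep' : f p' = x) (ec : g c = x) (er' : k r' = x)
    (x0 : ¬ F.le p a) (x1 : ¬ F.le c p') (x2 : ¬ F.le r a) (x3 : ¬ F.le c r') : False := by
  obtain ⟨_, _, _, _, h⟩ := ac Dt Lf Lg Lk C C' ep ea er ep' ec er'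
  exact patMMPP h x0 x1 x2 x3

lemma patMOPM (h : Facts X0 X0' X1 X1' X2 X2' Y0 Y0' Y1 Y1' Y2 Y2') :
    ¬ X0 → X1 → X1' → ¬ Y0' → ¬ Y1 → False := by
  obtain ⟨a1, a2, a3, a4, a5, a6, a7, a8, a9, b1, b2, b3, b4, b5, b6, b7⟩ := h
  grind

lemma acMOPM {t f g k : Equiv.Perm P} (Dt : F.Down t) (Lf : F.Line f) (Lg : F.Line g)
    (Lk : F.Line k) (C : F.Col t f g) (C' : F.Col t g k) {x p a r p' c r' : P} (ep : f x = p)
    (ea : g x = a) (er : k x = r) (ep' : f p' = x) (ec : g c = x) (er' : k r' = x)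
    (x0 : ¬ F.le p a) (x1 : F.le c p') (x2 : F.le p' c) (x3 : ¬ F.le r a) (x4 : ¬ F.le r' c) : False := by
  obtain ⟨_, _, _, _, h⟩ := ac Dt Lf Lg Lk C C' ep ea er ep' ec er'
  exact patMOPM h x0 x1 x2 x3 x4

lemma patMOPP (h : Facts X0 X0' X1 X1' X2 X2' Y0 Y0' Y1 Y1' Y2 Y2') :
    ¬ X0 → X1 → X1' → ¬ Y0' → ¬ Y1' → False := by
  obtain ⟨a1, a2, a3, a4, a5, a6, a7, a8, a9, b1, b2, b3, b4, b5, b6, b7⟩ := h
  grind

lemma acMOPP {t f g k : Equiv.Perm P} (Dt : F.Down t) (Lf : F.Line f) (Lg : F.Line g)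
    (Lk : F.Line k) (C : F.Col t f g) (C' : F.Col t g k) {x p a r p' c r' : P} (ep : f x = p)
    (ea : g x = a) (er : k x = r) (ep' : f p' = x) (ec : g c = x) (er' : k r' = x)
    (x0 : ¬ F.le p a) (x1 : F.le c p') (x2 : F.le p' c) (x3 : ¬ F.le r a) (x4 : ¬ F.le c r') : False := by
  obtain ⟨_, _, _, _, h⟩ := ac Dt Lf Lg Lk C C' ep ea er ep' ec er'
  exact patMOPP h x0 x1 x2 x3 x4

lemma patMPPM (h : Facts X0 X0' X1 X1' X2 X2' Y0 Y0' Y1 Y1' Y2 Y2') :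
    ¬ X0 → ¬ X1' → ¬ Y0' → ¬ Y1 → False := by
  obtain ⟨a1, a2, a3, a4, a5, a6, a7, a8, a9, b1, b2, b3, b4, b5, b6, b7⟩ := h
  grind

lemma acMPPM {t f g k : Equiv.Perm P} (Dt : F.Down t) (Lf : F.Line f) (Lg : F.Line g)
    (Lk : F.Line k) (C : F.Col t f g) (C' : F.Col t g k) {x p a r p' c r' : P} (ep : f x = p)
    (ea : g x = a) (er : k x = r) (ep' : f p' = x) (ec : g c = x) (er' : k r' = x)
    (x0 : ¬ F.le p a) (x1 : ¬ F.le p' c) (x2 : ¬ F.le r a) (x3 : ¬ F.le r' c) : False := by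
  obtain ⟨_, _, _, _, h⟩ := ac Dt Lf Lg Lk C C' ep ea er ep' ec er'
  exact patMPPM h x0 x1 x2 x3

lemma patMPPO (h : Facts X0 X0' X1 X1' X2 X2' Y0 Y0' Y1 Y1' Y2 Y2') :
    ¬ X0 → ¬ X1' → ¬ Y0' → Y1 → Y1' → False := by
  obtain ⟨a1, a2, a3, a4, a5, a6, a7, a8, a9, b1, b2, b3, b4, b5, b6, b7⟩ := h
  grind

lemma acMPPO {t f g k : Equiv.Perm P} (Dt : F.Down t) (Lf : F.Line f) (Lg : F.Line g)
    (Lk : F.Line k) (C : F.Col t f g) (C' : F.Col t g k) {x p a r p' c r' : P} (ep : f x = p)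
    (ea : g x = a) (er : k x = r) (ep' : f p' = x) (ec : g c = x) (er' : k r' = x)
    (x0 : ¬ F.le p a) (x1 : ¬ F.le p' c) (x2 : ¬ F.le r a) (x3 : F.le r' c) (x4 : F.le c r') : False := by
  obtain ⟨_, _, _, _, h⟩ := ac Dt Lf Lg Lk C C' ep ea er ep' ec er'
  exact patMPPO h x0 x1 x2 x3 x4

lemma patOPMM (h : Facts X0 X0' X1 X1' X2 X2' Y0 Y0' Y1 Y1' Y2 Y2') :
    X0 → X0' → ¬ X1' → ¬ Y0 → ¬ Y1 → False := by
  obtain ⟨a1, a2, a3, a4, a5, a6, a7, a8, a9, b1, b2, b3, b4, b5, b6, b7⟩ := h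
  grind

lemma acOPMM {t f g k : Equiv.Perm P} (Dt : F.Down t) (Lf : F.Line f) (Lg : F.Line g)
    (Lk : F.Line k) (C : F.Col t f g) (C' : F.Col t g k) {x p a r p' c r' : P} (ep : f x = p)
    (ea : g x = a) (er : k x = r) (ep' : f p' = x) (ec : g c = x) (er' : k r' = x)
    (x0 : F.le p a) (x1 : F.le a p) (x2 : ¬ F.le p' c) (x3 : ¬ F.le a r) (x4 : ¬ F.le r' c) : False := by
  obtain ⟨_, _, _, _, h⟩ := ac Dt Lf Lg Lk C C' ep ea er ep' ec er'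
  exact patOPMM h x0 x1 x2 x3 x4

lemma patPMMO (h : Facts X0 X0' X1 X1' X2 X2' Y0 Y0' Y1 Y1' Y2 Y2') :
    ¬ X0' → ¬ X1 → ¬ Y0 → Y1 → Y1' → False := by
  obtain ⟨a1, a2, a3, a4, a5, a6, a7, a8, a9, b1, b2, b3, b4, b5, b6, b7⟩ := h
  grind

lemma acPMMO {t f g k : Equiv.Perm P} (Dt : F.Down t) (Lf : F.Line f) (Lg : F.Line g)
    (Lk : F.Line k) (C : F.Col t f g) (C' : F.Col t g k) {x p a r p' c r' : P} (ep : f x = p)
    (ea : g x = a) (er : k x = r) (ep' : f p' = x) (ec : g c = x) (er' : k r' = x)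
    (x0 : ¬ F.le a p) (x1 : ¬ F.le c p') (x2 : ¬ F.le a r) (x3 : F.le r' c) (x4 : F.le c r') : False := by
  obtain ⟨_, _, _, _, h⟩ := ac Dt Lf Lg Lk C C' ep ea er ep' ec er'
  exact patPMMO h x0 x1 x2 x3 x4

lemma patPMMP (h : Facts X0 X0' X1 X1' X2 X2' Y0 Y0' Y1 Y1' Y2 Y2') :
    ¬ X0' → ¬ X1 → ¬ Y0 → ¬ Y1' → False := by
  obtain ⟨a1, a2, a3, a4, a5, a6, a7, a8, a9, b1, b2, b3, b4, b5, b6, b7⟩ := h
  grind

lemma acPMMP {t f g k : Equiv.Perm P} (Dt : F.Down t) (Lf : F.Line f) (Lg : F.Line g)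
    (Lk : F.Line k) (C : F.Col t f g) (C' : F.Col t g k) {x p a r p' c r' : P} (ep : f x = p)
    (ea : g x = a) (er : k x = r) (ep' : f p' = x) (ec : g c = x) (er' : k r' = x)
    (x0 : ¬ F.le a p) (x1 : ¬ F.le c p') (x2 : ¬ F.le a r) (x3 : ¬ F.le c r') : False := by
  obtain ⟨_, _, _, _, h⟩ := ac Dt Lf Lg Lk C C' ep ea er ep' ec er'
  exact patPMMP h x0 x1 x2 x3

lemma patPMOP (h : Facts X0 X0' X1 X1' X2 X2' Y0 Y0' Y1 Y1' Y2 Y2') :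
    ¬ X0' → ¬ X1 → Y0 → Y0' → ¬ Y1' → False := by
  obtain ⟨a1, a2, a3, a4, a5, a6, a7, a8, a9, b1, b2, b3, b4, b5, b6, b7⟩ := h
  grind

lemma acPMOP {t f g k : Equiv.Perm P} (Dt : F.Down t) (Lf : F.Line f) (Lg : F.Line g)
    (Lk : F.Line k) (C : F.Col t f g) (C' : F.Col t g k) {x p a r p' c r' : P} (ep : f x = p)
    (ea : g x = a) (er : k x = r) (ep' : f p' = x) (ec : g c = x) (er' : k r' = x)
    (x0 : ¬ F.le a p) (x1 : ¬ F.le c p') (x2 : F.le a r) (x3 : F.le r a) (x4 : ¬ F.le c r') : False := by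
  obtain ⟨_, _, _, _, h⟩ := ac Dt Lf Lg Lk C C' ep ea er ep' ec er'
  exact patPMOP h x0 x1 x2 x3 x4

lemma patPOMM (h : Facts X0 X0' X1 X1' X2 X2' Y0 Y0' Y1 Y1' Y2 Y2') :
    ¬ X0' → X1 → X1' → ¬ Y0 → ¬ Y1 → False := by
  obtain ⟨a1, a2, a3, a4, a5, a6, a7, a8, a9, b1, b2, b3, b4, b5, b6, b7⟩ := h
  grind

lemma acPOMM {t f g k : Equiv.Perm P} (Dt : F.Down t) (Lf : F.Line f) (Lg : F.Line g)
    (Lk : F.Line k) (C : F.Col t f g) (C' : F.Col t g k) {x p a r p' c r' : P} (ep : f x = p)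
    (ea : g x = a) (er : k x = r) (ep' : f p' = x) (ec : g c = x) (er' : k r' = x)
    (x0 : ¬ F.le a p) (x1 : F.le c p') (x2 : F.le p' c) (x3 : ¬ F.le a r) (x4 : ¬ F.le r' c) : False := by
  obtain ⟨_, _, _, _, h⟩ := ac Dt Lf Lg Lk C C' ep ea er ep' ec er'
  exact patPOMM h x0 x1 x2 x3 x4

lemma patPOMP (h : Facts X0 X0' X1 X1' X2 X2' Y0 Y0' Y1 Y1' Y2 Y2') :
    ¬ X0' → X1 → X1' → ¬ Y0 → ¬ Y1' → False := by
  obtain ⟨a1, a2, a3, a4, a5, a6, a7, a8, a9, b1, b2, b3, b4, b5, b6, b7⟩ := h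
  grind

lemma acPOMP {t f g k : Equiv.Perm P} (Dt : F.Down t) (Lf : F.Line f) (Lg : F.Line g)
    (Lk : F.Line k) (C : F.Col t f g) (C' : F.Col t g k) {x p a r p' c r' : P} (ep : f x = p)
    (ea : g x = a) (er : k x = r) (ep' : f p' = x) (ec : g c = x) (er' : k r' = x)
    (x0 : ¬ F.le a p) (x1 : F.le c p') (x2 : F.le p' c) (x3 : ¬ F.le a r) (x4 : ¬ F.le c r') : False := by
  obtain ⟨_, _, _, _, h⟩ := ac Dt Lf Lg Lk C C' ep ea er ep' ec er'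
  exact patPOMP h x0 x1 x2 x3 x4

lemma patPPMM (h : Facts X0 X0' X1 X1' X2 X2' Y0 Y0' Y1 Y1' Y2 Y2') :
    ¬ X0' → ¬ X1' → ¬ Y0 → ¬ Y1 → False := by
  obtain ⟨a1, a2, a3, a4, a5, a6, a7, a8, a9, b1, b2, b3, b4, b5, b6, b7⟩ := h
  grind

lemma acPPMM {t f g k : Equiv.Perm P} (Dt : F.Down t) (Lf : F.Line f) (Lg : F.Line g)
    (Lk : F.Line k) (C : F.Col t f g) (C' : F.Col t g k) {x p a r p' c r' : P} (ep : f x = p)
    (ea : g x = a) (er : k x = r) (ep' : f p' = x) (ec : g c = x) (er' : k r' = x)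
    (x0 : ¬ F.le a p) (x1 : ¬ F.le p' c) (x2 : ¬ F.le a r) (x3 : ¬ F.le r' c) : False := by
  obtain ⟨_, _, _, _, h⟩ := ac Dt Lf Lg Lk C C' ep ea er ep' ec er'
  exact patPPMM h x0 x1 x2 x3

lemma patPPMO (h : Facts X0 X0' X1 X1' X2 X2' Y0 Y0' Y1 Y1' Y2 Y2') :
    ¬ X0' → ¬ X1' → ¬ Y0 → Y1 → Y1' → False := by
  obtain ⟨a1, a2, a3, a4, a5, a6, a7, a8, a9, b1, b2, b3, b4, b5, b6, b7⟩ := h
  grind

lemma acPPMO {t f g k : Equiv.Perm P} (Dt : F.Down t) (Lf : F.Line f) (Lg : F.Line g)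
    (Lk : F.Line k) (C : F.Col t f g) (C' : F.Col t g k) {x p a r p' c r' : P} (ep : f x = p)
    (ea : g x = a) (er : k x = r) (ep' : f p' = x) (ec : g c = x) (er' : k r' = x)
    (x0 : ¬ F.le a p) (x1 : ¬ F.le p' c) (x2 : ¬ F.le a r) (x3 : F.le r' c) (x4 : F.le c r') : False := by
  obtain ⟨_, _, _, _, h⟩ := ac Dt Lf Lg Lk C C' ep ea er ep' ec er'
  exact patPPMO h x0 x1 x2 x3 x4

lemma patPPOM (h : Facts X0 X0' X1 X1' X2 X2' Y0 Y0' Y1 Y1' Y2 Y2') :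
    ¬ X0' → ¬ X1' → Y0 → Y0' → ¬ Y1 → False := by
  obtain ⟨a1, a2, a3, a4, a5, a6, a7, a8, a9, b1, b2, b3, b4, b5, b6, b7⟩ := h
  grind

lemma acPPOM {t f g k : Equiv.Perm P} (Dt : F.Down t) (Lf : F.Line f) (Lg : F.Line g)
    (Lk : F.Line k) (C : F.Col t f g) (C' : F.Col t g k) {x p a r p' c r' : P} (ep : f x = p)
    (ea : g x = a) (er : k x = r) (ep' : f p' = x) (ec : g c = x) (er' : k r' = x)
    (x0 : ¬ F.le a p) (x1 : ¬ F.le p' c) (x2 : F.le a r) (x3 : F.le r a) (x4 : ¬ F.le r' c) : False := by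
  obtain ⟨_, _, _, _, h⟩ := ac Dt Lf Lg Lk C C' ep ea er ep' ec er'
  exact patPPOM h x0 x1 x2 x3 x4

end Pool.Agent.Helper89.SR
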