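import Mathlib
import Pool.Agent.Helper89.SR.Pat

/-!
The contradiction for three lines, found by a computer search: the facts `c` are instances of
transitivity, of totality and of the rules, and the facts `s` follow by unit propagation.
-/

set_option autoImplicit false
set_option linter.unusedVariables false

namespace Pool.Agent.Helper89.SR

variable {P : Type*}

theorem core3 {F : Frame P} {t h0 h1 h2 : Equiv.Perm P} (Dt : F.Down t)
    (L0 : F.Line h0) (L1 : F.Line h1) (L2 : F.Line h2)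
    (C0 : F.Col t h2 h0) (C1 : F.Col t h0 h1) (C2 : F.Col t h1 h2)
    (q : P) (nt : ¬ F.le (h0 q) (h2 q)) : False := by
  obtain ⟨v1, v2, e1, e2, e3⟩ := L0.tri q
  obtain ⟨v3, v4, e4, e5, e6⟩ := L1.tri q
  obtain ⟨v5, v6, e7, e8, e9⟩ := L2.tri q
  obtain ⟨v7, e10⟩ : ∃ w, t v1 = w := ⟨_, rfl⟩
  obtain ⟨v8, e11⟩ : ∃ w, t v3 = w := ⟨_, rfl⟩
  obtain ⟨v9, e12⟩ : ∃ w, t v5 = w := ⟨_, rfl⟩
  rw [e1, e7] at nt
  have lq : F.lev q = F.lev q + 0 := (add_zero _).symm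
  have lv1 : F.lev v1 = F.lev q + 2 := L0.toDown.lv e1 lq (by decide)
  have lv7 : F.lev v7 = F.lev q + 1 := Dt.lv e10 lv1 (by decide)
  have lv3 : F.lev v3 = F.lev q + 2 := L1.toDown.lv e4 lq (by decide)
  have lv8 : F.lev v8 = F.lev q + 1 := Dt.lv e11 lv3 (by decide)
  have lv5 : F.lev v5 = F.lev q + 2 := L2.toDown.lv e7 lq (by decide)
  have lv9 : F.lev v9 = F.lev q + 1 := Dt.lv e12 lv5 (by decide)
  have i1 : F.le v7 v8 ↔ F.le v1 v3 :=
    (Dt.link e10 e11).symm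
  have i2 : F.le v8 v7 ↔ F.le v3 v1 :=
    (Dt.link e11 e10).symm
  have i3 : F.le v7 v9 ↔ F.le v1 v5 :=
    (Dt.link e10 e12).symm
  have i4 : F.le v8 v9 ↔ F.le v3 v5 :=
    (Dt.link e11 e12).symm
  have i5 : F.le v5 v1 ↔ F.le v9 v7 :=
    (Dt.link e12 e10)
  have i6 : F.le v9 v8 ↔ F.le v5 v3 :=
    (Dt.link e12 e11).symm
  have c1 : F.le v7 v2 → F.le v2 v8 → ¬ F.le v1 v3 → False :=
    fun x y z => z (i1.1 (F.trans x y))
  have c2 : ¬ F.le v1 v3 → ¬ F.le v3 v1 → False :=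
    fun x y => (F.tot (lv7.trans lv8.symm)).elim (fun h => x (i1.1 h)) (fun h => y (i2.1 h))
  have c3 : ¬ F.le v3 v5 → F.le v6 v4 → F.le v4 v6 → ¬ F.le v1 v5 → ¬ F.le v6 v2 → False :=
    fun x0 x1 x2 x3 x4 => acMOPP Dt L1 L2 L0 C2 C0 e4 e7 e1 e6 e9 e3 (fun h => x0 h) x1 x2 (fun h => x3 h) (fun h => x4 h)
  have c4 : ¬ F.le v3 v1 → ¬ F.le v4 v2 → ¬ F.le v3 v5 → ¬ F.le v4 v6 → False :=
    fun x0 x1 x2 x3 => acPMMP Dt L0 L1 L2 C1 C2 e1 e4 e7 e3 e6 e9 (fun h => x0 h) (fun h => x1 h) (fun h => x2 h) (fun h => x3 h)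
  have c5 : ¬ F.le v1 v5 → ¬ F.le v9 v7 → False :=
    fun x y => (F.tot (lv7.trans lv9.symm)).elim (fun h => x (i3.1 h)) (fun h => y h)
  have c6 : ¬ F.le v1 v5 → ¬ F.le v6 v2 → ¬ F.le v1 v3 → F.le v4 v2 → F.le v2 v4 → False :=
    fun x0 x1 x2 x3 x4 => acPPMO Dt L2 L0 L1 C0 C1 e7 e1 e4 e9 e3 e6 (fun h => x0 h) (fun h => x1 h) (fun h => x2 h) x3 x4
  have c7 : F.le v3 v5 → F.le v4 v6 → ¬ F.le v9 v4 → False :=
    fun x y z => z (C2.c1 e4 e7 e6 e9 e12 x y)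
  have c8 : F.le v7 v6 → F.le v6 v2 → ¬ F.le v7 v2 → False :=
    fun x y z => z (F.trans x y)
  have c9 : ¬ F.le v3 v1 → ¬ F.le v2 v4 → ¬ F.le v3 v5 → ¬ F.le v6 v4 → False :=
    fun x0 x1 x2 x3 => acPPMM Dt L0 L1 L2 C1 C2 e1 e4 e7 e3 e6 e9 (fun h => x0 h) (fun h => x1 h) (fun h => x2 h) (fun h => x3 h)
  have c10 : F.le v2 v8 → F.le v8 v4 → ¬ F.le v2 v4 → False :=
    fun x y z => z (F.trans x y)
  have c11 : ¬ F.le v1 v5 → ¬ F.le v6 v2 → F.le v1 v3 → F.le v3 v1 → ¬ F.le v4 v2 → False :=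
    fun x0 x1 x2 x3 x4 => acPPOM Dt L2 L0 L1 C0 C1 e7 e1 e4 e9 e3 e6 (fun h => x0 h) (fun h => x1 h) x2 x3 (fun h => x4 h)
  have c12 : ¬ F.le v1 v3 → ¬ F.le v4 v2 → ¬ F.le v5 v3 → ¬ F.le v4 v6 → False :=
    fun x0 x1 x2 x3 => acMMPP Dt L0 L1 L2 C1 C2 e1 e4 e7 e3 e6 e9 (fun h => x0 h) (fun h => x1 h) (fun h => x2 h) (fun h => x3 h)
  have c13 : ¬ F.le v1 v5 → F.le v2 v6 → F.le v6 v2 → ¬ F.le v1 v3 → ¬ F.le v4 v2 → False :=
    fun x0 x1 x2 x3 x4 => acPOMM Dt L2 L0 L1 C0 C1 e7 e1 e4 e9 e3 e6 (fun h => x0 h) x1 x2 (fun h => x3 h) (fun h => x4 h)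
  have c14 : F.le v4 v6 → F.le v6 v2 → ¬ F.le v4 v2 → False :=
    fun x y z => z (F.trans x y)
  have c15 : F.le v7 v6 → F.le v6 v9 → ¬ F.le v1 v5 → False :=
    fun x y z => z (i3.1 (F.trans x y))
  have c16 : ¬ F.le v1 v5 → ¬ F.le v2 v6 → ¬ F.le v1 v3 → ¬ F.le v2 v4 → False :=
    fun x0 x1 x2 x3 => acPMMP Dt L2 L0 L1 C0 C1 e7 e1 e4 e9 e3 e6 (fun h => x0 h) (fun h => x1 h) (fun h => x2 h) (fun h => x3 h)
  have c17 : F.le v1 v3 → F.le v3 v5 → ¬ F.le v1 v5 → False :=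
    fun x y z => z (i3.1 (F.trans (i1.2 x) (i4.2 y)))
  have c19 : F.le v5 v3 → F.le v6 v4 → ¬ F.le v4 v9 → False :=
    fun x y z => z (C2.c1' e4 e7 e6 e9 e12 x y)
  have c20 : F.le v9 v7 → F.le v6 v2 → ¬ F.le v7 v6 → False :=
    fun x y z => z (C0.c1 e7 e1 e9 e3 e10 (i5.2 x) y)
  have c21 : ¬ F.le v3 v5 → ¬ F.le v6 v4 → ¬ F.le v1 v5 → ¬ F.le v6 v2 → False :=
    fun x0 x1 x2 x3 => acMMPP Dt L1 L2 L0 C2 C0 e4 e7 e1 e6 e9 e3 (fun h => x0 h) (fun h => x1 h) (fun h => x2 h) (fun h => x3 h)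
  have c22 : F.le v9 v7 → F.le v1 v3 → ¬ F.le v5 v3 → False :=
    fun x y z => z (i6.1 (F.trans x (i1.2 y)))
  have c23 : F.le v3 v5 → F.le v9 v4 → ¬ F.le v8 v4 → False :=
    fun x y z => z (F.trans (i4.2 x) y)
  have c24 : F.le v4 v2 → F.le v2 v6 → ¬ F.le v4 v6 → False :=
    fun x y z => z (F.trans x y)
  have c26 : F.le v3 v1 → F.le v4 v2 → ¬ F.le v2 v8 → False :=
    fun x y z => z (C1.c1' e1 e4 e3 e6 e11 x y)
  have c27 : F.le v6 v4 → F.le v4 v9 → ¬ F.le v6 v9 → False :=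
    fun x y z => z (F.trans x y)
  have c28 : ¬ F.le v1 v5 → ¬ F.le v6 v2 → ¬ F.le v1 v3 → ¬ F.le v4 v2 → False :=
    fun x0 x1 x2 x3 => acPPMM Dt L2 L0 L1 C0 C1 e7 e1 e4 e9 e3 e6 (fun h => x0 h) (fun h => x1 h) (fun h => x2 h) (fun h => x3 h)
  have c29 : F.le v1 v3 → F.le v3 v1 → ¬ F.le v2 v4 → ¬ F.le v3 v5 → ¬ F.le v6 v4 → False :=
    fun x0 x1 x2 x3 x4 => acOPMM Dt L0 L1 L2 C1 C2 e1 e4 e7 e3 e6 e9 x0 x1 (fun h => x2 h) (fun h => x3 h) (fun h => x4 h)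
  have c30 : F.le v1 v5 → False :=
    fun x => nt x
  have c31 : F.le v6 v4 → F.le v4 v2 → ¬ F.le v6 v2 → False :=
    fun x y z => z (F.trans x y)
  have c32 : F.le v6 v2 → F.le v2 v4 → ¬ F.le v6 v4 → False :=
    fun x y z => z (F.trans x y)
  have s33 : ¬ F.le v9 v7 → False := fun a0 =>
    have n1 : ¬ F.le v1 v5 := fun w => c30 w
    c5 n1 a0
  have s34 : ¬ F.le v5 v3 → F.le v7 v2 → F.le v6 v2 → False := fun a0 a1 a2 =>
    have n1 : F.le v9 v7 := Classical.byContradiction fun w => s33 w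
    have n2 : ¬ F.le v1 v3 := fun w => c22 n1 w a0
    have n3 : F.le v3 v1 := Classical.byContradiction fun w => c2 n2 w
    have n4 : ¬ F.le v2 v8 := fun w => c1 a1 w n2
    have n5 : ¬ F.le v4 v2 := fun w => c26 n3 w n4
    have n6 : F.le v4 v6 := Classical.byContradiction fun w => c12 n2 n5 a0 w
    c14 n6 a2 n5
  have s35 : F.le v6 v4 → F.le v5 v3 → ¬ F.le v6 v9 → False := fun a0 a1 a2 =>
    have n1 : ¬ F.le v4 v9 := fun w => c27 a0 w a2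
    c19 a1 a0 n1
  have s36 : ¬ F.le v3 v1 → ¬ F.le v2 v4 → ¬ F.le v6 v4 → False := fun a0 a1 a2 =>
    have n1 : ¬ F.le v1 v5 := fun w => c30 w
    have n2 : F.le v1 v3 := Classical.byContradiction fun w => c2 w a0
    have n3 : F.le v3 v5 := Classical.byContradiction fun w => c9 a0 a1 w a2
    c17 n2 n3 n1
  have s37 : F.le v1 v3 → ¬ F.le v2 v4 → ¬ F.le v6 v4 → False := fun a0 a1 a2 =>
    have n1 : ¬ F.le v1 v5 := fun w => c30 w
    have n2 : F.le v3 v1 := Classical.byContradiction fun w => s36 w a1 a2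
    have n3 : ¬ F.le v3 v5 := fun w => c17 a0 w n1
    c29 a0 n2 a1 n3 a2
  have s38 : F.le v6 v2 → F.le v7 v6 → False := fun a0 a1 =>
    have n1 : ¬ F.le v1 v5 := fun w => c30 w
    have n2 : ¬ F.le v6 v9 := fun w => c15 a1 w n1
    have n3 : F.le v7 v2 := Classical.byContradiction fun w => c8 a1 a0 w
    have n4 : F.le v5 v3 := Classical.byContradiction fun w => s34 w n3 a0
    have n5 : ¬ F.le v6 v4 := fun w => s35 w n4 n2
    have n6 : ¬ F.le v2 v4 := fun w => c32 a0 w n5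
    have n7 : F.le v3 v1 := Classical.byContradiction fun w => s36 w n6 n5
    have n8 : ¬ F.le v1 v3 := fun w => s37 w n6 n5
    have n9 : ¬ F.le v2 v8 := fun w => c1 n3 w n8
    have n10 : F.le v2 v6 := Classical.byContradiction fun w => c16 n1 w n8 n6
    have n11 : ¬ F.le v4 v2 := fun w => c26 n7 w n9
    c13 n1 n10 a0 n8 n11
  have s39 : F.le v3 v5 → ¬ F.le v6 v2 → False := fun a0 a1 =>
    have n1 : ¬ F.le v1 v5 := fun w => c30 w
    have n2 : ¬ F.le v1 v3 := fun w => c17 w a0 n1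
    have n3 : F.le v3 v1 := Classical.byContradiction fun w => c2 n2 w
    have n4 : F.le v4 v2 := Classical.byContradiction fun w => c28 n1 a1 n2 w
    have n5 : ¬ F.le v2 v4 := fun w => c6 n1 a1 n2 n4 w
    have n6 : F.le v2 v8 := Classical.byContradiction fun w => c26 n3 n4 w
    have n7 : F.le v2 v6 := Classical.byContradiction fun w => c16 n1 w n2 n5
    have n8 : ¬ F.le v8 v4 := fun w => c10 n6 w n5
    have n9 : F.le v4 v6 := Classical.byContradiction fun w => c24 n4 n7 w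
    have n10 : ¬ F.le v9 v4 := fun w => c23 a0 w n8
    c7 a0 n9 n10
  have s40 : F.le v6 v4 → ¬ F.le v3 v5 → ¬ F.le v6 v2 → False := fun a0 a1 a2 =>
    have n1 : ¬ F.le v1 v5 := fun w => c30 w
    have n2 : ¬ F.le v4 v6 := fun w => c3 a1 a0 w n1 a2
    have n3 : ¬ F.le v4 v2 := fun w => c31 a0 w a2
    have n4 : F.le v3 v1 := Classical.byContradiction fun w => c4 w n3 a1 n2
    have n5 : F.le v1 v3 := Classical.byContradiction fun w => c28 n1 a2 w n3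
    c11 n1 a2 n5 n4 n3
  have s41 : ¬ F.le v3 v5 → ¬ F.le v6 v2 → False := fun a0 a1 =>
    have n1 : ¬ F.le v1 v5 := fun w => c30 w
    have n2 : F.le v6 v4 := Classical.byContradiction fun w => c21 a0 w n1 a1
    s40 n2 a0 a1
  have s42 : ¬ F.le v6 v2 → False := fun a0 =>
    have n1 : ¬ F.le v3 v5 := fun w => s39 w a0
    s41 n1 a0
  have s43 : ¬ F.le v7 v6 → False := fun a0 =>
    have n1 : F.le v6 v2 := Classical.byContradiction fun w => s42 w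
    have n2 : F.le v9 v7 := Classical.byContradiction fun w => s33 w
    c20 n2 n1 a0
  have n1 : F.le v6 v2 := Classical.byContradiction fun w => s42 w
  have n2 : F.le v7 v6 := Classical.byContradiction fun w => s43 w
  exact s38 n1 n2

end Pool.Agent.Helper89.SR
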