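import Mathlib
import Pool.Agent.Helper89.SR.Pat

/-!
The contradiction for four lines, found by a computer search: the facts `c` are instances of
transitivity, of totality and of the rules, and the facts `s` follow by unit propagation.
-/

set_option autoImplicit false
set_option linter.unusedVariables false

namespace Pool.Agent.Helper89.SR

variable {P : Type*}

theorem core4 {F : Frame P} {t h0 h1 h2 h3 : Equiv.Perm P} (Dt : F.Down t)
    (L0 : F.Line h0) (L1 : F.Line h1) (L2 : F.Line h2) (L3 : F.Line h3)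
    (C0 : F.Col t h3 h0) (C1 : F.Col t h0 h1) (C2 : F.Col t h1 h2) (C3 : F.Col t h2 h3)
    (q : P) (nt : ¬ F.le (h0 q) (h3 q)) : False := by
  obtain ⟨v1, e1⟩ : ∃ w, t q = w := ⟨_, rfl⟩
  obtain ⟨v2, v3, e2, e3, e4⟩ := L0.tri q
  obtain ⟨v4, v5, e5, e6, e7⟩ := L1.tri q
  obtain ⟨v6, v7, e8, e9, e10⟩ := L2.tri q
  obtain ⟨v8, v9, e11, e12, e13⟩ := L3.tri q
  obtain ⟨v10, e14⟩ : ∃ w, t v3 = w := ⟨_, rfl⟩
  obtain ⟨v11, e15⟩ : ∃ w, t v5 = w := ⟨_, rfl⟩
  obtain ⟨v12, e16⟩ : ∃ w, t v7 = w := ⟨_, rfl⟩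
  obtain ⟨v13, e17⟩ : ∃ w, t v9 = w := ⟨_, rfl⟩
  obtain ⟨v14, e18⟩ : ∃ w, t v2 = w := ⟨_, rfl⟩
  obtain ⟨v15, e19⟩ : ∃ w, t v4 = w := ⟨_, rfl⟩
  obtain ⟨v16, e20⟩ : ∃ w, t v6 = w := ⟨_, rfl⟩
  obtain ⟨v17, e21⟩ : ∃ w, t v8 = w := ⟨_, rfl⟩
  obtain ⟨v18, v19, e22, e23, e24⟩ := L1.tri v3
  obtain ⟨v20, v21, e25, e26, e27⟩ := L2.tri v3
  obtain ⟨v22, v23, e28, e29, e30⟩ := L3.tri v3
  obtain ⟨v24, v25, e31, e32, e33⟩ := L0.tri v5
  obtain ⟨v26, v27, e34, e35, e36⟩ := L2.tri v5
  obtain ⟨v28, v29, e37, e38, e39⟩ := L3.tri v5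
  obtain ⟨v30, v31, e40, e41, e42⟩ := L1.tri v7
  obtain ⟨v32, v33, e43, e44, e45⟩ := L3.tri v7
  obtain ⟨v34, v35, e46, e47, e48⟩ := L0.tri v7
  obtain ⟨v36, v37, e49, e50, e51⟩ := L0.tri v9
  obtain ⟨v38, v39, e52, e53, e54⟩ := L1.tri v9
  obtain ⟨v40, v41, e55, e56, e57⟩ := L2.tri v9
  obtain ⟨v42, v43, e58, e59, e60⟩ := L1.tri v2
  obtain ⟨v44, v45, e61, e62, e63⟩ := L2.tri v2
  obtain ⟨v46, v47, e64, e65, e66⟩ := L3.tri v2
  obtain ⟨v48, v49, e67, e68, e69⟩ := L0.tri v4
  obtain ⟨v50, v51, e70, e71, e72⟩ := L2.tri v4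
  obtain ⟨v52, v53, e73, e74, e75⟩ := L0.tri v6
  obtain ⟨v54, v55, e76, e77, e78⟩ := L1.tri v6
  obtain ⟨v56, v57, e79, e80, e81⟩ := L3.tri v6
  obtain ⟨v58, v59, e82, e83, e84⟩ := L0.tri v8
  obtain ⟨v60, v61, e85, e86, e87⟩ := L1.tri v8
  obtain ⟨v62, v63, e88, e89, e90⟩ := L2.tri v8
  obtain ⟨v64, e91⟩ : ∃ w, t v36 = w := ⟨_, rfl⟩
  obtain ⟨v65, e92⟩ : ∃ w, t v42 = w := ⟨_, rfl⟩
  obtain ⟨v66, v67, e93, e94, e95⟩ := L0.tri v14
  obtain ⟨v68, e96⟩ : ∃ w, t v50 = w := ⟨_, rfl⟩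
  obtain ⟨v69, v70, e97, e98, e99⟩ := L0.tri v15
  obtain ⟨v71, v72, e100, e101, e102⟩ := L1.tri v15
  obtain ⟨v73, v74, e103, e104, e105⟩ := L2.tri v15
  obtain ⟨v75, e106⟩ : ∃ w, t v52 = w := ⟨_, rfl⟩
  obtain ⟨v76, e107⟩ : ∃ w, t v54 = w := ⟨_, rfl⟩
  obtain ⟨v77, v78, e108, e109, e110⟩ := L0.tri v16
  obtain ⟨v79, v80, e111, e112, e113⟩ := L1.tri v16
  obtain ⟨v81, e114⟩ : ∃ w, t v58 = w := ⟨_, rfl⟩
  obtain ⟨v82, e115⟩ : ∃ w, t v60 = w := ⟨_, rfl⟩
  obtain ⟨v83, e116⟩ : ∃ w, t v62 = w := ⟨_, rfl⟩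
  obtain ⟨v84, v85, e117, e118, e119⟩ := L0.tri v17
  obtain ⟨v86, v87, e120, e121, e122⟩ := L1.tri v17
  obtain ⟨v88, v89, e123, e124, e125⟩ := L2.tri v17
  rw [e2, e11] at nt
  have lq : F.lev q = F.lev q + 0 := (add_zero _).symm
  have lv4 : F.lev v4 = F.lev q + 2 := L1.toDown.lv e5 lq (by decide)
  have lv48 : F.lev v48 = F.lev q + 1 := L0.toDown.lv e67 lv4 (by decide)
  have lv49 : F.lev v49 = F.lev q + 0 := L0.toDown.lv e68 lv48 (by decide)
  have lv6 : F.lev v6 = F.lev q + 2 := L2.toDown.lv e8 lq (by decide)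
  have lv7 : F.lev v7 = F.lev q + 1 := L2.toDown.lv e9 lv6 (by decide)
  have lv34 : F.lev v34 = F.lev q + 0 := L0.toDown.lv e46 lv7 (by decide)
  have lv54 : F.lev v54 = F.lev q + 1 := L1.toDown.lv e76 lv6 (by decide)
  have lv55 : F.lev v55 = F.lev q + 0 := L1.toDown.lv e77 lv54 (by decide)
  have lv8 : F.lev v8 = F.lev q + 2 := L3.toDown.lv e11 lq (by decide)
  have lv58 : F.lev v58 = F.lev q + 1 := L0.toDown.lv e82 lv8 (by decide)
  have lv59 : F.lev v59 = F.lev q + 0 := L0.toDown.lv e83 lv58 (by decide)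
  have lv62 : F.lev v62 = F.lev q + 1 := L2.toDown.lv e88 lv8 (by decide)
  have lv63 : F.lev v63 = F.lev q + 0 := L2.toDown.lv e89 lv62 (by decide)
  have lv30 : F.lev v30 = F.lev q + 0 := L1.toDown.lv e40 lv7 (by decide)
  have lv9 : F.lev v9 = F.lev q + 1 := L3.toDown.lv e12 lv8 (by decide)
  have lv40 : F.lev v40 = F.lev q + 0 := L2.toDown.lv e55 lv9 (by decide)
  have i1 : F.le v31 v6 ↔ F.le v7 v54 :=
    (L1.toDown.link e42 e76)
  have i2 : F.le q v32 ↔ F.le v9 v7 :=
    (L3.toDown.link e13 e43).symm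
  have i3 : F.le v26 q ↔ F.le q v30 :=
    Iff.trans ((L2.toDown.link e34 e10).symm) (L1.toDown.link e7 e40)
  have i4 : F.le q v51 ↔ F.le v55 q :=
    Iff.trans (L2.toDown.link e8 e72) ((L1.toDown.link e78 e5).symm)
  have i5 : F.le v26 v51 ↔ F.le v5 v50 :=
    (L2.toDown.link e34 e71).symm
  have i6 : F.le v34 q ↔ F.le q v20 :=
    Iff.trans ((L0.toDown.link e46 e4).symm) (L2.toDown.link e10 e25)
  have i7 : F.le v34 v36 ↔ F.le q v40 :=
    Iff.trans ((L0.toDown.link e46 e49).symm) (L2.toDown.link e10 e55)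
  have i8 : F.le v26 v20 ↔ F.le v5 v3 :=
    (L2.toDown.link e34 e25).symm
  have i9 : F.le v3 v9 ↔ F.le q v36 :=
    (L0.toDown.link e4 e49)
  have i10 : F.le v63 v40 ↔ F.le v8 v41 :=
    (L2.toDown.link e90 e56)
  have i11 : F.le v40 v20 ↔ F.le v9 v3 :=
    (L2.toDown.link e55 e25).symm
  have i12 : F.le v54 v7 ↔ F.le v6 v31 :=
    (L1.toDown.link e76 e42).symm
  have i13 : F.le v56 v7 ↔ F.le v6 v33 :=
    (L3.toDown.link e79 e45).symm
  have i14 : F.le v57 q ↔ F.le q v63 :=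
    Iff.trans (L3.toDown.link e81 e11) ((L2.toDown.link e8 e90).symm)
  have i15 : F.le v51 q ↔ F.le q v55 :=
    Iff.trans (L2.toDown.link e72 e8) ((L1.toDown.link e5 e78).symm)
  have i16 : F.le v51 v45 ↔ F.le v4 v2 :=
    (L2.toDown.link e72 e63)
  have i17 : F.le v73 q ↔ F.le v69 v34 :=
    Iff.trans ((L2.toDown.link e103 e10).symm) (L0.toDown.link e97 e46)
  have i18 : F.le v73 v88 ↔ F.le q v61 :=
    Iff.trans ((L2.toDown.link e103 e123).symm) (Iff.trans ((Dt.link e19 e21).symm) ((L1.toDown.link e5 e87).symm))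
  have i19 : F.le v6 v8 ↔ F.le q v63 :=
    (L2.toDown.link e8 e90).symm
  have i20 : F.le v7 v9 ↔ F.le q v40 :=
    (L2.toDown.link e10 e55)
  have i21 : F.le v58 v9 ↔ F.le v8 v37 :=
    (L0.toDown.link e82 e51).symm
  have i22 : F.le q v49 ↔ F.le v2 v4 :=
    (L0.toDown.link e2 e69)
  have i23 : F.le v49 q ↔ F.le v4 v2 :=
    (L0.toDown.link e69 e2)
  have i24 : F.le v40 v63 ↔ F.le v9 v62 :=
    (L2.toDown.link e55 e89).symm
  have i25 : F.le v6 v4 ↔ F.le v55 q :=
    (L1.toDown.link e78 e5).symm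
  have i26 : F.le v5 v7 ↔ F.le q v30 :=
    (L1.toDown.link e7 e40)
  have i27 : F.le v57 v32 ↔ F.le v6 v33 :=
    (L3.toDown.link e81 e44)
  have i28 : F.le v32 q ↔ F.le q v40 :=
    Iff.trans ((L3.toDown.link e43 e13).symm) (L2.toDown.link e10 e55)
  have i29 : F.le v59 v36 ↔ F.le v8 v37 :=
    (L0.toDown.link e84 e50)
  have i30 : F.le v24 q ↔ F.le v5 v3 :=
    (L0.toDown.link e31 e4).symm
  have i31 : F.le v24 v69 ↔ F.le q v71 :=
    Iff.trans ((L0.toDown.link e31 e97).symm) (L1.toDown.link e7 e100)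
  have i32 : F.le v10 v12 ↔ F.le q v34 :=
    Iff.trans ((Dt.link e14 e16).symm) (L0.toDown.link e4 e46)
  have i33 : F.le v63 q ↔ F.le v8 v6 :=
    (L2.toDown.link e90 e8)
  have i34 : F.le v30 v61 ↔ F.le v31 v8 :=
    (L1.toDown.link e41 e87)
  have i35 : F.le v9 v58 ↔ F.le v36 v59 :=
    (L0.toDown.link e49 e83)
  have i36 : F.le q v59 ↔ F.le v2 v8 :=
    (L0.toDown.link e2 e84)
  have i37 : F.le v43 q ↔ F.le v2 v4 :=
    (L1.toDown.link e60 e5)
  have i38 : F.le v43 v61 ↔ F.le v2 v8 :=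
    (L1.toDown.link e60 e87)
  have i39 : F.le v17 v7 ↔ F.le v84 v34 :=
    (L0.toDown.link e117 e46)
  have i40 : F.le v15 v3 ↔ F.le v69 q :=
    (L0.toDown.link e97 e4)
  have i41 : F.le v12 v68 ↔ F.le v55 q :=
    Iff.trans ((Dt.link e16 e96).symm) (Iff.trans ((L2.toDown.link e9 e70).symm) ((L1.toDown.link e78 e5).symm))
  have i42 : F.le v12 v81 ↔ F.le v34 v59 :=
    Iff.trans ((Dt.link e16 e114).symm) (L0.toDown.link e46 e83)
  have i43 : F.le v81 v12 ↔ F.le v59 v34 :=
    Iff.trans ((Dt.link e114 e16).symm) (L0.toDown.link e83 e46)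
  have i44 : F.le v12 v83 ↔ F.le q v63 :=
    Iff.trans ((Dt.link e16 e116).symm) (L2.toDown.link e10 e89)
  have i45 : F.le v11 v82 ↔ F.le q v61 :=
    Iff.trans ((Dt.link e15 e115).symm) (L1.toDown.link e7 e86)
  have i46 : F.le v82 v81 ↔ F.le v60 v58 :=
    (Dt.link e115 e114).symm
  have i47 : F.le v11 v81 ↔ F.le v24 v59 :=
    Iff.trans ((Dt.link e15 e114).symm) (L0.toDown.link e31 e83)
  have i48 : F.le v55 v30 ↔ F.le v6 v31 :=
    (L1.toDown.link e78 e41)
  have i49 : F.le v30 v38 ↔ F.le q v40 :=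
    Iff.trans ((L1.toDown.link e40 e52).symm) (L2.toDown.link e10 e55)
  have i50 : F.le v69 v84 ↔ F.le q v61 :=
    Iff.trans ((L0.toDown.link e97 e117).symm) (Iff.trans ((Dt.link e19 e21).symm) ((L1.toDown.link e5 e87).symm))
  have i51 : F.le v22 q ↔ F.le q v36 :=
    Iff.trans ((L3.toDown.link e28 e13).symm) (L0.toDown.link e4 e49)
  have i52 : F.le v22 v28 ↔ F.le v3 v5 :=
    (L3.toDown.link e28 e37).symm
  have i53 : F.le v38 v55 ↔ F.le v39 v6 :=
    (L1.toDown.link e53 e78)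
  have i54 : F.le v38 v30 ↔ F.le v9 v7 :=
    (L1.toDown.link e52 e40).symm
  have i55 : F.le q v18 ↔ F.le v5 v3 :=
    (L1.toDown.link e7 e22).symm
  have i56 : F.le v43 v18 ↔ F.le v42 v3 :=
    (L1.toDown.link e59 e22).symm
  have i57 : F.le v75 v76 ↔ F.le v52 v54 :=
    (Dt.link e106 e107).symm
  have i58 : F.le v76 v12 ↔ F.le v6 v31 :=
    Iff.trans ((Dt.link e107 e16).symm) ((L1.toDown.link e76 e42).symm)
  have i59 : F.le v75 v12 ↔ F.le v53 v34 :=
    Iff.trans ((Dt.link e106 e16).symm) (L0.toDown.link e74 e46)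
  have i60 : F.le v40 q ↔ F.le v9 v7 :=
    (L2.toDown.link e55 e10).symm
  have i61 : F.le q v26 ↔ F.le v30 q :=
    Iff.trans ((L2.toDown.link e10 e34).symm) (L1.toDown.link e40 e7)
  have i62 : F.le v40 v26 ↔ F.le q v28 :=
    Iff.trans ((L2.toDown.link e55 e34).symm) (L3.toDown.link e13 e37)
  have i63 : F.le v7 v5 ↔ F.le v30 q :=
    (L1.toDown.link e40 e7)
  have i64 : F.le v5 v16 ↔ F.le v24 v77 :=
    (L0.toDown.link e31 e108)
  have i65 : F.le v83 v13 ↔ F.le v8 v41 :=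
    Iff.trans ((Dt.link e116 e17).symm) ((L2.toDown.link e88 e57).symm)
  have i66 : F.le v81 v13 ↔ F.le v8 v37 :=
    Iff.trans ((Dt.link e114 e17).symm) ((L0.toDown.link e82 e51).symm)
  have i67 : F.le v3 v15 ↔ F.le q v69 :=
    (L0.toDown.link e4 e97)
  have i68 : F.le v77 v69 ↔ F.le v55 q :=
    Iff.trans ((L0.toDown.link e108 e97).symm) (Iff.trans ((Dt.link e20 e19).symm) ((L1.toDown.link e78 e5).symm))
  have i69 : F.le q v22 ↔ F.le v9 v3 :=
    (L3.toDown.link e13 e28).symm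
  have i70 : F.le v32 v22 ↔ F.le q v20 :=
    Iff.trans ((L3.toDown.link e43 e28).symm) (L2.toDown.link e10 e25)
  have i71 : F.le v53 v59 ↔ F.le q v63 :=
    Iff.trans (L0.toDown.link e75 e84) ((L2.toDown.link e8 e90).symm)
  have i72 : F.le v47 q ↔ F.le v2 v8 :=
    (L3.toDown.link e66 e11)
  have i73 : F.le q v47 ↔ F.le v59 q :=
    Iff.trans (L3.toDown.link e11 e66) ((L0.toDown.link e84 e2).symm)
  have i74 : F.le v57 v47 ↔ F.le q v45 :=
    Iff.trans (L3.toDown.link e81 e66) ((L2.toDown.link e8 e63).symm)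
  have i75 : F.le v22 v47 ↔ F.le v3 v46 :=
    (L3.toDown.link e28 e65).symm
  have i76 : F.le v24 v34 ↔ F.le q v30 :=
    Iff.trans ((L0.toDown.link e31 e46).symm) (L1.toDown.link e7 e40)
  have i77 : F.le v45 v63 ↔ F.le v2 v8 :=
    (L2.toDown.link e63 e90)
  have i78 : F.le v26 v88 ↔ F.le v24 v84 :=
    Iff.trans ((L2.toDown.link e34 e123).symm) (L0.toDown.link e31 e117)
  have i79 : F.le q v86 ↔ F.le v24 v84 :=
    Iff.trans ((L1.toDown.link e7 e120).symm) (L0.toDown.link e31 e117)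
  have i80 : F.le v79 v86 ↔ F.le q v63 :=
    Iff.trans ((L1.toDown.link e111 e120).symm) (Iff.trans ((Dt.link e20 e21).symm) ((L2.toDown.link e8 e90).symm))
  have i81 : F.le v65 v11 ↔ F.le v2 v4 :=
    Iff.trans ((Dt.link e92 e15).symm) ((L1.toDown.link e58 e6).symm)
  have i82 : F.le v11 v83 ↔ F.le v26 v63 :=
    Iff.trans ((Dt.link e15 e116).symm) (L2.toDown.link e34 e89)
  have i83 : F.le v79 v71 ↔ F.le v55 q :=
    Iff.trans ((L1.toDown.link e111 e100).symm) (Iff.trans ((Dt.link e20 e19).symm) ((L1.toDown.link e78 e5).symm))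
  have i84 : F.le v8 v2 ↔ F.le v59 q :=
    (L0.toDown.link e84 e2).symm
  have i85 : F.le v59 v53 ↔ F.le v8 v6 :=
    (L0.toDown.link e84 e75)
  have i86 : F.le v36 v53 ↔ F.le v37 v6 :=
    (L0.toDown.link e50 e75)
  have i87 : F.le v4 v6 ↔ F.le q v55 :=
    (L1.toDown.link e5 e78).symm
  have i88 : F.le v7 v17 ↔ F.le q v88 :=
    (L2.toDown.link e10 e123)
  have i89 : F.le v51 v63 ↔ F.le q v61 :=
    Iff.trans (L2.toDown.link e72 e90) ((L1.toDown.link e5 e87).symm)
  have i90 : F.le v55 v61 ↔ F.le q v63 :=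
    Iff.trans (L1.toDown.link e78 e87) ((L2.toDown.link e8 e90).symm)
  have i91 : F.le v37 v8 ↔ F.le v36 v59 :=
    (L0.toDown.link e50 e84).symm
  have i92 : F.le v77 v66 ↔ F.le q v45 :=
    Iff.trans ((L0.toDown.link e108 e93).symm) (Iff.trans ((Dt.link e20 e18).symm) ((L2.toDown.link e8 e63).symm))
  have i93 : F.le v68 v83 ↔ F.le q v61 :=
    Iff.trans ((Dt.link e96 e116).symm) (Iff.trans ((L2.toDown.link e70 e88).symm) ((L1.toDown.link e5 e87).symm))
  have i94 : F.le v30 v18 ↔ F.le q v20 :=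
    Iff.trans ((L1.toDown.link e40 e22).symm) (L2.toDown.link e10 e25)
  have i95 : F.le v43 v55 ↔ F.le v45 q :=
    Iff.trans (L1.toDown.link e60 e78) ((L2.toDown.link e63 e8).symm)
  have i96 : F.le v77 v84 ↔ F.le q v63 :=
    Iff.trans ((L0.toDown.link e108 e117).symm) (Iff.trans ((Dt.link e20 e21).symm) ((L2.toDown.link e8 e90).symm))
  have i97 : F.le q v79 ↔ F.le v24 v77 :=
    Iff.trans ((L1.toDown.link e7 e111).symm) (L0.toDown.link e31 e108)
  have i98 : F.le v30 v79 ↔ F.le v34 v77 :=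
    Iff.trans ((L1.toDown.link e40 e111).symm) (L0.toDown.link e46 e108)
  have i99 : F.le v1 v64 ↔ F.le q v36 :=
    (Dt.link e1 e91).symm
  have i100 : F.le v16 v5 ↔ F.le v79 q :=
    (L1.toDown.link e111 e7)
  have i101 : F.le v20 q ↔ F.le q v34 :=
    Iff.trans ((L2.toDown.link e25 e10).symm) (L0.toDown.link e4 e46)
  have i102 : F.le v20 v26 ↔ F.le v3 v5 :=
    (L2.toDown.link e25 e34).symm
  have i103 : F.le v66 v36 ↔ F.le v14 v9 :=
    (L0.toDown.link e93 e49).symm
  have c1 : ¬ F.le q v30 → F.le v6 v31 → F.le v7 v54 → ¬ F.le v9 v7 → ¬ F.le v6 v33 → False :=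
    fun x0 x1 x2 x3 x4 => acPOMP Dt L1 L2 L3 C2 C3 e40 e10 e43 e42 e9 e45 (fun h => x0 h) x1 (i1.2 x2) (fun h => x3 (i2.1 h)) (fun h => x4 h)
  have c2 : F.le v47 v12 → F.le v12 v55 → ¬ F.le v47 v55 → False :=
    fun x y z => z (F.trans x y)
  have c3 : F.le q v30 → F.le v55 q → ¬ F.le v5 v50 → False :=
    fun x y z => z (i5.1 (F.trans (i3.2 x) (i4.2 y)))
  have c4 : F.le q v20 → F.le q v36 → ¬ F.le q v40 → False :=
    fun x y z => z (i7.1 (F.trans (i6.2 x) y))
  have c5 : F.le q v30 → F.le q v20 → ¬ F.le v5 v3 → False :=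
    fun x y z => z (i8.1 (F.trans (i3.2 x) y))
  have c6 : ¬ F.le v2 v8 → ¬ F.le q v36 → ¬ F.le v2 v4 → F.le v5 v3 → F.le v3 v5 → False :=
    fun x0 x1 x2 x3 x4 => acPMMO Dt L3 L0 L1 C0 C1 e11 e2 e5 e13 e4 e7 (fun h => x0 h) (fun h => x1 (i9.1 h)) (fun h => x2 h) x3 x4
  have c7 : F.le v69 q → F.le q v34 → ¬ F.le v69 v34 → False :=
    fun x y z => z (F.trans x y)
  have c8 : F.le v8 v41 → F.le v9 v3 → ¬ F.le v63 v20 → False :=
    fun x y z => z (F.trans (i10.2 x) (i11.2 y))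
  have c9 : ¬ F.le v6 v31 → ¬ F.le v55 q → ¬ F.le v6 v33 → ¬ F.le q v63 → False :=
    fun x0 x1 x2 x3 => acMPPM Dt L1 L2 L3 C2 C3 e76 e9 e79 e78 e8 e81 (fun h => x0 (i12.1 h)) (fun h => x1 h) (fun h => x2 (i13.1 h)) (fun h => x3 (i14.1 h))
  have c10 : F.le q v55 → F.le q v45 → ¬ F.le v4 v2 → False :=
    fun x y z => z (i16.1 (F.trans (i15.2 x) y))
  have c11 : F.le v69 v34 → F.le q v88 → ¬ F.le q v61 → False :=
    fun x y z => z (i18.1 (F.trans (i17.2 x) y))
  have c12 : F.le v53 v34 → F.le q v40 → ¬ F.le v53 v36 → False :=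
    fun x y z => z (F.trans x (i7.2 y))
  have c13 : F.le v6 v31 → F.le v55 q → ¬ F.le v12 v55 → False :=
    fun x y z => z (C2.c1 e76 e9 e78 e8 e16 (i12.2 x) y)
  have c14 : ¬ F.le q v63 → F.le v9 v7 → F.le q v40 → ¬ F.le v2 v8 → ¬ F.le q v36 → False :=
    fun x0 x1 x2 x3 x4 => acMOPM Dt L2 L3 L0 C3 C0 e8 e11 e2 e10 e13 e4 (fun h => x0 (i19.1 h)) x1 (i20.2 x2) (fun h => x3 h) (fun h => x4 (i9.1 h))
  have c15 : F.le v55 v59 → F.le v59 q → ¬ F.le v55 q → False :=
    fun x y z => z (F.trans x y)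
  have c16 : F.le v8 v37 → F.le v59 q → ¬ F.le q v81 → False :=
    fun x y z => z (C0.c1' e12 e82 e11 e84 e114 (i21.2 x) y)
  have c17 : ¬ F.le v2 v4 → ¬ F.le v4 v2 → False :=
    fun x y => (F.tot (lq.trans lv49.symm)).elim (fun h => x (i22.1 h)) (fun h => y (i23.1 h))
  have c18 : F.le q v40 → F.le v9 v62 → ¬ F.le q v63 → False :=
    fun x y z => z (F.trans x (i24.2 y))
  have c19 : ¬ F.le q v34 → ¬ F.le q v20 → False :=
    fun x y => (F.tot (lq.trans lv34.symm)).elim (fun h => x h) (fun h => y (i6.1 h))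
  have c20 : ¬ F.le v55 q → ¬ F.le q v30 → ¬ F.le q v63 → ¬ F.le v9 v7 → False :=
    fun x0 x1 x2 x3 => acPPMM Dt L1 L2 L3 C2 C3 e5 e8 e11 e7 e10 e13 (fun h => x0 (i25.1 h)) (fun h => x1 (i26.1 h)) (fun h => x2 (i19.1 h)) (fun h => x3 h)
  have c21 : F.le v6 v33 → F.le q v40 → ¬ F.le q v63 → False :=
    fun x y z => z (i14.1 (F.trans (i27.2 x) (i28.2 y)))
  have c22 : F.le v59 q → F.le q v36 → ¬ F.le v8 v37 → False :=
    fun x y z => z (i29.1 (F.trans x y))
  have c23 : F.le v5 v3 → F.le q v69 → ¬ F.le q v71 → False :=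
    fun x y z => z (i31.1 (F.trans (i30.2 x) y))
  have c24 : F.le v24 v59 → F.le v59 q → ¬ F.le v5 v3 → False :=
    fun x y z => z (i30.1 (F.trans x y))
  have c25 : ¬ F.le q v55 → ¬ F.le v55 q → False :=
    fun x y => (F.tot (lq.trans lv55.symm)).elim (fun h => x h) (fun h => y h)
  have c26 : F.le q v69 → F.le v69 v34 → ¬ F.le q v34 → False :=
    fun x y z => z (F.trans x y)
  have c27 : ¬ F.le v34 v59 → ¬ F.le v59 v34 → False :=
    fun x y => (F.tot (lv34.trans lv59.symm)).elim (fun h => x h) (fun h => y h)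
  have c28 : F.le v47 v10 → F.le q v34 → ¬ F.le v47 v12 → False :=
    fun x y z => z (F.trans x (i32.2 y))
  have c29 : ¬ F.le q v63 → ¬ F.le v8 v6 → False :=
    fun x y => (F.tot (lq.trans lv63.symm)).elim (fun h => x h) (fun h => y (i33.1 h))
  have c30 : F.le q v30 → F.le v31 v8 → ¬ F.le q v61 → False :=
    fun x y z => z (F.trans x (i34.2 y))
  have c31 : ¬ F.le v36 v59 → ¬ F.le v2 v8 → ¬ F.le v60 v58 → ¬ F.le v61 v59 → False :=
    fun x0 x1 x2 x3 => acMPPM Dt L3 L0 L1 C0 C1 e12 e82 e85 e11 e84 e87 (fun h => x0 (i35.1 h)) (fun h => x1 (i36.1 h)) (fun h => x2 h) (fun h => x3 h)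
  have c32 : F.le v2 v4 → F.le q v61 → ¬ F.le v2 v8 → False :=
    fun x y z => z (i38.1 (F.trans (i37.2 x) y))
  have c33 : F.le q v63 → F.le q v40 → ¬ F.le v84 v34 → False :=
    fun x y z => z (i39.1 (C3.c1 e8 e11 e10 e13 e21 (i19.2 x) (i20.2 y)))
  have c34 : F.le v31 v64 → F.le v64 v8 → ¬ F.le v31 v8 → False :=
    fun x y z => z (F.trans x y)
  have c35 : F.le v2 v4 → F.le v3 v5 → ¬ F.le v69 q → False :=
    fun x y z => z (i40.1 (C1.c1 e2 e5 e4 e7 e19 x y))
  have c36 : F.le v55 q → F.le v68 v81 → ¬ F.le v34 v59 → False :=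
    fun x y z => z (i42.1 (F.trans (i41.2 x) y))
  have c37 : F.le v59 v34 → F.le q v63 → ¬ F.le v81 v83 → False :=
    fun x y z => z (F.trans (i43.2 x) (i44.2 y))
  have c38 : ¬ F.le q v36 → ¬ F.le v8 v37 → ¬ F.le v38 v36 → ¬ F.le v39 v37 → False :=
    fun x0 x1 x2 x3 => acMPPM Dt L3 L0 L1 C0 C1 e13 e49 e52 e12 e51 e54 (fun h => x0 h) (fun h => x1 h) (fun h => x2 h) (fun h => x3 h)
  have c40 : F.le v68 q → F.le q v81 → ¬ F.le v68 v81 → False :=
    fun x y z => z (F.trans x y)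
  have c41 : F.le q v61 → F.le v60 v58 → ¬ F.le v24 v59 → False :=
    fun x y z => z (i47.1 (F.trans (i45.2 x) (i46.2 y)))
  have c42 : F.le v6 v31 → F.le q v40 → ¬ F.le v55 v38 → False :=
    fun x y z => z (F.trans (i48.2 x) (i49.2 y))
  have c43 : F.le q v61 → F.le v84 v34 → ¬ F.le v69 v34 → False :=
    fun x y z => z (F.trans (i50.2 x) y)
  have c44 : ¬ F.le v9 v62 → ¬ F.le q v63 → F.le v36 v59 → F.le v8 v37 → ¬ F.le v2 v8 → False :=
    fun x0 x1 x2 x3 x4 => acPMOP Dt L2 L3 L0 C3 C0 e88 e12 e82 e90 e11 e84 (fun h => x0 h) (fun h => x1 h) (i35.2 x2) (i21.2 x3) (fun h => x4 (i36.1 h))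
  have c45 : F.le q v65 → F.le v65 v83 → ¬ F.le q v83 → False :=
    fun x y z => z (F.trans x y)
  have c46 : F.le q v36 → F.le q v28 → ¬ F.le v3 v5 → False :=
    fun x y z => z (i52.1 (F.trans (i51.2 x) y))
  have c47 : ¬ F.le v9 v62 → ¬ F.le q v63 → ¬ F.le v36 v59 → ¬ F.le v2 v8 → False :=
    fun x0 x1 x2 x3 => acPMMP Dt L2 L3 L0 C3 C0 e88 e12 e82 e90 e11 e84 (fun h => x0 h) (fun h => x1 h) (fun h => x2 (i35.1 h)) (fun h => x3 (i36.1 h))
  have c48 : F.le v39 v6 → F.le v6 v31 → ¬ F.le v9 v7 → False :=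
    fun x y z => z (i54.1 (F.trans (i53.2 x) (i48.2 y)))
  have c49 : F.le v2 v4 → F.le v5 v3 → ¬ F.le v42 v3 → False :=
    fun x y z => z (i56.1 (F.trans (i37.2 x) (i55.2 y)))
  have c50 : F.le v59 v34 → F.le q v40 → ¬ F.le v8 v37 → False :=
    fun x y z => z (i29.1 (F.trans x (i7.2 y)))
  have c51 : F.le v52 v54 → F.le v6 v31 → ¬ F.le v53 v34 → False :=
    fun x y z => z (i59.1 (F.trans (i57.2 x) (i58.2 y)))
  have c52 : F.le v9 v7 → F.le v30 q → ¬ F.le q v28 → False :=
    fun x y z => z (i62.1 (F.trans (i60.2 x) (i61.2 y)))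
  have c53 : ¬ F.le v2 v8 → ¬ F.le v9 v3 → ¬ F.le v2 v4 → ¬ F.le v5 v3 → False :=
    fun x0 x1 x2 x3 => acPPMM Dt L3 L0 L1 C0 C1 e11 e2 e5 e13 e4 e7 (fun h => x0 h) (fun h => x1 h) (fun h => x2 h) (fun h => x3 h)
  have c54 : F.le v2 v8 → False :=
    fun x => nt x
  have c55 : ¬ F.le v52 v54 → ¬ F.le v53 v55 → ¬ F.le v7 v54 → ¬ F.le q v55 → False :=
    fun x0 x1 x2 x3 => acMPPM Dt L0 L1 L2 C1 C2 e73 e76 e9 e75 e78 e8 (fun h => x0 h) (fun h => x1 h) (fun h => x2 h) (fun h => x3 h)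
  have c56 : F.le v55 q → F.le v30 q → ¬ F.le v24 v77 → False :=
    fun x y z => z (i64.1 (C2.c1' e5 e8 e7 e10 e20 (i25.2 x) (i63.2 y)))
  have c57 : F.le v34 v59 → F.le v59 q → ¬ F.le q v20 → False :=
    fun x y z => z (i6.1 (F.trans x y))
  have c58 : F.le v81 v83 → F.le v8 v41 → ¬ F.le v8 v37 → False :=
    fun x y z => z (i66.1 (F.trans x (i65.2 y)))
  have c59 : F.le v4 v2 → F.le v5 v3 → ¬ F.le q v69 → False :=
    fun x y z => z (i67.1 (C1.c1' e2 e5 e4 e7 e19 x y))
  have c60 : F.le v55 q → F.le v69 q → ¬ F.le v77 q → False :=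
    fun x y z => z (F.trans (i68.2 x) y)
  have c61 : ¬ F.le v2 v8 → ¬ F.le v59 q → False :=
    fun x y => (F.tot (lq.trans lv59.symm)).elim (fun h => x (i36.1 h)) (fun h => y h)
  have c62 : F.le v55 q → F.le q v30 → ¬ F.le v6 v31 → False :=
    fun x y z => z (i48.1 (F.trans x y))
  have c63 : F.le q v40 → F.le v9 v3 → ¬ F.le q v20 → False :=
    fun x y z => z (i70.1 (F.trans (i28.2 x) (i69.2 y)))
  have c64 : F.le v53 v36 → F.le v36 v59 → ¬ F.le q v63 → False :=
    fun x y z => z (i71.1 (F.trans x y))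
  have c65 : F.le v38 v36 → F.le v36 v59 → ¬ F.le v38 v59 → False :=
    fun x y z => z (F.trans x y)
  have c66 : F.le v47 v55 → F.le v55 q → ¬ F.le v2 v8 → False :=
    fun x y z => z (i72.1 (F.trans x y))
  have c67 : F.le v53 v38 → F.le v38 v36 → ¬ F.le v53 v36 → False :=
    fun x y z => z (F.trans x y)
  have c68 : F.le q v63 → F.le v59 q → ¬ F.le q v45 → False :=
    fun x y z => z (i74.1 (F.trans (i14.2 x) (i73.2 y)))
  have c69 : F.le v9 v7 → F.le q v20 → ¬ F.le v9 v3 → False :=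
    fun x y z => z (i11.1 (F.trans (i60.2 x) y))
  have c70 : F.le q v30 → F.le q v63 → ¬ F.le v26 v63 → False :=
    fun x y z => z (F.trans (i3.2 x) y)
  have c71 : F.le q v36 → F.le v59 q → ¬ F.le v3 v46 → False :=
    fun x y z => z (i75.1 (F.trans (i51.2 x) (i73.2 y)))
  have c72 : F.le v5 v3 → F.le q v34 → ¬ F.le q v30 → False :=
    fun x y z => z (i76.1 (F.trans (i30.2 x) y))
  have c73 : F.le v42 v3 → F.le v2 v4 → ¬ F.le q v65 → False :=
    fun x y z => z (C1.c1' e3 e58 e2 e60 e92 x (i37.2 y))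
  have c74 : F.le v45 q → F.le q v63 → ¬ F.le v2 v8 → False :=
    fun x y z => z (i77.1 (F.trans x y))
  have c75 : F.le q v36 → F.le v36 v59 → ¬ F.le v2 v8 → False :=
    fun x y z => z (i36.1 (F.trans x y))
  have c76 : F.le q v30 → F.le q v88 → ¬ F.le v24 v84 → False :=
    fun x y z => z (i78.1 (F.trans (i3.2 x) y))
  have c77 : F.le v24 v77 → F.le v77 q → ¬ F.le v5 v3 → False :=
    fun x y z => z (i30.1 (F.trans x y))
  have c78 : ¬ F.le q v40 → ¬ F.le v8 v41 → ¬ F.le q v36 → ¬ F.le v8 v37 → False :=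
    fun x0 x1 x2 x3 => acPMMP Dt L2 L3 L0 C3 C0 e55 e13 e49 e57 e12 e51 (fun h => x0 h) (fun h => x1 h) (fun h => x2 h) (fun h => x3 h)
  have c79 : F.le v79 q → F.le v24 v84 → ¬ F.le q v63 → False :=
    fun x y z => z (i80.1 (F.trans x (i79.2 y)))
  have c80 : F.le q v63 → F.le v63 v20 → ¬ F.le q v20 → False :=
    fun x y z => z (F.trans x y)
  have c81 : F.le v2 v4 → F.le v26 v63 → ¬ F.le v65 v83 → False :=
    fun x y z => z (F.trans (i81.2 x) (i82.2 y))
  have c82 : F.le v79 q → F.le q v71 → ¬ F.le v55 q → False :=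
    fun x y z => z (i83.1 (F.trans x y))
  have c83 : F.le v5 v50 → F.le v55 q → ¬ F.le v68 q → False :=
    fun x y z => z (C2.c1 e6 e70 e5 e72 e96 x (i4.2 y))
  have c84 : F.le v3 v46 → F.le v59 q → ¬ F.le v47 v10 → False :=
    fun x y z => z (C0.c1' e64 e3 e66 e2 e14 x (i73.2 y))
  have c86 : ¬ F.le q v30 → ¬ F.le v30 q → False :=
    fun x y => (F.tot (lq.trans lv30.symm)).elim (fun h => x h) (fun h => y h)
  have c87 : ¬ F.le q v63 → ¬ F.le q v40 → ¬ F.le v2 v8 → F.le q v36 → F.le v9 v3 → False :=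
    fun x0 x1 x2 x3 x4 => acMPPO Dt L2 L3 L0 C3 C0 e8 e11 e2 e10 e13 e4 (fun h => x0 (i19.1 h)) (fun h => x1 (i20.1 h)) (fun h => x2 h) (i9.2 x3) x4
  have c88 : F.le v59 q → F.le v9 v3 → ¬ F.le v14 v9 → False :=
    fun x y z => z (C0.c1 e11 e2 e13 e4 e18 (i84.2 x) y)
  have c89 : F.le v36 v59 → F.le v8 v6 → ¬ F.le v37 v6 → False :=
    fun x y z => z (i86.1 (F.trans x (i85.2 y)))
  have c90 : ¬ F.le q v30 → ¬ F.le v6 v31 → ¬ F.le v9 v7 → ¬ F.le v6 v33 → False :=
    fun x0 x1 x2 x3 => acPMMP Dt L1 L2 L3 C2 C3 e40 e10 e43 e42 e9 e45 (fun h => x0 h) (fun h => x1 h) (fun h => x2 (i2.1 h)) (fun h => x3 h)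
  have c91 : F.le q v55 → F.le v55 q → ¬ F.le q v30 → ¬ F.le q v63 → ¬ F.le v9 v7 → False :=
    fun x0 x1 x2 x3 x4 => acOPMM Dt L1 L2 L3 C2 C3 e5 e8 e11 e7 e10 e13 (i87.2 x0) (i25.2 x1) (fun h => x2 (i26.1 h)) (fun h => x3 (i19.1 h)) (fun h => x4 h)
  have c92 : F.le v8 v6 → F.le v9 v7 → ¬ F.le q v88 → False :=
    fun x y z => z (i88.1 (C3.c1' e8 e11 e10 e13 e21 x y))
  have c93 : F.le q v55 → F.le q v63 → ¬ F.le q v61 → False :=
    fun x y z => z (i89.1 (F.trans (i15.2 x) y))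
  have c94 : F.le q v63 → F.le v61 v59 → ¬ F.le v55 v59 → False :=
    fun x y z => z (F.trans (i90.2 x) y)
  have c95 : F.le q v30 → F.le v30 v59 → ¬ F.le v2 v8 → False :=
    fun x y z => z (i36.1 (F.trans x y))
  have c96 : ¬ F.le q v40 → ¬ F.le v8 v41 → ¬ F.le q v36 → F.le v36 v59 → F.le v8 v37 → False :=
    fun x0 x1 x2 x3 x4 => acPMMO Dt L2 L3 L0 C3 C0 e55 e13 e49 e57 e12 e51 (fun h => x0 h) (fun h => x1 h) (fun h => x2 h) (i91.2 x3) x4
  have c97 : F.le v24 v84 → F.le v84 v34 → ¬ F.le q v30 → False :=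
    fun x y z => z (i76.1 (F.trans x y))
  have c98 : F.le v34 v77 → F.le q v45 → ¬ F.le v34 v66 → False :=
    fun x y z => z (F.trans x (i92.2 y))
  have c99 : F.le q v30 → F.le v6 v31 → ¬ F.le v31 v1 → False :=
    fun x y z => z (C2.c1' e40 e10 e42 e9 e1 x y)
  have c100 : F.le q v36 → F.le v8 v37 → ¬ F.le v64 v8 → False :=
    fun x y z => z (C0.c1 e13 e49 e12 e51 e91 x y)
  have c101 : F.le v68 q → F.le q v83 → ¬ F.le q v61 → False :=
    fun x y z => z (i93.1 (F.trans x y))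
  have c102 : F.le v30 q → F.le v5 v3 → ¬ F.le q v20 → False :=
    fun x y z => z (i94.1 (F.trans x (i55.2 y)))
  have c103 : F.le v39 v37 → F.le v37 v6 → ¬ F.le v39 v6 → False :=
    fun x y z => z (F.trans x y)
  have c104 : F.le v2 v4 → F.le q v55 → ¬ F.le v45 q → False :=
    fun x y z => z (i95.1 (F.trans (i37.2 x) y))
  have c105 : F.le v24 v77 → F.le q v63 → ¬ F.le v24 v84 → False :=
    fun x y z => z (F.trans x (i96.2 y))
  have c106 : F.le v30 q → F.le v24 v77 → ¬ F.le v34 v77 → False :=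
    fun x y z => z (i98.1 (F.trans x (i97.2 y)))
  have c107 : ¬ F.le v2 v8 → F.le q v36 → F.le v9 v3 → ¬ F.le v2 v4 → ¬ F.le v5 v3 → False :=
    fun x0 x1 x2 x3 x4 => acPOMM Dt L3 L0 L1 C0 C1 e11 e2 e5 e13 e4 e7 (fun h => x0 h) (i9.2 x1) x2 (fun h => x3 h) (fun h => x4 h)
  have c108 : F.le v31 v1 → F.le q v36 → ¬ F.le v31 v64 → False :=
    fun x y z => z (F.trans x (i99.2 y))
  have c109 : ¬ F.le v2 v8 → ¬ F.le q v36 → ¬ F.le v2 v4 → ¬ F.le v3 v5 → False :=
    fun x0 x1 x2 x3 => acPMMP Dt L3 L0 L1 C0 C1 e11 e2 e5 e13 e4 e7 (fun h => x0 h) (fun h => x1 (i9.1 h)) (fun h => x2 h) (fun h => x3 h)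
  have c110 : ¬ F.le v2 v4 → ¬ F.le v5 v3 → ¬ F.le v55 q → ¬ F.le q v30 → False :=
    fun x0 x1 x2 x3 => acMMPP Dt L0 L1 L2 C1 C2 e2 e5 e8 e4 e7 e10 (fun h => x0 h) (fun h => x1 h) (fun h => x2 (i25.1 h)) (fun h => x3 (i26.1 h))
  have c111 : F.le q v55 → F.le q v30 → ¬ F.le v79 q → False :=
    fun x y z => z (i100.1 (C2.c1 e5 e8 e7 e10 e20 (i87.2 x) (i26.2 y)))
  have c112 : ¬ F.le q v63 → ¬ F.le q v40 → ¬ F.le v2 v8 → ¬ F.le q v36 → False :=
    fun x0 x1 x2 x3 => acMPPM Dt L2 L3 L0 C3 C0 e8 e11 e2 e10 e13 e4 (fun h => x0 (i19.1 h)) (fun h => x1 (i20.1 h)) (fun h => x2 h) (fun h => x3 (i9.1 h))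
  have c114 : F.le q v34 → F.le v30 q → ¬ F.le v3 v5 → False :=
    fun x y z => z (i102.1 (F.trans (i101.2 x) (i61.2 y)))
  have c115 : ¬ F.le q v40 → ¬ F.le v9 v7 → False :=
    fun x y => (F.tot (lq.trans lv40.symm)).elim (fun h => x h) (fun h => y (i60.1 h))
  have c116 : F.le v34 v66 → F.le v14 v9 → ¬ F.le q v40 → False :=
    fun x y z => z (i7.1 (F.trans x (i103.2 y)))
  have c117 : F.le q v40 → F.le v38 v59 → ¬ F.le v30 v59 → False :=
    fun x y z => z (F.trans (i49.2 x) y)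
  have c118 : F.le v53 v55 → F.le v55 v38 → ¬ F.le v53 v38 → False :=
    fun x y z => z (F.trans x y)
  have s119 : ¬ F.le v59 q → False := fun a0 =>
    have n1 : ¬ F.le v2 v8 := fun w => c54 w
    c61 n1 a0
  have s120 : F.le v55 q → F.le v47 v55 → False := fun a0 a1 =>
    have n1 : ¬ F.le v2 v8 := fun w => c54 w
    c66 a1 a0 n1
  have s121 : F.le q v63 → ¬ F.le q v45 → False := fun a0 a1 =>
    have n1 : F.le v59 q := Classical.byContradiction fun w => s119 w
    c68 a0 n1 a1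
  have s122 : F.le q v36 → ¬ F.le v3 v46 → False := fun a0 a1 =>
    have n1 : F.le v59 q := Classical.byContradiction fun w => s119 w
    c71 a0 n1 a1
  have s123 : F.le v45 q → F.le q v63 → False := fun a0 a1 =>
    have n1 : ¬ F.le v2 v8 := fun w => c54 w
    c74 a0 a1 n1
  have s124 : F.le q v36 → F.le v36 v59 → False := fun a0 a1 =>
    have n1 : ¬ F.le v2 v8 := fun w => c54 w
    c75 a0 a1 n1
  have s125 : F.le v3 v46 → ¬ F.le v47 v10 → False := fun a0 a1 =>
    have n1 : F.le v59 q := Classical.byContradiction fun w => s119 w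
    c84 a0 n1 a1
  have s126 : F.le v9 v3 → F.le q v36 → ¬ F.le q v40 → ¬ F.le q v63 → False := fun a0 a1 a2 a3 =>
    have n1 : ¬ F.le v2 v8 := fun w => c54 w
    c87 a3 a2 n1 a1 a0
  have s127 : F.le v9 v3 → ¬ F.le v14 v9 → False := fun a0 a1 =>
    have n1 : F.le v59 q := Classical.byContradiction fun w => s119 w
    c88 n1 a0 a1
  have s128 : F.le q v30 → F.le v30 v59 → False := fun a0 a1 =>
    have n1 : ¬ F.le v2 v8 := fun w => c54 w
    c95 a0 a1 n1
  have s129 : F.le v9 v3 → F.le q v36 → ¬ F.le v5 v3 → ¬ F.le v2 v4 → False := fun a0 a1 a2 a3 =>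
    have n1 : ¬ F.le v2 v8 := fun w => c54 w
    c107 n1 a1 a0 a3 a2
  have s130 : ¬ F.le v3 v5 → ¬ F.le q v36 → ¬ F.le v2 v4 → False := fun a0 a1 a2 =>
    have n1 : ¬ F.le v2 v8 := fun w => c54 w
    c109 n1 a1 a2 a0
  have s131 : ¬ F.le q v36 → ¬ F.le q v40 → ¬ F.le q v63 → False := fun a0 a1 a2 =>
    have n1 : ¬ F.le v2 v8 := fun w => c54 w
    c112 a2 a1 n1 a0
  have s132 : F.le q v30 → F.le q v55 → F.le q v88 → ¬ F.le q v63 → False := fun a0 a1 a2 a3 =>
    have n1 : F.le v79 q := Classical.byContradiction fun w => c111 a1 a0 w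
    have n2 : F.le v24 v84 := Classical.byContradiction fun w => c76 a0 a2 w
    c79 n1 n2 a3
  have s134 : F.le q v40 → F.le v9 v7 → ¬ F.le q v63 → False := fun a0 a1 a2 =>
    have n1 : ¬ F.le v2 v8 := fun w => c54 w
    have n2 : F.le q v36 := Classical.byContradiction fun w => c14 a2 a1 a0 n1 w
    have n3 : ¬ F.le v9 v62 := fun w => c18 a0 w a2
    have n4 : ¬ F.le v36 v59 := fun w => s124 n2 w
    c47 n3 a2 n4 n1
  have s135 : F.le v9 v7 → F.le v30 q → ¬ F.le q v63 → False := fun a0 a1 a2 =>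
    have n1 : ¬ F.le v2 v8 := fun w => c54 w
    have n2 : F.le v8 v6 := Classical.byContradiction fun w => c29 a2 w
    have n3 : F.le q v28 := Classical.byContradiction fun w => c52 a0 a1 w
    have n4 : F.le q v88 := Classical.byContradiction fun w => c92 n2 a0 w
    have n5 : ¬ F.le q v40 := fun w => s134 w a0 a2
    have n6 : F.le q v36 := Classical.byContradiction fun w => s131 w n5 a2
    have n7 : ¬ F.le q v20 := fun w => c4 w n6 n5
    have n8 : ¬ F.le v9 v3 := fun w => s126 w n6 n5 a2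
    have n9 : F.le v3 v5 := Classical.byContradiction fun w => c46 n6 n3 w
    have n10 : F.le q v34 := Classical.byContradiction fun w => c19 w n7
    have n11 : ¬ F.le v5 v3 := fun w => c102 a1 w n7
    have n12 : F.le v2 v4 := Classical.byContradiction fun w => c53 n1 n8 w n11
    have n13 : ¬ F.le q v61 := fun w => c32 n12 w n1
    have n14 : F.le v69 q := Classical.byContradiction fun w => c35 n12 n9 w
    have n15 : ¬ F.le v69 v34 := fun w => c11 w n4 n13
    c7 n14 n10 n15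
  have s136 : ¬ F.le v6 v31 → ¬ F.le v9 v7 → ¬ F.le q v63 → False := fun a0 a1 a2 =>
    have n1 : F.le q v40 := Classical.byContradiction fun w => c115 w a1
    have n2 : ¬ F.le v6 v33 := fun w => c21 w n1 a2
    have n3 : F.le q v30 := Classical.byContradiction fun w => c90 w a0 a1 n2
    have n4 : F.le v55 q := Classical.byContradiction fun w => c9 a0 w n2 a2
    c62 n4 n3 a0
  have s137 : ¬ F.le v9 v7 → ¬ F.le q v63 → False := fun a0 a1 =>
    have n1 : ¬ F.le v2 v8 := fun w => c54 w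
    have n2 : F.le v8 v6 := Classical.byContradiction fun w => c29 a1 w
    have n3 : F.le q v40 := Classical.byContradiction fun w => c115 w a0
    have n4 : ¬ F.le v9 v62 := fun w => c18 n3 w a1
    have n5 : ¬ F.le v6 v33 := fun w => c21 w n3 a1
    have n6 : F.le v36 v59 := Classical.byContradiction fun w => c47 n4 a1 w n1
    have n7 : ¬ F.le v8 v37 := fun w => c44 n4 a1 n6 w n1
    have n8 : ¬ F.le v53 v36 := fun w => c64 w n6 a1
    have n9 : ¬ F.le q v36 := fun w => s124 w n6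
    have n10 : F.le v37 v6 := Classical.byContradiction fun w => c89 n6 n2 w
    have n11 : F.le v6 v31 := Classical.byContradiction fun w => s136 w a0 a1
    have n12 : ¬ F.le v53 v34 := fun w => c12 w n3 n8
    have n13 : F.le v55 v38 := Classical.byContradiction fun w => c42 n11 n3 w
    have n14 : ¬ F.le v39 v6 := fun w => c48 w n11 a0
    have n15 : ¬ F.le v52 v54 := fun w => c51 w n11 n12
    have n16 : ¬ F.le v39 v37 := fun w => c103 w n10 n14
    have n17 : F.le v38 v36 := Classical.byContradiction fun w => c38 n9 n7 w n16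
    have n18 : F.le v38 v59 := Classical.byContradiction fun w => c65 n17 n6 w
    have n19 : ¬ F.le v53 v38 := fun w => c67 w n17 n8
    have n20 : F.le v30 v59 := Classical.byContradiction fun w => c117 n3 n18 w
    have n21 : ¬ F.le v53 v55 := fun w => c118 w n13 n19
    have n22 : ¬ F.le q v30 := fun w => s128 w n20
    have n23 : F.le v55 q := Classical.byContradiction fun w => c20 w n22 a1 a0
    have n24 : ¬ F.le v7 v54 := fun w => c1 n22 n11 w a0 n5
    have n25 : ¬ F.le q v55 := fun w => c91 w n23 n22 a1 a0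
    c55 n15 n21 n24 n25
  have s138 : ¬ F.le q v63 → False := fun a0 =>
    have n1 : F.le v8 v6 := Classical.byContradiction fun w => c29 a0 w
    have n2 : F.le v9 v7 := Classical.byContradiction fun w => s137 w a0
    have n3 : F.le q v88 := Classical.byContradiction fun w => c92 n1 n2 w
    have n4 : ¬ F.le q v40 := fun w => s134 w n2 a0
    have n5 : ¬ F.le v30 q := fun w => s135 n2 w a0
    have n6 : F.le q v36 := Classical.byContradiction fun w => s131 w n4 a0
    have n7 : ¬ F.le q v20 := fun w => c4 w n6 n4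
    have n8 : F.le q v30 := Classical.byContradiction fun w => c86 w n5
    have n9 : F.le v3 v46 := Classical.byContradiction fun w => s122 n6 w
    have n10 : F.le q v34 := Classical.byContradiction fun w => c19 w n7
    have n11 : ¬ F.le q v55 := fun w => s132 n8 w n3 a0
    have n12 : F.le v47 v10 := Classical.byContradiction fun w => s125 n9 w
    have n13 : F.le v55 q := Classical.byContradiction fun w => c25 n11 w
    have n14 : F.le v47 v12 := Classical.byContradiction fun w => c28 n12 n10 w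
    have n15 : ¬ F.le v47 v55 := fun w => s120 n13 w
    have n16 : F.le v6 v31 := Classical.byContradiction fun w => c62 n13 n8 w
    have n17 : F.le v12 v55 := Classical.byContradiction fun w => c13 n16 n13 w
    c2 n14 n17 n15
  have s139 : ¬ F.le q v45 → False := fun a0 =>
    have n1 : F.le q v63 := Classical.byContradiction fun w => s138 w
    s121 n1 a0
  have s140 : F.le v45 q → False := fun a0 =>
    have n1 : F.le q v63 := Classical.byContradiction fun w => s138 w
    s123 a0 n1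
  have s141 : F.le q v36 → ¬ F.le q v40 → ¬ F.le v47 v12 → False := fun a0 a1 a2 =>
    have n1 : F.le v3 v46 := Classical.byContradiction fun w => s122 a0 w
    have n2 : ¬ F.le q v20 := fun w => c4 w a0 a1
    have n3 : F.le v47 v10 := Classical.byContradiction fun w => s125 n1 w
    have n4 : F.le q v34 := Classical.byContradiction fun w => c19 w n2
    c28 n3 n4 a2
  have s142 : ¬ F.le v34 v59 → ¬ F.le q v36 → ¬ F.le q v40 → F.le v68 q → F.le v55 q → False := fun a0 a1 a2 a3 a4 =>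
    have n1 : F.le q v63 := Classical.byContradiction fun w => s138 w
    have n2 : F.le v59 q := Classical.byContradiction fun w => s119 w
    have n3 : F.le v59 v34 := Classical.byContradiction fun w => c27 a0 w
    have n4 : ¬ F.le v68 v81 := fun w => c36 a4 w a0
    have n5 : F.le v81 v83 := Classical.byContradiction fun w => c37 n3 n1 w
    have n6 : ¬ F.le q v81 := fun w => c40 a3 w n4
    have n7 : ¬ F.le v8 v37 := fun w => c16 w n2 n6
    have n8 : F.le v8 v41 := Classical.byContradiction fun w => c78 a2 w a1 n7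
    c58 n5 n8 n7
  have s143 : ¬ F.le v2 v4 → F.le v5 v3 → ¬ F.le q v36 → False := fun a0 a1 a2 =>
    have n1 : ¬ F.le v2 v8 := fun w => c54 w
    have n2 : F.le v3 v5 := Classical.byContradiction fun w => s130 w a2 a0
    c6 n1 a2 a0 a1 n2
  have s144 : ¬ F.le q v40 → F.le v55 q → F.le q v30 → False := fun a0 a1 a2 =>
    have n1 : F.le q v63 := Classical.byContradiction fun w => s138 w
    have n2 : F.le v59 q := Classical.byContradiction fun w => s119 w
    have n3 : ¬ F.le v2 v8 := fun w => c54 w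
    have n4 : ¬ F.le v47 v55 := fun w => s120 a1 w
    have n5 : F.le v6 v31 := Classical.byContradiction fun w => c62 a1 a2 w
    have n6 : F.le v12 v55 := Classical.byContradiction fun w => c13 n5 a1 w
    have n7 : ¬ F.le v47 v12 := fun w => c2 w n6 n4
    have n8 : F.le v5 v50 := Classical.byContradiction fun w => c3 a2 a1 w
    have n9 : F.le v68 q := Classical.byContradiction fun w => c83 n8 a1 w
    have n10 : F.le v26 v63 := Classical.byContradiction fun w => c70 a2 n1 w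
    have n11 : ¬ F.le q v36 := fun w => s141 w a0 n7
    have n12 : F.le v34 v59 := Classical.byContradiction fun w => s142 w n11 a0 n9 a1
    have n13 : F.le q v20 := Classical.byContradiction fun w => c57 n12 n2 w
    have n14 : F.le v5 v3 := Classical.byContradiction fun w => c5 a2 n13 w
    have n15 : F.le v2 v4 := Classical.byContradiction fun w => s143 w n14 n11
    have n16 : ¬ F.le q v61 := fun w => c32 n15 w n3
    have n17 : F.le v65 v83 := Classical.byContradiction fun w => c81 n15 n10 w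
    have n18 : F.le v42 v3 := Classical.byContradiction fun w => c49 n15 n14 w
    have n19 : ¬ F.le q v83 := fun w => c101 n9 w n16
    have n20 : F.le q v65 := Classical.byContradiction fun w => c73 n18 n15 w
    c45 n20 n17 n19
  have s145 : F.le v5 v3 → ¬ F.le q v36 → F.le v68 q → F.le v26 v63 → False := fun a0 a1 a2 a3 =>
    have n1 : ¬ F.le v2 v8 := fun w => c54 w
    have n2 : F.le v2 v4 := Classical.byContradiction fun w => s143 w a0 a1
    have n3 : ¬ F.le q v61 := fun w => c32 n2 w n1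
    have n4 : F.le v65 v83 := Classical.byContradiction fun w => c81 n2 a3 w
    have n5 : F.le v42 v3 := Classical.byContradiction fun w => c49 n2 a0 w
    have n6 : ¬ F.le q v83 := fun w => c101 a2 w n3
    have n7 : F.le q v65 := Classical.byContradiction fun w => c73 n5 n2 w
    c45 n7 n4 n6
  have s146 : ¬ F.le v34 v59 → F.le q v40 → F.le v68 q → F.le v55 q → False := fun a0 a1 a2 a3 =>
    have n1 : F.le v59 q := Classical.byContradiction fun w => s119 w
    have n2 : F.le v59 v34 := Classical.byContradiction fun w => c27 a0 w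
    have n3 : ¬ F.le v68 v81 := fun w => c36 a3 w a0
    have n4 : F.le v8 v37 := Classical.byContradiction fun w => c50 n2 a1 w
    have n5 : ¬ F.le q v81 := fun w => c40 a2 w n3
    c16 n4 n1 n5
  have s147 : F.le v55 q → F.le q v30 → False := fun a0 a1 =>
    have n1 : F.le q v63 := Classical.byContradiction fun w => s138 w
    have n2 : F.le v59 q := Classical.byContradiction fun w => s119 w
    have n3 : ¬ F.le v2 v8 := fun w => c54 w
    have n4 : F.le v26 v63 := Classical.byContradiction fun w => c70 a1 n1 w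
    have n5 : ¬ F.le v47 v55 := fun w => s120 a0 w
    have n6 : F.le v5 v50 := Classical.byContradiction fun w => c3 a1 a0 w
    have n7 : F.le v6 v31 := Classical.byContradiction fun w => c62 a0 a1 w
    have n8 : F.le v12 v55 := Classical.byContradiction fun w => c13 n7 a0 w
    have n9 : F.le v68 q := Classical.byContradiction fun w => c83 n6 a0 w
    have n10 : F.le v31 v1 := Classical.byContradiction fun w => c99 a1 n7 w
    have n11 : ¬ F.le v47 v12 := fun w => c2 w n8 n5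
    have n12 : F.le q v40 := Classical.byContradiction fun w => s144 w a0 a1
    have n13 : F.le v84 v34 := Classical.byContradiction fun w => c33 n1 n12 w
    have n14 : F.le v34 v59 := Classical.byContradiction fun w => s146 w n12 n9 a0
    have n15 : F.le q v20 := Classical.byContradiction fun w => c57 n14 n2 w
    have n16 : F.le v5 v3 := Classical.byContradiction fun w => c5 a1 n15 w
    have n17 : F.le q v36 := Classical.byContradiction fun w => s145 n16 w n9 n4
    have n18 : F.le v8 v37 := Classical.byContradiction fun w => c22 n2 n17 w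
    have n19 : F.le v3 v46 := Classical.byContradiction fun w => s122 n17 w
    have n20 : F.le v31 v64 := Classical.byContradiction fun w => c108 n10 n17 w
    have n21 : F.le v64 v8 := Classical.byContradiction fun w => c100 n17 n18 w
    have n22 : F.le v47 v10 := Classical.byContradiction fun w => s125 n19 w
    have n23 : F.le v31 v8 := Classical.byContradiction fun w => c34 n20 n21 w
    have n24 : ¬ F.le q v34 := fun w => c28 n22 w n11
    have n25 : F.le q v61 := Classical.byContradiction fun w => c30 a1 n23 w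
    have n26 : ¬ F.le v2 v4 := fun w => c32 w n25 n3
    have n27 : F.le v69 v34 := Classical.byContradiction fun w => c43 n25 n13 w
    have n28 : F.le v4 v2 := Classical.byContradiction fun w => c17 n26 w
    have n29 : ¬ F.le q v69 := fun w => c26 w n27 n24
    c59 n28 n16 n29
  have s148 : F.le v5 v3 → F.le q v30 → False := fun a0 a1 =>
    have n1 : F.le q v45 := Classical.byContradiction fun w => s139 w
    have n2 : ¬ F.le v55 q := fun w => s147 w a1
    have n3 : F.le q v55 := Classical.byContradiction fun w => c25 w n2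
    have n4 : F.le v79 q := Classical.byContradiction fun w => c111 n3 a1 w
    have n5 : ¬ F.le q v71 := fun w => c82 n4 w n2
    have n6 : F.le v4 v2 := Classical.byContradiction fun w => c10 n3 n1 w
    have n7 : F.le q v69 := Classical.byContradiction fun w => c59 n6 a0 w
    c23 a0 n7 n5
  have s149 : F.le v36 v59 → ¬ F.le v8 v41 → ¬ F.le q v36 → ¬ F.le q v40 → False := fun a0 a1 a2 a3 =>
    have n1 : ¬ F.le v8 v37 := fun w => c96 a3 a1 a2 a0 w
    c78 a3 a1 a2 n1
  have s150 : F.le q v30 → False := fun a0 =>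
    have n1 : ¬ F.le v45 q := fun w => s140 w
    have n2 : F.le v59 q := Classical.byContradiction fun w => s119 w
    have n3 : F.le q v63 := Classical.byContradiction fun w => s138 w
    have n4 : ¬ F.le v2 v8 := fun w => c54 w
    have n5 : ¬ F.le v55 q := fun w => s147 w a0
    have n6 : F.le q v55 := Classical.byContradiction fun w => c25 w n5
    have n7 : ¬ F.le v55 v59 := fun w => c15 w n2 n5
    have n8 : F.le q v61 := Classical.byContradiction fun w => c93 n6 n3 w
    have n9 : ¬ F.le v2 v4 := fun w => c104 w n6 n1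
    have n10 : ¬ F.le v61 v59 := fun w => c94 n3 w n7
    have n11 : ¬ F.le v5 v3 := fun w => s148 w a0
    have n12 : ¬ F.le v24 v59 := fun w => c24 w n2 n11
    have n13 : ¬ F.le q v20 := fun w => c5 a0 w n11
    have n14 : F.le v9 v3 := Classical.byContradiction fun w => c53 n4 w n9 n11
    have n15 : ¬ F.le v60 v58 := fun w => c41 n8 w n12
    have n16 : ¬ F.le v63 v20 := fun w => c80 n3 w n13
    have n17 : ¬ F.le q v40 := fun w => c63 w n14 n13
    have n18 : ¬ F.le q v36 := fun w => s129 n14 w n11 n9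
    have n19 : F.le v36 v59 := Classical.byContradiction fun w => c31 w n4 n15 n10
    have n20 : ¬ F.le v8 v41 := fun w => c8 w n14 n16
    s149 n19 n20 n18 n17
  have s151 : ¬ F.le v30 q → False := fun a0 =>
    have n1 : ¬ F.le q v30 := fun w => s150 w
    c86 n1 a0
  have s153 : ¬ F.le v55 q → ¬ F.le q v36 → False := fun a0 a1 =>
    have n1 : ¬ F.le v45 q := fun w => s140 w
    have n2 : ¬ F.le q v30 := fun w => s150 w
    have n3 : F.le q v55 := Classical.byContradiction fun w => c25 w a0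
    have n4 : ¬ F.le v2 v4 := fun w => c104 w n3 n1
    have n5 : F.le v5 v3 := Classical.byContradiction fun w => c110 n4 w a0 n2
    s143 n4 n5 a1
  have s154 : F.le v55 q → ¬ F.le q v40 → F.le v9 v7 → False := fun a0 a1 a2 =>
    have n1 : F.le q v45 := Classical.byContradiction fun w => s139 w
    have n2 : F.le v30 q := Classical.byContradiction fun w => s151 w
    have n3 : ¬ F.le v2 v8 := fun w => c54 w
    have n4 : F.le v24 v77 := Classical.byContradiction fun w => c56 a0 n2 w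
    have n5 : F.le v34 v77 := Classical.byContradiction fun w => c106 n2 n4 w
    have n6 : F.le v34 v66 := Classical.byContradiction fun w => c98 n5 n1 w
    have n7 : ¬ F.le v14 v9 := fun w => c116 n6 w a1
    have n8 : ¬ F.le v9 v3 := fun w => s127 w n7
    have n9 : ¬ F.le q v20 := fun w => c69 a2 w n8
    have n10 : F.le q v34 := Classical.byContradiction fun w => c19 w n9
    have n11 : ¬ F.le v5 v3 := fun w => c102 n2 w n9
    have n12 : F.le v3 v5 := Classical.byContradiction fun w => c114 n10 n2 w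
    have n13 : F.le v2 v4 := Classical.byContradiction fun w => c53 n3 n8 w n11
    have n14 : ¬ F.le v77 q := fun w => c77 n4 w n11
    have n15 : F.le v69 q := Classical.byContradiction fun w => c35 n13 n12 w
    c60 a0 n15 n14
  have s155 : ¬ F.le q v40 → F.le v9 v7 → False := fun a0 a1 =>
    have n1 : F.le v30 q := Classical.byContradiction fun w => s151 w
    have n2 : ¬ F.le q v30 := fun w => s150 w
    have n3 : ¬ F.le v45 q := fun w => s140 w
    have n4 : ¬ F.le v55 q := fun w => s154 w a0 a1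
    have n5 : F.le q v55 := Classical.byContradiction fun w => c25 w n4
    have n6 : F.le q v36 := Classical.byContradiction fun w => s153 n4 w
    have n7 : ¬ F.le v2 v4 := fun w => c104 w n5 n3
    have n8 : ¬ F.le q v20 := fun w => c4 w n6 a0
    have n9 : F.le v5 v3 := Classical.byContradiction fun w => c110 n7 w n4 n2
    c102 n1 n9 n8
  have s156 : F.le v84 v34 → False := fun a0 =>
    have n1 : F.le v30 q := Classical.byContradiction fun w => s151 w
    have n2 : F.le q v63 := Classical.byContradiction fun w => s138 w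
    have n3 : F.le q v45 := Classical.byContradiction fun w => s139 w
    have n4 : ¬ F.le v45 q := fun w => s140 w
    have n5 : ¬ F.le q v30 := fun w => s150 w
    have n6 : ¬ F.le v24 v84 := fun w => c97 w a0 n5
    have n7 : ¬ F.le v24 v77 := fun w => c105 w n2 n6
    have n8 : ¬ F.le v55 q := fun w => c56 w n1 n7
    have n9 : F.le q v55 := Classical.byContradiction fun w => c25 w n8
    have n10 : F.le q v61 := Classical.byContradiction fun w => c93 n9 n2 w
    have n11 : F.le v4 v2 := Classical.byContradiction fun w => c10 n9 n3 w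
    have n12 : ¬ F.le v2 v4 := fun w => c104 w n9 n4
    have n13 : F.le v69 v34 := Classical.byContradiction fun w => c43 n10 a0 w
    have n14 : F.le v5 v3 := Classical.byContradiction fun w => c110 n12 w n8 n5
    have n15 : ¬ F.le q v34 := fun w => c72 n14 w n5
    have n16 : F.le q v69 := Classical.byContradiction fun w => c59 n11 n14 w
    c26 n16 n13 n15
  have s157 : F.le q v40 → False := fun a0 =>
    have n1 : ¬ F.le v84 v34 := fun w => s156 w
    have n2 : F.le q v63 := Classical.byContradiction fun w => s138 w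
    c33 n2 a0 n1
  have s158 : ¬ F.le v9 v7 → False := fun a0 =>
    have n1 : ¬ F.le q v40 := fun w => s157 w
    c115 n1 a0
  have n1 : ¬ F.le q v40 := fun w => s157 w
  have n2 : F.le v9 v7 := Classical.byContradiction fun w => s158 w
  exact s155 n1 n2

end Pool.Agent.Helper89.SR
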