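import Mathlib
import Pool.Agent.Helper89.SR.Pat

/-!
The contradiction for five lines, found by a computer search: the facts `c` are instances of
transitivity, of totality and of the rules, and the facts `s` follow by unit propagation.
-/

set_option autoImplicit false
set_option linter.unusedVariables false

namespace Pool.Agent.Helper89.SR

variable {P : Type*}

theorem core5 {F : Frame P} {t h0 h1 h2 h3 h4 : Equiv.Perm P} (Dt : F.Down t)
    (L0 : F.Line h0) (L1 : F.Line h1) (L2 : F.Line h2) (L3 : F.Line h3) (L4 : F.Line h4)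
    (C0 : F.Col t h4 h0) (C1 : F.Col t h0 h1) (C2 : F.Col t h1 h2) (C3 : F.Col t h2 h3) (C4 : F.Col t h3 h4)
    (q : P) (nt : ¬ F.le (h0 q) (h4 q)) : False := by
  obtain ⟨v1, e1⟩ := Dt.up q
  obtain ⟨v2, e2⟩ : ∃ w, t q = w := ⟨_, rfl⟩
  obtain ⟨v3, v4, e3, e4, e5⟩ := L0.tri q
  obtain ⟨v5, v6, e6, e7, e8⟩ := L1.tri q
  obtain ⟨v7, v8, e9, e10, e11⟩ := L2.tri q
  obtain ⟨v9, v10, e12, e13, e14⟩ := L3.tri q
  obtain ⟨v11, v12, e15, e16, e17⟩ := L4.tri q
  obtain ⟨v13, e18⟩ := Dt.up v1
  obtain ⟨v14, e19⟩ : ∃ w, t v2 = w := ⟨_, rfl⟩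
  obtain ⟨v15, e20⟩ : ∃ w, t v4 = w := ⟨_, rfl⟩
  obtain ⟨v16, e21⟩ := Dt.up v6
  obtain ⟨v17, e22⟩ : ∃ w, t v6 = w := ⟨_, rfl⟩
  obtain ⟨v18, e23⟩ := Dt.up v8
  obtain ⟨v19, e24⟩ : ∃ w, t v8 = w := ⟨_, rfl⟩
  obtain ⟨v20, e25⟩ : ∃ w, t v10 = w := ⟨_, rfl⟩
  obtain ⟨v21, e26⟩ : ∃ w, t v12 = w := ⟨_, rfl⟩
  obtain ⟨v22, v23, e27, e28, e29⟩ := L0.tri v1
  obtain ⟨v24, v25, e30, e31, e32⟩ := L1.tri v1
  obtain ⟨v26, v27, e33, e34, e35⟩ := L2.tri v1
  obtain ⟨v28, v29, e36, e37, e38⟩ := L3.tri v1
  obtain ⟨v30, v31, e39, e40, e41⟩ := L4.tri v1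
  obtain ⟨v32, e42⟩ := Dt.up v3
  obtain ⟨v33, e43⟩ : ∃ w, t v3 = w := ⟨_, rfl⟩
  obtain ⟨v34, e44⟩ := Dt.up v5
  obtain ⟨v35, e45⟩ : ∃ w, t v5 = w := ⟨_, rfl⟩
  obtain ⟨v36, e46⟩ := Dt.up v7
  obtain ⟨v37, e47⟩ : ∃ w, t v7 = w := ⟨_, rfl⟩
  obtain ⟨v38, e48⟩ := Dt.up v9
  obtain ⟨v39, e49⟩ : ∃ w, t v9 = w := ⟨_, rfl⟩
  obtain ⟨v40, e50⟩ := Dt.up v11
  obtain ⟨v41, e51⟩ : ∃ w, t v11 = w := ⟨_, rfl⟩
  obtain ⟨v42, v43, e52, e53, e54⟩ := L0.tri v2
  obtain ⟨v44, v45, e55, e56, e57⟩ := L1.tri v2
  obtain ⟨v46, v47, e58, e59, e60⟩ := L2.tri v2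
  obtain ⟨v48, v49, e61, e62, e63⟩ := L3.tri v2
  obtain ⟨v50, v51, e64, e65, e66⟩ := L4.tri v2
  obtain ⟨v52, v53, e67, e68, e69⟩ := L1.tri v4
  obtain ⟨v54, v55, e70, e71, e72⟩ := L4.tri v4
  obtain ⟨v56, v57, e73, e74, e75⟩ := L2.tri v4
  obtain ⟨v58, v59, e76, e77, e78⟩ := L3.tri v4
  obtain ⟨v60, v61, e79, e80, e81⟩ := L0.tri v6
  obtain ⟨v62, v63, e82, e83, e84⟩ := L2.tri v6
  obtain ⟨v64, v65, e85, e86, e87⟩ := L3.tri v6
  obtain ⟨v66, v67, e88, e89, e90⟩ := L4.tri v6
  obtain ⟨v68, v69, e91, e92, e93⟩ := L1.tri v8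
  obtain ⟨v70, v71, e94, e95, e96⟩ := L3.tri v8
  obtain ⟨v72, v73, e97, e98, e99⟩ := L0.tri v8
  obtain ⟨v74, v75, e100, e101, e102⟩ := L4.tri v8
  obtain ⟨v76, v77, e103, e104, e105⟩ := L2.tri v10
  obtain ⟨v78, v79, e106, e107, e108⟩ := L4.tri v10
  obtain ⟨v80, v81, e109, e110, e111⟩ := L0.tri v10
  obtain ⟨v82, v83, e112, e113, e114⟩ := L1.tri v10
  obtain ⟨v84, v85, e115, e116, e117⟩ := L0.tri v12
  obtain ⟨v86, v87, e118, e119, e120⟩ := L3.tri v12
  obtain ⟨v88, v89, e121, e122, e123⟩ := L1.tri v12
  obtain ⟨v90, v91, e124, e125, e126⟩ := L2.tri v12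
  obtain ⟨v92, v93, e127, e128, e129⟩ := L1.tri v3
  obtain ⟨v94, v95, e130, e131, e132⟩ := L2.tri v3
  obtain ⟨v96, v97, e133, e134, e135⟩ := L3.tri v3
  obtain ⟨v98, v99, e136, e137, e138⟩ := L4.tri v3
  obtain ⟨v100, v101, e139, e140, e141⟩ := L0.tri v5
  obtain ⟨v102, v103, e142, e143, e144⟩ := L2.tri v5
  obtain ⟨v104, v105, e145, e146, e147⟩ := L3.tri v5
  obtain ⟨v106, v107, e148, e149, e150⟩ := L4.tri v5
  obtain ⟨v108, v109, e151, e152, e153⟩ := L0.tri v7
  obtain ⟨v110, v111, e154, e155, e156⟩ := L1.tri v7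
  obtain ⟨v112, v113, e157, e158, e159⟩ := L3.tri v7
  obtain ⟨v114, v115, e160, e161, e162⟩ := L4.tri v7
  obtain ⟨v116, v117, e163, e164, e165⟩ := L0.tri v9
  obtain ⟨v118, v119, e166, e167, e168⟩ := L1.tri v9
  obtain ⟨v120, v121, e169, e170, e171⟩ := L2.tri v9
  obtain ⟨v122, v123, e172, e173, e174⟩ := L4.tri v9
  obtain ⟨v124, v125, e175, e176, e177⟩ := L0.tri v11
  obtain ⟨v126, v127, e178, e179, e180⟩ := L1.tri v11
  obtain ⟨v128, v129, e181, e182, e183⟩ := L2.tri v11
  obtain ⟨v130, v131, e184, e185, e186⟩ := L3.tri v11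
  obtain ⟨v132, e187⟩ : ∃ w, t v46 = w := ⟨_, rfl⟩
  obtain ⟨v133, v134, e188, e189, e190⟩ := L3.tri v14
  obtain ⟨v135, v136, e191, e192, e193⟩ := L0.tri v14
  obtain ⟨v137, v138, e194, e195, e196⟩ := L2.tri v14
  obtain ⟨v139, e197⟩ : ∃ w, t v52 = w := ⟨_, rfl⟩
  obtain ⟨v140, e198⟩ : ∃ w, t v62 = w := ⟨_, rfl⟩
  obtain ⟨v141, e199⟩ : ∃ w, t v70 = w := ⟨_, rfl⟩
  obtain ⟨v142, e200⟩ : ∃ w, t v78 = w := ⟨_, rfl⟩
  obtain ⟨v143, e201⟩ : ∃ w, t v84 = w := ⟨_, rfl⟩
  obtain ⟨v144, e202⟩ : ∃ w, t v92 = w := ⟨_, rfl⟩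
  obtain ⟨v145, e203⟩ : ∃ w, t v94 = w := ⟨_, rfl⟩
  obtain ⟨v146, e204⟩ : ∃ w, t v96 = w := ⟨_, rfl⟩
  obtain ⟨v147, v148, e205, e206, e207⟩ := L0.tri v33
  obtain ⟨v149, v150, e208, e209, e210⟩ := L1.tri v33
  obtain ⟨v151, v152, e211, e212, e213⟩ := L2.tri v33
  obtain ⟨v153, v154, e214, e215, e216⟩ := L3.tri v33
  obtain ⟨v155, v156, e217, e218, e219⟩ := L4.tri v33
  obtain ⟨v157, e220⟩ : ∃ w, t v102 = w := ⟨_, rfl⟩
  obtain ⟨v158, v159, e221, e222, e223⟩ := L4.tri v35
  obtain ⟨v160, v161, e224, e225, e226⟩ := L0.tri v35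
  obtain ⟨v162, v163, e227, e228, e229⟩ := L1.tri v35
  obtain ⟨v164, v165, e230, e231, e232⟩ := L2.tri v35
  obtain ⟨v166, v167, e233, e234, e235⟩ := L3.tri v35
  obtain ⟨v168, e236⟩ : ∃ w, t v108 = w := ⟨_, rfl⟩
  obtain ⟨v169, e237⟩ : ∃ w, t v110 = w := ⟨_, rfl⟩
  obtain ⟨v170, e238⟩ : ∃ w, t v112 = w := ⟨_, rfl⟩
  obtain ⟨v171, e239⟩ : ∃ w, t v114 = w := ⟨_, rfl⟩
  obtain ⟨v172, v173, e240, e241, e242⟩ := L0.tri v37
  obtain ⟨v174, v175, e243, e244, e245⟩ := L1.tri v37
  obtain ⟨v176, v177, e246, e247, e248⟩ := L2.tri v37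
  obtain ⟨v178, v179, e249, e250, e251⟩ := L3.tri v37
  obtain ⟨v180, v181, e252, e253, e254⟩ := L4.tri v37
  obtain ⟨v182, e255⟩ : ∃ w, t v116 = w := ⟨_, rfl⟩
  obtain ⟨v183, e256⟩ : ∃ w, t v118 = w := ⟨_, rfl⟩
  obtain ⟨v184, e257⟩ : ∃ w, t v122 = w := ⟨_, rfl⟩
  obtain ⟨v185, v186, e258, e259, e260⟩ := L0.tri v39
  obtain ⟨v187, v188, e261, e262, e263⟩ := L1.tri v39
  obtain ⟨v189, v190, e264, e265, e266⟩ := L2.tri v39
  obtain ⟨v191, v192, e267, e268, e269⟩ := L3.tri v39
  obtain ⟨v193, v194, e270, e271, e272⟩ := L4.tri v39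
  obtain ⟨v195, e273⟩ : ∃ w, t v124 = w := ⟨_, rfl⟩
  obtain ⟨v196, e274⟩ : ∃ w, t v126 = w := ⟨_, rfl⟩
  obtain ⟨v197, e275⟩ : ∃ w, t v128 = w := ⟨_, rfl⟩
  obtain ⟨v198, v199, e276, e277, e278⟩ := L3.tri v41
  obtain ⟨v200, v201, e279, e280, e281⟩ := L0.tri v41
  obtain ⟨v202, v203, e282, e283, e284⟩ := L1.tri v41
  obtain ⟨v204, v205, e285, e286, e287⟩ := L2.tri v41
  rw [e3, e15] at nt
  have lq : F.lev q = F.lev q + 0 := (add_zero _).symm
  have lv5 : F.lev v5 = F.lev q + 2 := L1.toDown.lv e6 lq (by decide)
  have lv6 : F.lev v6 = F.lev q + 1 := L1.toDown.lv e7 lv5 (by decide)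
  have lv60 : F.lev v60 = F.lev q + 0 := L0.toDown.lv e79 lv6 (by decide)
  have lv7 : F.lev v7 = F.lev q + 2 := L2.toDown.lv e9 lq (by decide)
  have lv108 : F.lev v108 = F.lev q + 1 := L0.toDown.lv e151 lv7 (by decide)
  have lv109 : F.lev v109 = F.lev q + 0 := L0.toDown.lv e152 lv108 (by decide)
  have lv100 : F.lev v100 = F.lev q + 1 := L0.toDown.lv e139 lv5 (by decide)
  have lv101 : F.lev v101 = F.lev q + 0 := L0.toDown.lv e140 lv100 (by decide)
  have lv11 : F.lev v11 = F.lev q + 2 := L4.toDown.lv e15 lq (by decide)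
  have lv12 : F.lev v12 = F.lev q + 1 := L4.toDown.lv e16 lv11 (by decide)
  have lv88 : F.lev v88 = F.lev q + 0 := L1.toDown.lv e121 lv12 (by decide)
  have lv124 : F.lev v124 = F.lev q + 1 := L0.toDown.lv e175 lv11 (by decide)
  have lv125 : F.lev v125 = F.lev q + 0 := L0.toDown.lv e176 lv124 (by decide)
  have lv9 : F.lev v9 = F.lev q + 2 := L3.toDown.lv e12 lq (by decide)
  have lv10 : F.lev v10 = F.lev q + 1 := L3.toDown.lv e13 lv9 (by decide)
  have lv76 : F.lev v76 = F.lev q + 0 := L2.toDown.lv e103 lv10 (by decide)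
  have lv2 : F.lev v2 = F.lev q + 2 := Dt.lv e2 lq (by decide)
  have lv42 : F.lev v42 = F.lev q + 1 := L0.toDown.lv e52 lv2 (by decide)
  have lv43 : F.lev v43 = F.lev q + 0 := L0.toDown.lv e53 lv42 (by decide)
  have lv41 : F.lev v41 = F.lev q + 1 := Dt.lv e51 lv11 (by decide)
  have lv198 : F.lev v198 = F.lev q + 0 := L3.toDown.lv e276 lv41 (by decide)
  have lv35 : F.lev v35 = F.lev q + 1 := Dt.lv e45 lv5 (by decide)
  have lv162 : F.lev v162 = F.lev q + 0 := L1.toDown.lv e227 lv35 (by decide)
  have lv116 : F.lev v116 = F.lev q + 1 := L0.toDown.lv e163 lv9 (by decide)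
  have lv117 : F.lev v117 = F.lev q + 0 := L0.toDown.lv e164 lv116 (by decide)
  have lv110 : F.lev v110 = F.lev q + 1 := L1.toDown.lv e154 lv7 (by decide)
  have lv111 : F.lev v111 = F.lev q + 0 := L1.toDown.lv e155 lv110 (by decide)
  have lv130 : F.lev v130 = F.lev q + 1 := L3.toDown.lv e184 lv11 (by decide)
  have lv131 : F.lev v131 = F.lev q + 0 := L3.toDown.lv e185 lv130 (by decide)
  have lv37 : F.lev v37 = F.lev q + 1 := Dt.lv e47 lv7 (by decide)
  have lv178 : F.lev v178 = F.lev q + 0 := L3.toDown.lv e249 lv37 (by decide)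
  have lv180 : F.lev v180 = F.lev q + 0 := L4.toDown.lv e252 lv37 (by decide)
  have lv1 : F.lev v1 = F.lev q + 1 := Dt.lvUp e1 lq (by decide)
  have lv24 : F.lev v24 = F.lev q + 0 := L1.toDown.lv e30 lv1 (by decide)
  have lv82 : F.lev v82 = F.lev q + 0 := L1.toDown.lv e112 lv10 (by decide)
  have lv84 : F.lev v84 = F.lev q + 0 := L0.toDown.lv e115 lv12 (by decide)
  have lv86 : F.lev v86 = F.lev q + 0 := L3.toDown.lv e118 lv12 (by decide)
  have lv120 : F.lev v120 = F.lev q + 1 := L2.toDown.lv e169 lv9 (by decide)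
  have lv121 : F.lev v121 = F.lev q + 0 := L2.toDown.lv e170 lv120 (by decide)
  have lv8 : F.lev v8 = F.lev q + 1 := L2.toDown.lv e10 lv7 (by decide)
  have lv68 : F.lev v68 = F.lev q + 0 := L1.toDown.lv e91 lv8 (by decide)
  have i1 : F.le v191 v64 ↔ F.le v187 q :=
    Iff.trans ((L3.toDown.link e267 e85).symm) (L1.toDown.link e261 e8)
  have i2 : F.le v68 q ↔ F.le q v62 :=
    Iff.trans ((L1.toDown.link e91 e8).symm) (L2.toDown.link e11 e82)
  have i3 : F.le v68 v82 ↔ F.le v70 q :=
    Iff.trans ((L1.toDown.link e91 e112).symm) (L3.toDown.link e94 e14)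
  have i4 : F.le v20 v15 ↔ F.le v80 q :=
    Iff.trans ((Dt.link e25 e20).symm) (L0.toDown.link e109 e5)
  have i5 : F.le v113 v70 ↔ F.le v7 v71 :=
    (L3.toDown.link e159 e95)
  have i6 : F.le q v103 ↔ F.le v111 q :=
    Iff.trans (L2.toDown.link e9 e144) ((L1.toDown.link e156 e6).symm)
  have i7 : F.le v103 v62 ↔ F.le v5 v63 :=
    (L2.toDown.link e144 e83)
  have i8 : F.le v66 q ↔ F.le q v88 :=
    Iff.trans ((L4.toDown.link e88 e17).symm) (L1.toDown.link e8 e121)
  have i9 : F.le q v30 ↔ F.le v21 q :=
    Iff.trans ((L4.toDown.link e17 e39).symm) (Dt.link e26 e1)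
  have i10 : F.le v66 v30 ↔ F.le v17 q :=
    Iff.trans ((L4.toDown.link e88 e39).symm) (Dt.link e22 e1)
  have i11 : F.le v62 q ↔ F.le q v68 :=
    Iff.trans ((L2.toDown.link e82 e11).symm) (L1.toDown.link e8 e91)
  have i12 : F.le v63 v5 ↔ F.le v6 v102 :=
    (L2.toDown.link e84 e142)
  have i13 : F.le v64 q ↔ F.le q v82 :=
    Iff.trans ((L3.toDown.link e85 e14).symm) (L1.toDown.link e8 e112)
  have i14 : F.le q v153 ↔ F.le v80 v147 :=
    Iff.trans ((L3.toDown.link e14 e214).symm) (L0.toDown.link e109 e205)
  have i15 : F.le v64 v153 ↔ F.le v60 v147 :=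
    Iff.trans ((L3.toDown.link e85 e214).symm) (L0.toDown.link e79 e205)
  have i16 : F.le v52 q ↔ F.le q v60 :=
    Iff.trans ((L1.toDown.link e67 e8).symm) (L0.toDown.link e5 e79)
  have i17 : F.le v52 v88 ↔ F.le q v84 :=
    Iff.trans ((L1.toDown.link e67 e121).symm) (L0.toDown.link e5 e115)
  have i18 : F.le v80 v160 ↔ F.le q v166 :=
    Iff.trans ((L0.toDown.link e109 e224).symm) (L3.toDown.link e14 e233)
  have i19 : F.le v106 v35 ↔ F.le v5 v159 :=
    (L4.toDown.link e148 e223).symm
  have i20 : F.le q v125 ↔ F.le v3 v11 :=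
    (L0.toDown.link e3 e177)
  have i21 : F.le v62 v26 ↔ F.le v17 q :=
    Iff.trans ((L2.toDown.link e82 e33).symm) (Dt.link e22 e1)
  have i22 : F.le v33 v114 ↔ F.le v155 v115 :=
    (L4.toDown.link e217 e161)
  have i23 : F.le q v164 ↔ F.le v72 v160 :=
    Iff.trans ((L2.toDown.link e11 e230).symm) (L0.toDown.link e97 e224)
  have i24 : F.le v24 v111 ↔ F.le q v169 :=
    Iff.trans ((L1.toDown.link e30 e155).symm) (Dt.link e1 e237)
  have i25 : F.le v101 v60 ↔ F.le v5 v61 :=
    (L0.toDown.link e141 e80)
  have i26 : F.le v82 q ↔ F.le q v64 :=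
    Iff.trans ((L1.toDown.link e112 e8).symm) (L3.toDown.link e14 e85)
  have i27 : F.le q v174 ↔ F.le v60 v172 :=
    Iff.trans ((L1.toDown.link e8 e243).symm) (L0.toDown.link e79 e240)
  have i28 : F.le v82 v174 ↔ F.le q v178 :=
    Iff.trans ((L1.toDown.link e112 e243).symm) (L3.toDown.link e14 e249)
  have i29 : F.le v187 v174 ↔ F.le v121 q :=
    Iff.trans ((L1.toDown.link e261 e243).symm) (Iff.trans ((Dt.link e49 e47).symm) ((L2.toDown.link e171 e9).symm))
  have i30 : F.le v78 q ↔ F.le q v86 :=
    Iff.trans ((L4.toDown.link e106 e17).symm) (L3.toDown.link e14 e118)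
  have i31 : F.le v79 v9 ↔ F.le v10 v122 :=
    (L4.toDown.link e108 e172)
  have i32 : F.le v9 v142 ↔ F.le v38 v78 :=
    (Dt.link e48 e200).symm
  have i33 : F.le v171 v168 ↔ F.le v114 v108 :=
    (Dt.link e239 e236).symm
  have i34 : F.le v168 v17 ↔ F.le v109 v60 :=
    Iff.trans ((Dt.link e236 e22).symm) (L0.toDown.link e152 e79)
  have i35 : F.le v171 v17 ↔ F.le v115 v66 :=
    Iff.trans ((Dt.link e239 e22).symm) (L4.toDown.link e161 e88)
  have i36 : F.le v60 v72 ↔ F.le q v68 :=
    Iff.trans ((L0.toDown.link e79 e97).symm) (L1.toDown.link e8 e91)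
  have i37 : F.le v172 v147 ↔ F.le v109 q :=
    Iff.trans ((L0.toDown.link e240 e205).symm) (Iff.trans ((Dt.link e47 e43).symm) ((L0.toDown.link e153 e3).symm))
  have i38 : F.le v109 v43 ↔ F.le v36 q :=
    Iff.trans (L0.toDown.link e153 e54) ((Dt.link e46 e2).symm)
  have i39 : F.le v141 v2 ↔ F.le v70 q :=
    (Dt.link e199 e2).symm
  have i40 : F.le v70 v191 ↔ F.le q v189 :=
    Iff.trans ((L3.toDown.link e94 e267).symm) (L2.toDown.link e11 e264)
  have i41 : F.le v198 v166 ↔ F.le v196 v17 :=
    Iff.trans ((L3.toDown.link e276 e233).symm) (Iff.trans ((Dt.link e51 e45).symm) (Iff.trans (L1.toDown.link e178 e7) (Dt.link e274 e22)))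
  have i42 : F.le v68 v45 ↔ F.le v69 v2 :=
    (L1.toDown.link e92 e57)
  have i43 : F.le q v45 ↔ F.le v34 q :=
    Iff.trans (L1.toDown.link e6 e57) ((Dt.link e44 e2).symm)
  have i44 : F.le v4 v12 ↔ F.le q v84 :=
    (L0.toDown.link e5 e115)
  have i45 : F.le v3 v5 ↔ F.le q v101 :=
    (L0.toDown.link e3 e141).symm
  have i46 : F.le v5 v3 ↔ F.le q v93 :=
    (L1.toDown.link e6 e129).symm
  have i47 : F.le v4 v6 ↔ F.le q v60 :=
    (L0.toDown.link e5 e79)
  have i48 : F.le v66 v78 ↔ F.le q v82 :=
    Iff.trans ((L4.toDown.link e88 e106).symm) (L1.toDown.link e8 e112)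
  have i49 : F.le v144 v145 ↔ F.le v92 v94 :=
    (Dt.link e202 e203).symm
  have i50 : F.le v54 v158 ↔ F.le q v160 :=
    Iff.trans ((L4.toDown.link e70 e221).symm) (L0.toDown.link e5 e224)
  have i51 : F.le v51 v158 ↔ F.le v2 v159 :=
    (L4.toDown.link e66 e222)
  have i52 : F.le v147 v160 ↔ F.le q v101 :=
    Iff.trans ((L0.toDown.link e205 e224).symm) (Iff.trans ((Dt.link e43 e45).symm) ((L0.toDown.link e3 e141).symm))
  have i53 : F.le v164 v26 ↔ F.le v160 v22 :=
    Iff.trans ((L2.toDown.link e230 e33).symm) (L0.toDown.link e224 e27)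
  have i54 : F.le v120 v10 ↔ F.le v9 v77 :=
    (L2.toDown.link e169 e105).symm
  have i55 : F.le v157 q ↔ F.le v103 v26 :=
    Iff.trans ((Dt.link e220 e1).symm) (L2.toDown.link e143 e33)
  have i56 : F.le v22 q ↔ F.le q v15 :=
    Iff.trans ((L0.toDown.link e27 e5).symm) (Dt.link e1 e20)
  have i57 : F.le v62 v103 ↔ F.le v6 v102 :=
    (L2.toDown.link e82 e143).symm
  have i58 : F.le v7 v69 ↔ F.le v111 v68 :=
    (L1.toDown.link e156 e92).symm
  have i59 : F.le v7 v5 ↔ F.le v111 q :=
    (L1.toDown.link e156 e6).symm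
  have i60 : F.le v8 v6 ↔ F.le q v62 :=
    (L2.toDown.link e11 e82)
  have i61 : F.le v6 v37 ↔ F.le v60 v172 :=
    (L0.toDown.link e79 e240)
  have i62 : F.le v76 q ↔ F.le q v70 :=
    Iff.trans ((L2.toDown.link e103 e11).symm) (L3.toDown.link e14 e94)
  have i63 : F.le v76 v26 ↔ F.le v20 q :=
    Iff.trans ((L2.toDown.link e103 e33).symm) (Dt.link e25 e1)
  have i64 : F.le v105 v166 ↔ F.le v104 v35 :=
    (L3.toDown.link e146 e233).symm
  have i65 : F.le v6 v4 ↔ F.le v60 q :=
    (L0.toDown.link e79 e5)
  have i66 : F.le v124 v12 ↔ F.le v125 v84 :=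
    (L0.toDown.link e176 e115)
  have i67 : F.le v125 q ↔ F.le q v99 :=
    Iff.trans (L0.toDown.link e177 e3) ((L4.toDown.link e15 e138).symm)
  have i68 : F.le q v195 ↔ F.le v22 v125 :=
    Iff.trans ((Dt.link e1 e273).symm) (L0.toDown.link e27 e176)
  have i69 : F.le v18 v13 ↔ F.le q v26 :=
    Iff.trans (Dt.link e23 e18) (L2.toDown.link e11 e33)
  have i70 : F.le q v113 ↔ F.le v121 q :=
    Iff.trans (L3.toDown.link e12 e159) ((L2.toDown.link e171 e9).symm)
  have i71 : F.le v72 v185 ↔ F.le q v189 :=
    Iff.trans ((L0.toDown.link e97 e258).symm) (L2.toDown.link e11 e264)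
  have i72 : F.le v185 v80 ↔ F.le v191 q :=
    Iff.trans ((L0.toDown.link e258 e109).symm) (L3.toDown.link e267 e14)
  have i73 : F.le v72 v80 ↔ F.le v70 q :=
    Iff.trans ((L0.toDown.link e97 e109).symm) (L3.toDown.link e94 e14)
  have i74 : F.le v32 v52 ↔ F.le v3 v139 :=
    (Dt.link e42 e197)
  have i75 : F.le q v52 ↔ F.le v60 q :=
    Iff.trans ((L1.toDown.link e8 e67).symm) (L0.toDown.link e79 e5)
  have i76 : F.le v19 q ↔ F.le q v26 :=
    Iff.trans ((Dt.link e24 e1).symm) (L2.toDown.link e11 e33)
  have i77 : F.le v19 v170 ↔ F.le v70 v113 :=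
    Iff.trans ((Dt.link e24 e238).symm) (L3.toDown.link e94 e158)
  have i78 : F.le v185 v172 ↔ F.le v121 q :=
    Iff.trans ((L0.toDown.link e258 e240).symm) (Iff.trans ((Dt.link e49 e47).symm) ((L2.toDown.link e171 e9).symm))
  have i79 : F.le v17 v15 ↔ F.le v60 q :=
    Iff.trans ((Dt.link e22 e20).symm) (L0.toDown.link e79 e5)
  have i80 : F.le v101 q ↔ F.le q v93 :=
    Iff.trans (L0.toDown.link e141 e3) ((L1.toDown.link e6 e129).symm)
  have i81 : F.le q v47 ↔ F.le v36 q :=
    Iff.trans (L2.toDown.link e9 e60) ((Dt.link e46 e2).symm)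
  have i82 : F.le v155 v66 ↔ F.le v149 q :=
    Iff.trans ((L4.toDown.link e217 e88).symm) (L1.toDown.link e208 e8)
  have i83 : F.le v7 v9 ↔ F.le v113 q :=
    (L3.toDown.link e159 e12).symm
  have i84 : F.le v8 v10 ↔ F.le v70 q :=
    (L3.toDown.link e94 e14)
  have i85 : F.le v39 v8 ↔ F.le v189 q :=
    (L2.toDown.link e264 e11)
  have i86 : F.le v20 v21 ↔ F.le q v86 :=
    Iff.trans ((Dt.link e25 e26).symm) (L3.toDown.link e14 e118)
  have i87 : F.le v22 v60 ↔ F.le v24 q :=
    Iff.trans ((L0.toDown.link e27 e79).symm) (L1.toDown.link e30 e8)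
  have i88 : F.le v200 v60 ↔ F.le v202 q :=
    Iff.trans ((L0.toDown.link e279 e79).symm) (L1.toDown.link e282 e8)
  have i89 : F.le v147 v60 ↔ F.le v149 q :=
    Iff.trans ((L0.toDown.link e205 e79).symm) (L1.toDown.link e208 e8)
  have i90 : F.le v74 v193 ↔ F.le q v189 :=
    Iff.trans ((L4.toDown.link e100 e270).symm) (L2.toDown.link e11 e264)
  have i91 : F.le v176 q ↔ F.le v172 v72 :=
    Iff.trans ((L2.toDown.link e246 e11).symm) (L0.toDown.link e240 e97)
  have i92 : F.le v176 v56 ↔ F.le v172 q :=
    Iff.trans ((L2.toDown.link e246 e73).symm) (L0.toDown.link e240 e5)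
  have i93 : F.le v38 v32 ↔ F.le v117 q :=
    Iff.trans (Dt.link e48 e42) ((L0.toDown.link e165 e3).symm)
  have i94 : F.le v86 q ↔ F.le q v78 :=
    Iff.trans ((L3.toDown.link e118 e14).symm) (L4.toDown.link e17 e106)
  have i95 : F.le v86 v131 ↔ F.le v12 v130 :=
    (L3.toDown.link e118 e185).symm
  have i96 : F.le q v105 ↔ F.le v185 v160 :=
    Iff.trans (L3.toDown.link e12 e147) (Iff.trans (Dt.link e49 e45) (L0.toDown.link e258 e224))
  have i97 : F.le v113 v105 ↔ F.le v111 q :=
    Iff.trans (L3.toDown.link e159 e147) ((L1.toDown.link e156 e6).symm)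
  have i98 : F.le v86 v64 ↔ F.le q v66 :=
    Iff.trans ((L3.toDown.link e118 e85).symm) (L4.toDown.link e17 e88)
  have i99 : F.le v19 v157 ↔ F.le v111 q :=
    Iff.trans ((Dt.link e24 e220).symm) (Iff.trans ((L2.toDown.link e10 e142).symm) ((L1.toDown.link e156 e6).symm))
  have i100 : F.le v88 q ↔ F.le q v66 :=
    Iff.trans ((L1.toDown.link e121 e8).symm) (L4.toDown.link e17 e88)
  have i101 : F.le q v97 ↔ F.le v117 q :=
    Iff.trans (L3.toDown.link e12 e135) ((L0.toDown.link e165 e3).symm)
  have i102 : F.le q v95 ↔ F.le v109 q :=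
    Iff.trans (L2.toDown.link e9 e132) ((L0.toDown.link e153 e3).symm)
  have i103 : F.le v145 v19 ↔ F.le q v109 :=
    Iff.trans ((Dt.link e203 e24).symm) (Iff.trans ((L2.toDown.link e130 e10).symm) ((L0.toDown.link e3 e153).symm))
  have i104 : F.le v170 v19 ↔ F.le v7 v71 :=
    Iff.trans ((Dt.link e238 e24).symm) ((L3.toDown.link e157 e96).symm)
  have i105 : F.le v19 v146 ↔ F.le v70 v97 :=
    Iff.trans ((Dt.link e24 e204).symm) (L3.toDown.link e94 e134)
  have i106 : F.le v146 v145 ↔ F.le v96 v94 :=
    (Dt.link e204 e203).symm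
  have i107 : F.le v19 v145 ↔ F.le v109 q :=
    Iff.trans ((Dt.link e24 e203).symm) (Iff.trans ((L2.toDown.link e10 e130).symm) ((L0.toDown.link e153 e3).symm))
  have i108 : F.le v93 q ↔ F.le q v101 :=
    Iff.trans (L1.toDown.link e129 e6) ((L0.toDown.link e3 e141).symm)
  have i109 : F.le v200 v80 ↔ F.le v198 q :=
    Iff.trans ((L0.toDown.link e279 e109).symm) (L3.toDown.link e276 e14)
  have i110 : F.le v22 v84 ↔ F.le q v21 :=
    Iff.trans ((L0.toDown.link e27 e115).symm) (Dt.link e1 e26)
  have i111 : F.le v76 v62 ↔ F.le q v64 :=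
    Iff.trans ((L2.toDown.link e103 e82).symm) (L3.toDown.link e14 e85)
  have i112 : F.le v99 v54 ↔ F.le v98 v4 :=
    (L4.toDown.link e137 e70).symm
  have i113 : F.le v54 q ↔ F.le q v84 :=
    Iff.trans ((L4.toDown.link e70 e17).symm) (L0.toDown.link e5 e115)
  have i114 : F.le v99 q ↔ F.le v3 v11 :=
    (L4.toDown.link e138 e15)
  have i115 : F.le q v121 ↔ F.le v113 q :=
    Iff.trans (L2.toDown.link e9 e171) ((L3.toDown.link e159 e12).symm)
  have i116 : F.le v155 v54 ↔ F.le v147 q :=
    Iff.trans ((L4.toDown.link e217 e70).symm) (L0.toDown.link e205 e5)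
  have i117 : F.le v144 v169 ↔ F.le q v109 :=
    Iff.trans ((Dt.link e202 e237).symm) (Iff.trans ((L1.toDown.link e127 e154).symm) ((L0.toDown.link e3 e153).symm))
  have i118 : F.le v69 v7 ↔ F.le v8 v110 :=
    (L1.toDown.link e93 e154)
  have i119 : F.le q v76 ↔ F.le v70 q :=
    Iff.trans ((L2.toDown.link e11 e103).symm) (L3.toDown.link e94 e14)
  have i120 : F.le v80 v200 ↔ F.le q v198 :=
    Iff.trans ((L0.toDown.link e109 e279).symm) (L3.toDown.link e14 e276)
  have i121 : F.le v202 v127 ↔ F.le v41 v126 :=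
    (L1.toDown.link e282 e179).symm
  have i122 : F.le v147 v84 ↔ F.le v155 q :=
    Iff.trans ((L0.toDown.link e205 e115).symm) (L4.toDown.link e217 e17)
  have i123 : F.le v80 v84 ↔ F.le q v86 :=
    Iff.trans ((L0.toDown.link e109 e115).symm) (L3.toDown.link e14 e118)
  have i124 : F.le v43 q ↔ F.le q v32 :=
    Iff.trans (L0.toDown.link e54 e3) ((Dt.link e2 e42).symm)
  have i125 : F.le v9 v11 ↔ F.le q v131 :=
    (L3.toDown.link e12 e186).symm
  have i126 : F.le v12 v10 ↔ F.le q v78 :=
    (L4.toDown.link e17 e106)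
  have i127 : F.le v10 v12 ↔ F.le q v86 :=
    (L3.toDown.link e14 e118)
  have i128 : F.le v9 v7 ↔ F.le v121 q :=
    (L2.toDown.link e171 e9).symm
  have i129 : F.le v10 v8 ↔ F.le q v70 :=
    (L3.toDown.link e14 e94)
  have i130 : F.le v8 v39 ↔ F.le q v189 :=
    (L2.toDown.link e11 e264)
  have i131 : F.le v47 v129 ↔ F.le q v40 :=
    Iff.trans (L2.toDown.link e60 e183) ((Dt.link e2 e50).symm)
  have i132 : F.le v119 q ↔ F.le v185 v160 :=
    Iff.trans (L1.toDown.link e168 e6) (Iff.trans (Dt.link e49 e45) (L0.toDown.link e258 e224))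
  have i133 : F.le v162 q ↔ F.le v160 v60 :=
    Iff.trans ((L1.toDown.link e227 e8).symm) (L0.toDown.link e224 e79)
  have i134 : F.le v170 q ↔ F.le v113 v28 :=
    Iff.trans ((Dt.link e238 e1).symm) (L3.toDown.link e158 e36)
  have i135 : F.le v60 v22 ↔ F.le v17 q :=
    Iff.trans ((L0.toDown.link e79 e27).symm) (Dt.link e22 e1)
  have i136 : F.le q v28 ↔ F.le v20 q :=
    Iff.trans ((L3.toDown.link e14 e36).symm) (Dt.link e25 e1)
  have i137 : F.le v70 v28 ↔ F.le q v26 :=
    Iff.trans ((L3.toDown.link e94 e36).symm) (L2.toDown.link e11 e33)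
  have i138 : F.le v78 v66 ↔ F.le q v64 :=
    Iff.trans ((L4.toDown.link e106 e88).symm) (L3.toDown.link e14 e85)
  have i139 : F.le v172 v185 ↔ F.le v113 q :=
    Iff.trans ((L0.toDown.link e240 e258).symm) (Iff.trans ((Dt.link e47 e49).symm) ((L3.toDown.link e159 e12).symm))
  have i140 : F.le v185 v72 ↔ F.le v189 q :=
    Iff.trans ((L0.toDown.link e258 e97).symm) (L2.toDown.link e264 e11)
  have i141 : F.le v70 v36 ↔ F.le v141 v7 :=
    (Dt.link e199 e46)
  have i142 : F.le v36 v32 ↔ F.le v109 q :=
    Iff.trans (Dt.link e46 e42) ((L0.toDown.link e153 e3).symm)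
  have i143 : F.le v45 v68 ↔ F.le v2 v69 :=
    (L1.toDown.link e57 e92)
  have i144 : F.le v45 v119 ↔ F.le q v38 :=
    Iff.trans (L1.toDown.link e57 e168) ((Dt.link e2 e48).symm)
  have i145 : F.le v38 v34 ↔ F.le v185 v160 :=
    Iff.trans (Dt.link e48 e44) (Iff.trans (Dt.link e49 e45) (L0.toDown.link e258 e224))
  have i146 : F.le v49 v97 ↔ F.le q v32 :=
    Iff.trans (L3.toDown.link e63 e135) ((Dt.link e2 e42).symm)
  have i147 : F.le v54 v66 ↔ F.le q v60 :=
    Iff.trans ((L4.toDown.link e70 e88).symm) (L0.toDown.link e5 e79)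
  have i148 : F.le v200 v147 ↔ F.le q v99 :=
    Iff.trans ((L0.toDown.link e279 e205).symm) (Iff.trans ((Dt.link e51 e43).symm) ((L4.toDown.link e15 e138).symm))
  have i149 : F.le v117 v160 ↔ F.le v116 v35 :=
    (L0.toDown.link e164 e224).symm
  have i150 : F.le v172 v160 ↔ F.le v111 q :=
    Iff.trans ((L0.toDown.link e240 e224).symm) (Iff.trans ((Dt.link e47 e45).symm) ((L1.toDown.link e156 e6).symm))
  have i151 : F.le v60 v160 ↔ F.le q v162 :=
    Iff.trans ((L0.toDown.link e79 e224).symm) (L1.toDown.link e8 e227)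
  have i152 : F.le v117 v101 ↔ F.le v185 v160 :=
    Iff.trans (L0.toDown.link e165 e141) (Iff.trans (Dt.link e49 e45) (L0.toDown.link e258 e224))
  have i153 : F.le v60 v200 ↔ F.le q v202 :=
    Iff.trans ((L0.toDown.link e79 e279).symm) (L1.toDown.link e8 e282)
  have i154 : F.le v103 q ↔ F.le q v111 :=
    Iff.trans (L2.toDown.link e144 e9) ((L1.toDown.link e6 e156).symm)
  have i155 : F.le v162 v52 ↔ F.le v160 q :=
    Iff.trans ((L1.toDown.link e227 e67).symm) (L0.toDown.link e224 e5)
  have i156 : F.le v153 v113 ↔ F.le v33 v112 :=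
    (L3.toDown.link e214 e158).symm
  have i157 : F.le v153 v28 ↔ F.le v147 v22 :=
    Iff.trans ((L3.toDown.link e214 e36).symm) (L0.toDown.link e205 e27)
  have i158 : F.le v174 q ↔ F.le v172 v60 :=
    Iff.trans ((L1.toDown.link e243 e8).symm) (L0.toDown.link e240 e79)
  have i159 : F.le q v149 ↔ F.le v60 v147 :=
    Iff.trans ((L1.toDown.link e8 e208).symm) (L0.toDown.link e79 e205)
  have i160 : F.le v174 v149 ↔ F.le v109 q :=
    Iff.trans ((L1.toDown.link e243 e208).symm) (Iff.trans ((Dt.link e47 e43).symm) ((L0.toDown.link e153 e3).symm))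
  have i161 : F.le v153 v86 ↔ F.le v155 q :=
    Iff.trans ((L3.toDown.link e214 e118).symm) (L4.toDown.link e217 e17)
  have i162 : F.le v86 v49 ↔ F.le v87 v2 :=
    (L3.toDown.link e119 e63)
  have i163 : F.le v72 v22 ↔ F.le q v26 :=
    Iff.trans ((L0.toDown.link e97 e27).symm) (L2.toDown.link e11 e33)
  have i164 : F.le v64 v28 ↔ F.le v17 q :=
    Iff.trans ((L3.toDown.link e85 e36).symm) (Dt.link e22 e1)
  have i165 : F.le v8 v112 ↔ F.le v70 v113 :=
    (L3.toDown.link e94 e158)
  have i166 : F.le v123 q ↔ F.le q v131 :=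
    Iff.trans (L4.toDown.link e174 e15) ((L3.toDown.link e12 e186).symm)
  have i167 : F.le v123 v99 ↔ F.le v117 q :=
    Iff.trans (L4.toDown.link e174 e138) ((L0.toDown.link e165 e3).symm)
  have i168 : F.le v60 v84 ↔ F.le q v88 :=
    Iff.trans ((L0.toDown.link e79 e115).symm) (L1.toDown.link e8 e121)
  have i169 : F.le v21 v19 ↔ F.le v90 q :=
    Iff.trans ((Dt.link e26 e24).symm) (L2.toDown.link e124 e11)
  have i170 : F.le v15 v20 ↔ F.le q v80 :=
    Iff.trans ((Dt.link e20 e25).symm) (L0.toDown.link e5 e109)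
  have i171 : F.le v16 v7 ↔ F.le v60 v172 :=
    Iff.trans (Dt.link e21 e47) (L0.toDown.link e79 e240)
  have i172 : F.le v77 v7 ↔ F.le q v70 :=
    Iff.trans (L2.toDown.link e105 e10) (L3.toDown.link e14 e94)
  have i173 : F.le v82 v88 ↔ F.le q v86 :=
    Iff.trans ((L1.toDown.link e112 e121).symm) (L3.toDown.link e14 e118)
  have i174 : F.le v51 v99 ↔ F.le q v32 :=
    Iff.trans (L4.toDown.link e66 e138) ((Dt.link e2 e42).symm)
  have i175 : F.le v112 v8 ↔ F.le v7 v71 :=
    (L3.toDown.link e157 e96).symm
  have i176 : F.le v93 v52 ↔ F.le v92 v4 :=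
    (L1.toDown.link e128 e67).symm
  have i177 : F.le v4 v35 ↔ F.le q v160 :=
    (L0.toDown.link e5 e224)
  have i178 : F.le v20 v195 ↔ F.le v80 v125 :=
    Iff.trans ((Dt.link e25 e273).symm) (L0.toDown.link e109 e176)
  have i179 : F.le v13 v5 ↔ F.le v22 v160 :=
    Iff.trans (Dt.link e18 e45) (L0.toDown.link e27 e224)
  have i180 : F.le v69 v5 ↔ F.le q v62 :=
    Iff.trans (L1.toDown.link e93 e7) (L2.toDown.link e11 e82)
  have i181 : F.le q v123 ↔ F.le v131 q :=
    Iff.trans (L4.toDown.link e15 e174) ((L3.toDown.link e186 e12).symm)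
  have i182 : F.le v78 v123 ↔ F.le v10 v122 :=
    (L4.toDown.link e106 e173).symm
  have i183 : F.le v130 v12 ↔ F.le v11 v87 :=
    (L3.toDown.link e184 e120).symm
  have i184 : F.le v71 v7 ↔ F.le v70 v113 :=
    (L3.toDown.link e95 e159).symm
  have i185 : F.le v7 v141 ↔ F.le v36 v70 :=
    (Dt.link e46 e199).symm
  have i186 : F.le v32 q ↔ F.le q v43 :=
    Iff.trans (Dt.link e42 e2) ((L0.toDown.link e3 e54).symm)
  have i187 : F.le v11 v3 ↔ F.le q v99 :=
    (L4.toDown.link e15 e138).symm
  have i188 : F.le v12 v4 ↔ F.le q v54 :=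
    (L4.toDown.link e17 e70)
  have i189 : F.le v33 v12 ↔ F.le v155 q :=
    (L4.toDown.link e217 e17)
  have i190 : F.le v107 q ↔ F.le q v127 :=
    Iff.trans (L4.toDown.link e150 e15) ((L1.toDown.link e6 e180).symm)
  have i191 : F.le v34 v40 ↔ F.le q v127 :=
    Iff.trans (Dt.link e44 e50) ((L1.toDown.link e6 e180).symm)
  have i192 : F.le v142 v9 ↔ F.le v78 v38 :=
    (Dt.link e200 e48).symm
  have i193 : F.le v140 v2 ↔ F.le q v68 :=
    Iff.trans ((Dt.link e198 e2).symm) (Iff.trans ((L2.toDown.link e82 e11).symm) (L1.toDown.link e8 e91))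
  have i194 : F.le v195 v196 ↔ F.le v124 v126 :=
    (Dt.link e273 e274).symm
  have i195 : F.le v195 v17 ↔ F.le v125 v60 :=
    Iff.trans ((Dt.link e273 e22).symm) (L0.toDown.link e176 e79)
  have i196 : F.le v189 v76 ↔ F.le v191 q :=
    Iff.trans ((L2.toDown.link e264 e103).symm) (L3.toDown.link e267 e14)
  have i197 : F.le v97 v113 ↔ F.le q v109 :=
    Iff.trans (L3.toDown.link e135 e159) ((L0.toDown.link e3 e153).symm)
  have i198 : F.le v17 v21 ↔ F.le q v88 :=
    Iff.trans ((Dt.link e22 e26).symm) (L1.toDown.link e8 e121)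
  have i199 : F.le v47 v95 ↔ F.le q v32 :=
    Iff.trans (L2.toDown.link e60 e132) ((Dt.link e2 e42).symm)
  have i200 : F.le v76 v95 ↔ F.le v77 v3 :=
    (L2.toDown.link e104 e132)
  have i201 : F.le v15 v182 ↔ F.le q v117 :=
    Iff.trans ((Dt.link e20 e255).symm) (L0.toDown.link e5 e164)
  have i202 : F.le v182 v183 ↔ F.le v116 v118 :=
    (Dt.link e255 e256).symm
  have i203 : F.le v15 v183 ↔ F.le v52 v119 :=
    Iff.trans ((Dt.link e20 e256).symm) (L1.toDown.link e67 e167)
  have i204 : F.le v68 v111 ↔ F.le v8 v110 :=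
    (L1.toDown.link e91 e155).symm
  have i205 : F.le v19 v184 ↔ F.le v74 v123 :=
    Iff.trans ((Dt.link e24 e257).symm) (L4.toDown.link e100 e173)
  have i206 : F.le v34 v32 ↔ F.le q v93 :=
    Iff.trans (Dt.link e44 e42) ((L1.toDown.link e6 e129).symm)
  have i207 : F.le q v24 ↔ F.le v17 q :=
    Iff.trans ((L1.toDown.link e8 e30).symm) (Dt.link e22 e1)
  have i208 : F.le v115 v51 ↔ F.le v36 q :=
    Iff.trans (L4.toDown.link e162 e66) ((Dt.link e46 e2).symm)
  have i209 : F.le v199 v9 ↔ F.le v198 q :=
    (L3.toDown.link e277 e12).symm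
  have i210 : F.le v9 v18 ↔ F.le v189 q :=
    Iff.trans (Dt.link e49 e23) (L2.toDown.link e264 e11)
  have i211 : F.le v77 v2 ↔ F.le v76 v47 :=
    (L2.toDown.link e104 e60).symm
  have i212 : F.le v32 v36 ↔ F.le q v109 :=
    Iff.trans (Dt.link e42 e46) ((L0.toDown.link e3 e153).symm)
  have i213 : F.le v4 v98 ↔ F.le v54 v99 :=
    (L4.toDown.link e70 e137)
  have i214 : F.le v55 v3 ↔ F.le v54 v99 :=
    (L4.toDown.link e71 e138).symm
  have i215 : F.le v2 v55 ↔ F.le v51 v54 :=
    (L4.toDown.link e66 e71).symm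
  have i216 : F.le v109 v101 ↔ F.le v111 q :=
    Iff.trans (L0.toDown.link e153 e141) ((L1.toDown.link e156 e6).symm)
  have i217 : F.le v172 v135 ↔ F.le v36 q :=
    Iff.trans ((L0.toDown.link e240 e191).symm) (Iff.trans ((Dt.link e47 e19).symm) ((Dt.link e46 e2).symm))
  have i218 : F.le v189 v62 ↔ F.le v187 q :=
    Iff.trans ((L2.toDown.link e264 e82).symm) (L1.toDown.link e261 e8)
  have i219 : F.le v135 v200 ↔ F.le q v40 :=
    Iff.trans ((L0.toDown.link e191 e279).symm) (Iff.trans ((Dt.link e19 e51).symm) ((Dt.link e2 e50).symm))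
  have i220 : F.le v189 v26 ↔ F.le v185 v22 :=
    Iff.trans ((L2.toDown.link e264 e33).symm) (L0.toDown.link e258 e27)
  have i221 : F.le v68 v52 ↔ F.le q v56 :=
    Iff.trans ((L1.toDown.link e91 e67).symm) (L2.toDown.link e11 e73)
  have i222 : F.le v160 v185 ↔ F.le v105 q :=
    Iff.trans ((L0.toDown.link e224 e258).symm) (Iff.trans ((Dt.link e45 e49).symm) ((L3.toDown.link e147 e12).symm))
  have i223 : F.le v60 v101 ↔ F.le v61 v5 :=
    (L0.toDown.link e80 e141)
  have i224 : F.le v24 v82 ↔ F.le q v20 :=
    Iff.trans ((L1.toDown.link e30 e112).symm) (Dt.link e1 e25)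
  have i225 : F.le v113 v97 ↔ F.le v109 q :=
    Iff.trans (L3.toDown.link e159 e135) ((L0.toDown.link e153 e3).symm)
  have i226 : F.le v32 v34 ↔ F.le q v101 :=
    Iff.trans (Dt.link e42 e44) ((L0.toDown.link e3 e141).symm)
  have i227 : F.le v84 v125 ↔ F.le v12 v124 :=
    (L0.toDown.link e115 e176).symm
  have i228 : F.le v41 v10 ↔ F.le v198 q :=
    (L3.toDown.link e276 e14)
  have i229 : F.le v22 v80 ↔ F.le q v20 :=
    Iff.trans ((L0.toDown.link e27 e109).symm) (Dt.link e1 e25)
  have i230 : F.le v3 v16 ↔ F.le v149 q :=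
    Iff.trans (Dt.link e43 e21) (L1.toDown.link e208 e8)
  have i231 : F.le v24 v93 ↔ F.le q v144 :=
    Iff.trans ((L1.toDown.link e30 e128).symm) (Dt.link e1 e202)
  have i232 : F.le v24 v149 ↔ F.le v22 v147 :=
    Iff.trans ((L1.toDown.link e30 e208).symm) (L0.toDown.link e27 e205)
  have i233 : F.le v117 v109 ↔ F.le v121 q :=
    Iff.trans (L0.toDown.link e165 e153) ((L2.toDown.link e171 e9).symm)
  have i234 : F.le v191 v198 ↔ F.le q v131 :=
    Iff.trans ((L3.toDown.link e267 e276).symm) (Iff.trans ((Dt.link e49 e51).symm) ((L3.toDown.link e12 e186).symm))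
  have i235 : F.le v134 v5 ↔ F.le v14 v104 :=
    (L3.toDown.link e190 e145)
  have i236 : F.le v191 v153 ↔ F.le v117 q :=
    Iff.trans ((L3.toDown.link e267 e214).symm) (Iff.trans ((Dt.link e49 e43).symm) ((L0.toDown.link e165 e3).symm))
  have i237 : F.le v185 v200 ↔ F.le q v131 :=
    Iff.trans ((L0.toDown.link e258 e279).symm) (Iff.trans ((Dt.link e49 e51).symm) ((L3.toDown.link e12 e186).symm))
  have i238 : F.le v178 v28 ↔ F.le v172 v22 :=
    Iff.trans ((L3.toDown.link e249 e36).symm) (L0.toDown.link e240 e27)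
  have i239 : F.le v72 v60 ↔ F.le q v62 :=
    Iff.trans ((L0.toDown.link e97 e79).symm) (L2.toDown.link e11 e82)
  have i240 : F.le v11 v9 ↔ F.le v131 q :=
    (L3.toDown.link e186 e12).symm
  have i241 : F.le v10 v41 ↔ F.le q v198 :=
    (L3.toDown.link e14 e276)
  have i242 : F.le v123 v78 ↔ F.le v9 v79 :=
    (L4.toDown.link e174 e107)
  have i243 : F.le v11 v85 ↔ F.le v125 v84 :=
    (L0.toDown.link e177 e116).symm
  have i244 : F.le v143 v11 ↔ F.le v84 v40 :=
    (Dt.link e201 e50).symm
  have i245 : F.le v187 v52 ↔ F.le v185 q :=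
    Iff.trans ((L1.toDown.link e261 e67).symm) (L0.toDown.link e258 e5)
  have i246 : F.le v68 v162 ↔ F.le v72 v160 :=
    Iff.trans ((L1.toDown.link e91 e227).symm) (L0.toDown.link e97 e224)
  have i247 : F.le v90 v189 ↔ F.le q v193 :=
    Iff.trans ((L2.toDown.link e124 e264).symm) (L4.toDown.link e17 e270)
  have i248 : F.le v110 v8 ↔ F.le v111 v68 :=
    (L1.toDown.link e155 e91)
  have i249 : F.le v70 v64 ↔ F.le q v62 :=
    Iff.trans ((L3.toDown.link e94 e85).symm) (L2.toDown.link e11 e82)
  have i250 : F.le v70 v49 ↔ F.le v71 v2 :=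
    (L3.toDown.link e95 e63)
  have i251 : F.le v34 v62 ↔ F.le v5 v140 :=
    (Dt.link e44 e198)
  have i252 : F.le v202 v174 ↔ F.le q v115 :=
    Iff.trans ((L1.toDown.link e282 e243).symm) (Iff.trans ((Dt.link e51 e47).symm) ((L4.toDown.link e15 e162).symm))
  have i253 : F.le v160 v200 ↔ F.le q v127 :=
    Iff.trans ((L0.toDown.link e224 e279).symm) (Iff.trans ((Dt.link e45 e51).symm) ((L1.toDown.link e6 e180).symm))
  have i254 : F.le v160 v80 ↔ F.le v166 q :=
    Iff.trans ((L0.toDown.link e224 e109).symm) (L3.toDown.link e233 e14)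
  have i255 : F.le v2 v61 ↔ F.le v43 v60 :=
    (L0.toDown.link e54 e80).symm
  have i256 : F.le v132 v197 ↔ F.le q v40 :=
    Iff.trans ((Dt.link e187 e275).symm) (Iff.trans ((L2.toDown.link e58 e181).symm) ((Dt.link e2 e50).symm))
  have i257 : F.le v197 v196 ↔ F.le v128 v126 :=
    (Dt.link e275 e274).symm
  have i258 : F.le v132 v196 ↔ F.le v46 v126 :=
    (Dt.link e187 e274).symm
  have i259 : F.le v84 q ↔ F.le q v54 :=
    Iff.trans ((L0.toDown.link e115 e5).symm) (L4.toDown.link e17 e70)
  have i260 : F.le v189 v151 ↔ F.le v117 q :=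
    Iff.trans ((L2.toDown.link e264 e211).symm) (Iff.trans ((Dt.link e49 e43).symm) ((L0.toDown.link e165 e3).symm))
  have i261 : F.le v198 v191 ↔ F.le v131 q :=
    Iff.trans ((L3.toDown.link e276 e267).symm) (Iff.trans ((Dt.link e51 e49).symm) ((L3.toDown.link e186 e12).symm))
  have i262 : F.le v103 v95 ↔ F.le q v93 :=
    Iff.trans (L2.toDown.link e144 e132) ((L1.toDown.link e6 e129).symm)
  have i263 : F.le v137 v103 ↔ F.le v14 v102 :=
    (L2.toDown.link e194 e143).symm
  have i264 : F.le v137 v26 ↔ F.le v2 v13 :=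
    Iff.trans ((L2.toDown.link e194 e33).symm) ((Dt.link e19 e18).symm)
  have i265 : F.le v184 v19 ↔ F.le v123 v74 :=
    Iff.trans ((Dt.link e257 e24).symm) (L4.toDown.link e173 e100)
  have i266 : F.le v76 v189 ↔ F.le q v191 :=
    Iff.trans ((L2.toDown.link e103 e264).symm) (L3.toDown.link e14 e267)
  have i267 : F.le v198 v28 ↔ F.le v200 v22 :=
    Iff.trans ((L3.toDown.link e276 e36).symm) (L0.toDown.link e279 e27)
  have i268 : F.le v204 v76 ↔ F.le v198 q :=
    Iff.trans ((L2.toDown.link e285 e103).symm) (L3.toDown.link e276 e14)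
  have i269 : F.le v204 v47 ↔ F.le v41 v46 :=
    (L2.toDown.link e285 e59).symm
  have i270 : F.le v149 v162 ↔ F.le q v101 :=
    Iff.trans ((L1.toDown.link e208 e227).symm) (Iff.trans ((Dt.link e43 e45).symm) ((L0.toDown.link e3 e141).symm))
  have i271 : F.le v131 v86 ↔ F.le v11 v87 :=
    (L3.toDown.link e186 e119)
  have i272 : F.le v80 v60 ↔ F.le q v64 :=
    Iff.trans ((L0.toDown.link e109 e79).symm) (L3.toDown.link e14 e85)
  have i273 : F.le v134 v199 ↔ F.le q v40 :=
    Iff.trans (L3.toDown.link e190 e278) (Iff.trans ((Dt.link e19 e51).symm) ((Dt.link e2 e50).symm))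
  have i274 : F.le q v22 ↔ F.le v15 q :=
    Iff.trans ((L0.toDown.link e5 e27).symm) (Dt.link e20 e1)
  have i275 : F.le v17 v144 ↔ F.le q v93 :=
    Iff.trans ((Dt.link e22 e202).symm) (L1.toDown.link e8 e128)
  have i276 : F.le v51 q ↔ F.le q v40 :=
    Iff.trans (L4.toDown.link e66 e15) ((Dt.link e2 e50).symm)
  have i277 : F.le v74 v158 ↔ F.le v72 v160 :=
    Iff.trans ((L4.toDown.link e100 e221).symm) (L0.toDown.link e97 e224)
  have i278 : F.le v123 v158 ↔ F.le v122 v35 :=
    (L4.toDown.link e173 e221).symm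
  have i279 : F.le v140 v5 ↔ F.le v62 v34 :=
    (Dt.link e198 e44).symm
  have i280 : F.le v202 v82 ↔ F.le v198 q :=
    Iff.trans ((L1.toDown.link e282 e112).symm) (L3.toDown.link e276 e14)
  have i281 : F.le v102 v6 ↔ F.le v5 v63 :=
    (L2.toDown.link e142 e84).symm
  have i282 : F.le v121 v76 ↔ F.le v9 v77 :=
    (L2.toDown.link e171 e104)
  have i283 : F.le v52 v93 ↔ F.le v4 v92 :=
    (L1.toDown.link e67 e128).symm
  have i284 : F.le v53 v3 ↔ F.le v4 v92 :=
    (L1.toDown.link e69 e127)
  have i285 : F.le v5 v7 ↔ F.le q v111 :=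
    (L1.toDown.link e6 e156).symm
  have i286 : F.le v6 v8 ↔ F.le q v68 :=
    (L1.toDown.link e8 e91)
  have i287 : F.le v37 v6 ↔ F.le v172 v60 :=
    (L0.toDown.link e240 e79)
  have i288 : F.le v35 v4 ↔ F.le v160 q :=
    (L0.toDown.link e224 e5)
  have i289 : F.le q v58 ↔ F.le v80 q :=
    Iff.trans ((L3.toDown.link e14 e76).symm) (L0.toDown.link e109 e5)
  have i290 : F.le v198 v58 ↔ F.le v200 q :=
    Iff.trans ((L3.toDown.link e276 e76).symm) (L0.toDown.link e279 e5)
  have c1 : F.le v191 q → F.le q v64 → ¬ F.le v187 q → False :=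
    fun x y z => z (i1.1 (F.trans x y))
  have c2 : F.le q v62 → F.le q v82 → ¬ F.le v70 q → False :=
    fun x y z => z (i3.1 (F.trans (i2.2 x) y))
  have c3 : F.le v20 v121 → F.le v121 v15 → ¬ F.le v80 q → False :=
    fun x y z => z (i4.1 (F.trans x y))
  have c4 : F.le v125 v127 → F.le v200 v202 → ¬ F.le v127 v200 → False :=
    fun x y z => z (C1.c2 e177 e180 e51 e279 e282 x y)
  have c5 : F.le v113 q → F.le q v70 → ¬ F.le v7 v71 → False :=
    fun x y z => z (i5.1 (F.trans x y))
  have c6 : F.le v21 v131 → F.le v131 q → ¬ F.le v21 q → False :=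
    fun x y z => z (F.trans x y)
  have c7 : F.le v111 q → F.le v5 v63 → ¬ F.le q v62 → False :=
    fun x y z => z (F.trans (i6.2 x) (i7.2 y))
  have c8 : F.le q v88 → F.le v21 q → ¬ F.le v17 q → False :=
    fun x y z => z (i10.1 (F.trans (i8.2 x) (i9.2 y)))
  have c9 : F.le q v68 → F.le v6 v102 → ¬ F.le v5 v140 → False :=
    fun x y z => z (C2.c1' e8 e82 e7 e84 e198 (i11.2 x) (i12.2 y))
  have c10 : F.le q v82 → F.le v80 v147 → ¬ F.le v60 v147 → False :=
    fun x y z => z (i15.1 (F.trans (i13.2 x) (i14.2 y)))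
  have c11 : ¬ F.le q v60 → ¬ F.le v60 q → False :=
    fun x y => (F.tot (lq.trans lv60.symm)).elim (fun h => x h) (fun h => y h)
  have c12 : F.le q v60 → F.le q v88 → ¬ F.le q v84 → False :=
    fun x y z => z (i17.1 (F.trans (i16.2 x) y))
  have c13 : F.le v80 q → F.le q v160 → ¬ F.le q v166 → False :=
    fun x y z => z (i18.1 (F.trans x y))
  have c14 : F.le v172 v178 → F.le v178 v180 → ¬ F.le v172 v180 → False :=
    fun x y z => z (F.trans x y)
  have c15 : F.le v104 v106 → F.le v5 v159 → ¬ F.le v104 v35 → False :=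
    fun x y z => z (F.trans x (i19.2 y))
  have c16 : ¬ F.le v12 v130 → ¬ F.le q v131 → ¬ F.le v12 v124 → ¬ F.le v3 v11 → False :=
    fun x0 x1 x2 x3 => acPMMP Dt L3 L4 L0 C4 C0 e184 e16 e175 e186 e15 e177 (fun h => x0 h) (fun h => x1 h) (fun h => x2 h) (fun h => x3 (i20.1 h))
  have c17 : F.le q v68 → F.le q v26 → ¬ F.le v17 q → False :=
    fun x y z => z (i21.1 (F.trans (i11.2 x) y))
  have c18 : F.le v155 v115 → F.le v114 v112 → ¬ F.le v33 v112 → False :=
    fun x y z => z (F.trans (i22.2 x) y)
  have c19 : ¬ F.le v116 v122 → ¬ F.le v117 v123 → ¬ F.le v116 v118 → ¬ F.le v117 v119 → False :=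
    fun x0 x1 x2 x3 => acPMMP Dt L4 L0 L1 C0 C1 e172 e163 e166 e174 e165 e168 (fun h => x0 h) (fun h => x1 h) (fun h => x2 h) (fun h => x3 h)
  have c20 : F.le v166 q → F.le v72 v160 → ¬ F.le v166 v164 → False :=
    fun x y z => z (F.trans x (i23.2 y))
  have c21 : F.le v12 v130 → F.le q v131 → ¬ F.le v131 v21 → False :=
    fun x y z => z (C4.c1' e184 e16 e186 e15 e26 x y)
  have c22 : F.le q v70 → F.le v70 v32 → ¬ F.le q v32 → False :=
    fun x y z => z (F.trans x y)
  have c23 : F.le v20 v121 → F.le v121 q → ¬ F.le v20 q → False :=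
    fun x y z => z (F.trans x y)
  have c24 : F.le v105 v103 → F.le v166 v164 → ¬ F.le v164 v105 → False :=
    fun x y z => z (C3.c2' e144 e147 e45 e230 e233 x y)
  have c25 : F.le v24 q → F.le q v111 → ¬ F.le q v169 → False :=
    fun x y z => z (i24.1 (F.trans x y))
  have c26 : F.le q v101 → F.le v5 v61 → ¬ F.le q v60 → False :=
    fun x y z => z (F.trans x (i25.2 y))
  have c27 : F.le q v64 → F.le v60 v172 → ¬ F.le q v178 → False :=
    fun x y z => z (i28.1 (F.trans (i26.2 x) (i27.2 y)))
  have c28 : F.le q v99 → F.le v99 v15 → ¬ F.le q v15 → False :=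
    fun x y z => z (F.trans x y)
  have c29 : F.le v187 q → F.le v60 v172 → ¬ F.le v121 q → False :=
    fun x y z => z (i29.1 (F.trans x (i27.2 y)))
  have c30 : F.le q v86 → F.le v10 v122 → ¬ F.le v38 v78 → False :=
    fun x y z => z (i32.1 (C4.c1' e14 e106 e13 e108 e200 (i30.2 x) (i31.2 y)))
  have c31 : F.le v114 v108 → F.le v109 v60 → ¬ F.le v115 v66 → False :=
    fun x y z => z (i35.1 (F.trans (i33.2 x) (i34.2 y)))
  have c32 : F.le v38 q → F.le q v62 → ¬ F.le v38 v62 → False :=
    fun x y z => z (F.trans x y)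
  have c33 : F.le v38 v78 → F.le q v86 → ¬ F.le v38 q → False :=
    fun x y z => z (F.trans x (i30.2 y))
  have c34 : F.le v60 v172 → F.le v172 v72 → ¬ F.le q v68 → False :=
    fun x y z => z (i36.1 (F.trans x y))
  have c35 : F.le q v38 → F.le v38 v78 → ¬ F.le q v78 → False :=
    fun x y z => z (F.trans x y)
  have c36 : F.le v109 q → F.le v147 v178 → ¬ F.le v172 v178 → False :=
    fun x y z => z (F.trans (i37.2 x) y)
  have c37 : F.le v36 q → F.le v43 v60 → ¬ F.le v109 v60 → False :=
    fun x y z => z (F.trans (i38.2 x) y)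
  have c38 : F.le v141 v71 → F.le v71 v2 → ¬ F.le v70 q → False :=
    fun x y z => z (i39.1 (F.trans x y))
  have c39 : F.le q v189 → F.le v191 v97 → ¬ F.le v70 v97 → False :=
    fun x y z => z (F.trans (i40.2 x) y)
  have c40 : F.le v198 q → F.le q v166 → ¬ F.le v196 v17 → False :=
    fun x y z => z (i41.1 (F.trans x y))
  have c41 : ¬ F.le v124 v126 → ¬ F.le v125 v127 → ¬ F.le v128 v126 → ¬ F.le v129 v127 → False :=
    fun x0 x1 x2 x3 => acMPPM Dt L0 L1 L2 C1 C2 e175 e178 e181 e177 e180 e183 (fun h => x0 h) (fun h => x1 h) (fun h => x2 h) (fun h => x3 h)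
  have c42 : F.le q v68 → F.le v69 v2 → ¬ F.le v34 q → False :=
    fun x y z => z (i43.1 (F.trans x (i42.2 y)))
  have c43 : ¬ F.le v3 v11 → ¬ F.le q v84 → F.le q v101 → F.le q v93 → ¬ F.le q v60 → False :=
    fun x0 x1 x2 x3 x4 => acPMOP Dt L4 L0 L1 C0 C1 e15 e3 e6 e17 e5 e8 (fun h => x0 h) (fun h => x1 (i44.1 h)) (i45.2 x2) (i46.2 x3) (fun h => x4 (i47.1 h))
  have c44 : F.le q v189 → F.le v191 v113 → ¬ F.le v70 v113 → False :=
    fun x y z => z (F.trans (i40.2 x) y)
  have c45 : F.le q v88 → F.le q v78 → ¬ F.le q v82 → False :=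
    fun x y z => z (i48.1 (F.trans (i8.2 x) y))
  have c46 : F.le q v32 → F.le v32 v70 → ¬ F.le q v70 → False :=
    fun x y z => z (F.trans x y)
  have c47 : F.le v17 q → F.le q v131 → ¬ F.le v17 v131 → False :=
    fun x y z => z (F.trans x y)
  have c48 : F.le q v144 → F.le v92 v94 → ¬ F.le q v145 → False :=
    fun x y z => z (F.trans x (i49.2 y))
  have c49 : ¬ F.le q v109 → ¬ F.le v109 q → False :=
    fun x y => (F.tot (lq.trans lv109.symm)).elim (fun h => x h) (fun h => y h)
  have c50 : F.le v51 v54 → F.le q v160 → ¬ F.le v2 v159 → False :=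
    fun x y z => z (i51.1 (F.trans x (i50.2 y)))
  have c51 : F.le q v101 → F.le v160 q → ¬ F.le v147 q → False :=
    fun x y z => z (F.trans (i52.2 x) y)
  have c52 : ¬ F.le v104 v102 → ¬ F.le v105 v103 → ¬ F.le v104 v106 → ¬ F.le v105 v107 → False :=
    fun x0 x1 x2 x3 => acPMMP Dt L2 L3 L4 C3 C4 e142 e145 e148 e144 e147 e150 (fun h => x0 h) (fun h => x1 h) (fun h => x2 h) (fun h => x3 h)
  have c53 : F.le v164 v103 → F.le v103 v26 → ¬ F.le v160 v22 → False :=
    fun x y z => z (i53.1 (F.trans x y))
  have c54 : F.le v9 v77 → F.le v121 q → ¬ F.le v20 v121 → False :=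
    fun x y z => z (C3.c1 e169 e13 e171 e12 e25 (i54.2 x) y)
  have c55 : ¬ F.le v3 v11 → ¬ F.le q v84 → ¬ F.le q v101 → ¬ F.le q v60 → False :=
    fun x0 x1 x2 x3 => acPMMP Dt L4 L0 L1 C0 C1 e15 e3 e6 e17 e5 e8 (fun h => x0 h) (fun h => x1 (i44.1 h)) (fun h => x2 (i45.1 h)) (fun h => x3 (i47.1 h))
  have c56 : F.le v6 v102 → F.le v111 q → ¬ F.le v103 v26 → False :=
    fun x y z => z (i55.1 (C2.c1 e7 e142 e6 e144 e220 x (i6.2 y)))
  have c57 : F.le q v15 → F.le q v160 → ¬ F.le v22 v160 → False :=
    fun x y z => z (F.trans (i56.2 x) y)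
  have c58 : F.le q v68 → F.le v111 q → ¬ F.le v6 v102 → False :=
    fun x y z => z (i57.1 (F.trans (i11.2 x) (i6.2 y)))
  have c59 : F.le v160 q → F.le q v193 → ¬ F.le v160 v193 → False :=
    fun x y z => z (F.trans x y)
  have c60 : F.le q v68 → F.le v111 v68 → ¬ F.le v69 v2 → False :=
    fun x y z => z (C2.c1' e91 e11 e93 e10 e2 x (i58.2 y))
  have c61 : F.le v8 v110 → F.le q v111 → ¬ F.le v111 v19 → False :=
    fun x y z => z (C2.c1' e154 e10 e156 e9 e24 x y)
  have c62 : F.le v111 q → F.le q v62 → ¬ F.le v60 v172 → False :=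
    fun x y z => z (i61.1 (C2.c1' e6 e9 e8 e11 e47 (i59.2 x) (i60.2 y)))
  have c63 : F.le q v70 → F.le q v26 → ¬ F.le v20 q → False :=
    fun x y z => z (i63.1 (F.trans (i62.2 x) y))
  have c64 : F.le v104 v35 → F.le v166 q → ¬ F.le v105 q → False :=
    fun x y z => z (F.trans (i64.2 x) y)
  have c65 : ¬ F.le v3 v11 → ¬ F.le q v84 → ¬ F.le q v101 → F.le v60 q → F.le q v60 → False :=
    fun x0 x1 x2 x3 x4 => acPMMO Dt L4 L0 L1 C0 C1 e15 e3 e6 e17 e5 e8 (fun h => x0 h) (fun h => x1 (i44.1 h)) (fun h => x2 (i45.1 h)) (i65.2 x3) (i47.2 x4)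
  have c66 : F.le v125 v84 → F.le q v99 → ¬ F.le v22 v125 → False :=
    fun x y z => z (i68.1 (C0.c1' e16 e175 e15 e177 e273 (i66.2 x) (i67.2 y)))
  have c67 : F.le v115 v113 → F.le v180 v178 → ¬ F.le v178 v115 → False :=
    fun x y z => z (C4.c2' e159 e162 e47 e249 e252 x y)
  have c68 : F.le v134 v18 → F.le q v26 → ¬ F.le v134 v13 → False :=
    fun x y z => z (F.trans x (i69.2 y))
  have c70 : F.le q v70 → F.le v70 v113 → ¬ F.le v121 q → False :=
    fun x y z => z (i70.1 (F.trans x y))
  have c72 : ¬ F.le q v60 → ¬ F.le v5 v61 → ¬ F.le q v62 → ¬ F.le v5 v63 → False :=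
    fun x0 x1 x2 x3 => acPMMP Dt L0 L1 L2 C1 C2 e79 e8 e82 e81 e7 e84 (fun h => x0 h) (fun h => x1 h) (fun h => x2 h) (fun h => x3 h)
  have c73 : F.le q v189 → F.le v191 q → ¬ F.le v70 q → False :=
    fun x y z => z (i73.1 (F.trans (i71.2 x) (i72.2 y)))
  have c74 : F.le q v32 → F.le v3 v139 → ¬ F.le v60 q → False :=
    fun x y z => z (i75.1 (F.trans x (i74.2 y)))
  have c75 : F.le q v26 → F.le q v170 → ¬ F.le v70 v113 → False :=
    fun x y z => z (i77.1 (F.trans (i76.2 x) y))
  have c76 : F.le q v189 → F.le v121 q → ¬ F.le v72 v172 → False :=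
    fun x y z => z (F.trans (i71.2 x) (i78.2 y))
  have c77 : F.le v3 v11 → False :=
    fun x => nt x
  have c78 : F.le v17 v99 → F.le v99 v15 → ¬ F.le v60 q → False :=
    fun x y z => z (i79.1 (F.trans x y))
  have c79 : F.le v70 q → F.le v121 q → ¬ F.le v70 v113 → False :=
    fun x y z => z (F.trans x (i70.2 y))
  have c80 : ¬ F.le q v101 → ¬ F.le q v93 → False :=
    fun x y => (F.tot (lq.trans lv101.symm)).elim (fun h => x h) (fun h => y (i80.1 h))
  have c81 : F.le v36 q → F.le v47 v127 → ¬ F.le q v127 → False :=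
    fun x y z => z (F.trans (i81.2 x) y)
  have c82 : F.le v155 q → F.le q v66 → ¬ F.le v149 q → False :=
    fun x y z => z (i82.1 (F.trans x y))
  have c83 : F.le v113 q → F.le v70 q → ¬ F.le v189 q → False :=
    fun x y z => z (i85.1 (C3.c1 e9 e12 e11 e14 e49 (i83.2 x) (i84.2 y)))
  have c84 : F.le v20 q → F.le q v21 → ¬ F.le q v86 → False :=
    fun x y z => z (i86.1 (F.trans x y))
  have c85 : F.le v109 q → F.le q v115 → ¬ F.le v109 v115 → False :=
    fun x y z => z (F.trans x y)
  have c86 : F.le v200 v22 → F.le v24 q → ¬ F.le v202 q → False :=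
    fun x y z => z (i88.1 (F.trans x (i87.2 y)))
  have c87 : F.le v147 q → F.le q v60 → ¬ F.le v149 q → False :=
    fun x y z => z (i89.1 (F.trans x y))
  have c88 : F.le q v189 → F.le v193 v123 → ¬ F.le v74 v123 → False :=
    fun x y z => z (F.trans (i90.2 x) y)
  have c89 : F.le v172 v72 → F.le q v56 → ¬ F.le v172 q → False :=
    fun x y z => z (i92.1 (F.trans (i91.2 x) y))
  have c90 : F.le v38 q → F.le q v32 → ¬ F.le v117 q → False :=
    fun x y z => z (i93.1 (F.trans x y))
  have c91 : F.le q v78 → F.le q v131 → ¬ F.le v12 v130 → False :=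
    fun x y z => z (i95.1 (F.trans (i94.2 x) y))
  have c92 : F.le v121 q → F.le q v15 → ¬ F.le v121 v15 → False :=
    fun x y z => z (F.trans x y)
  have c93 : F.le v113 q → F.le v185 v160 → ¬ F.le v111 q → False :=
    fun x y z => z (i97.1 (F.trans x (i96.2 y)))
  have c94 : F.le q v78 → F.le q v64 → ¬ F.le q v66 → False :=
    fun x y z => z (i98.1 (F.trans (i94.2 x) y))
  have c95 : F.le q v26 → F.le q v157 → ¬ F.le v111 q → False :=
    fun x y z => z (i99.1 (F.trans (i76.2 x) y))
  have c96 : F.le v180 v109 → F.le v109 v178 → ¬ F.le v180 v178 → False :=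
    fun x y z => z (F.trans x y)
  have c97 : ¬ F.le q v88 → ¬ F.le q v66 → False :=
    fun x y => (F.tot (lq.trans lv88.symm)).elim (fun h => x h) (fun h => y (i100.1 h))
  have c98 : F.le v36 v70 → F.le v70 q → ¬ F.le v36 q → False :=
    fun x y z => z (F.trans x y)
  have c99 : F.le v117 q → F.le v97 v95 → ¬ F.le v109 q → False :=
    fun x y z => z (i102.1 (F.trans (i101.2 x) y))
  have c100 : F.le v170 v145 → F.le q v109 → ¬ F.le v7 v71 → False :=
    fun x y z => z (i104.1 (F.trans x (i103.2 y)))
  have c101 : F.le v70 v97 → F.le v96 v94 → ¬ F.le v109 q → False :=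
    fun x y z => z (i107.1 (F.trans (i105.2 x) (i106.2 y)))
  have c102 : F.le v92 v4 → F.le q v101 → ¬ F.le q v144 → False :=
    fun x y z => z (C1.c1' e4 e127 e3 e129 e202 x (i108.2 y))
  have c103 : F.le v198 q → F.le v80 v125 → ¬ F.le v200 v125 → False :=
    fun x y z => z (F.trans (i109.2 x) y)
  have c104 : F.le v22 v125 → F.le v125 v84 → ¬ F.le q v21 → False :=
    fun x y z => z (i110.1 (F.trans x y))
  have c105 : F.le q v70 → F.le q v62 → ¬ F.le q v64 → False :=
    fun x y z => z (i111.1 (F.trans (i62.2 x) y))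
  have c106 : ¬ F.le v3 v11 → ¬ F.le q v99 → False :=
    fun x y => (F.tot (lq.trans lv125.symm)).elim (fun h => x (i20.1 h)) (fun h => y (i67.1 h))
  have c107 : F.le v200 q → F.le q v202 → ¬ F.le v200 v202 → False :=
    fun x y z => z (F.trans x y)
  have c108 : F.le v98 v4 → F.le q v84 → ¬ F.le v3 v11 → False :=
    fun x y z => z (i114.1 (F.trans (i112.2 x) (i113.2 y)))
  have c109 : F.le q v20 → F.le v20 v121 → ¬ F.le v113 q → False :=
    fun x y z => z (i115.1 (F.trans x y))
  have c110 : F.le v155 q → F.le q v54 → ¬ F.le v147 q → False :=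
    fun x y z => z (i116.1 (F.trans x y))
  have c111 : F.le q v86 → F.le v12 v130 → ¬ F.le q v131 → False :=
    fun x y z => z (F.trans x (i95.2 y))
  have c112 : F.le v144 q → F.le q v169 → ¬ F.le q v109 → False :=
    fun x y z => z (i117.1 (F.trans x y))
  have c113 : F.le q v62 → F.le v8 v110 → ¬ F.le v2 v69 → False :=
    fun x y z => z (C2.c1 e91 e11 e93 e10 e2 (i2.2 x) (i118.2 y))
  have c114 : ¬ F.le v70 q → ¬ F.le q v70 → False :=
    fun x y => (F.tot (lq.trans lv76.symm)).elim (fun h => x (i119.1 h)) (fun h => y (i62.1 h))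
  have c115 : F.le v111 q → F.le q v68 → ¬ F.le v111 v68 → False :=
    fun x y z => z (F.trans x y)
  have c116 : F.le v93 v95 → F.le v149 v151 → ¬ F.le v95 v149 → False :=
    fun x y z => z (C2.c2 e129 e132 e43 e208 e211 x y)
  have c117 : F.le q v198 → F.le v200 q → ¬ F.le v80 q → False :=
    fun x y z => z (F.trans (i120.2 x) y)
  have c118 : F.le q v202 → F.le v41 v126 → ¬ F.le q v127 → False :=
    fun x y z => z (F.trans x (i121.2 y))
  have c119 : F.le q v78 → F.le v78 v62 → ¬ F.le q v62 → False :=
    fun x y z => z (F.trans x y)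
  have c121 : F.le v80 v147 → F.le v155 q → ¬ F.le q v86 → False :=
    fun x y z => z (i123.1 (F.trans x (i122.2 y)))
  have c122 : ¬ F.le q v43 → ¬ F.le q v32 → False :=
    fun x y => (F.tot (lq.trans lv43.symm)).elim (fun h => x h) (fun h => y (i124.1 h))
  have c123 : ¬ F.le q v131 → F.le q v78 → F.le q v86 → ¬ F.le v3 v11 → ¬ F.le q v84 → False :=
    fun x0 x1 x2 x3 x4 => acMOPM Dt L3 L4 L0 C4 C0 e12 e15 e3 e14 e17 e5 (fun h => x0 (i125.1 h)) (i126.2 x1) (i127.2 x2) (fun h => x3 h) (fun h => x4 (i44.1 h))
  have c124 : F.le v121 q → F.le q v70 → ¬ F.le q v189 → False :=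
    fun x y z => z (i130.1 (C3.c1' e9 e12 e11 e14 e49 (i128.2 x) (i129.2 y)))
  have c125 : F.le q v40 → F.le v129 v127 → ¬ F.le v47 v127 → False :=
    fun x y z => z (F.trans (i131.2 x) y)
  have c126 : F.le q v115 → F.le v115 v109 → ¬ F.le q v109 → False :=
    fun x y z => z (F.trans x y)
  have c127 : F.le v36 q → F.le v43 v178 → ¬ F.le v109 v178 → False :=
    fun x y z => z (F.trans (i38.2 x) y)
  have c128 : F.le v164 v105 → F.le v105 v103 → ¬ F.le v164 v103 → False :=
    fun x y z => z (F.trans x y)
  have c129 : F.le v117 v119 → F.le v185 v160 → ¬ F.le v117 q → False :=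
    fun x y z => z (F.trans x (i132.2 y))
  have c130 : ¬ F.le q v198 → ¬ F.le v198 q → False :=
    fun x y => (F.tot (lq.trans lv198.symm)).elim (fun h => x h) (fun h => y h)
  have c131 : ¬ F.le q v162 → ¬ F.le v160 v60 → False :=
    fun x y => (F.tot (lq.trans lv162.symm)).elim (fun h => x h) (fun h => y (i133.1 h))
  have c132 : F.le v24 q → F.le q v115 → ¬ F.le v24 v115 → False :=
    fun x y z => z (F.trans x y)
  have c133 : F.le v141 v7 → F.le v7 v71 → ¬ F.le v141 v71 → False :=
    fun x y z => z (F.trans x y)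
  have c134 : F.le v113 v28 → F.le q v145 → ¬ F.le v170 v145 → False :=
    fun x y z => z (F.trans (i134.2 x) y)
  have c135 : F.le v60 v147 → F.le v147 v22 → ¬ F.le v17 q → False :=
    fun x y z => z (i135.1 (F.trans x y))
  have c136 : F.le v70 q → F.le v20 q → ¬ F.le q v26 → False :=
    fun x y z => z (i137.1 (F.trans x (i136.2 y)))
  have c137 : F.le q v86 → F.le q v66 → ¬ F.le q v64 → False :=
    fun x y z => z (i138.1 (F.trans (i30.2 x) y))
  have c138 : F.le v113 q → F.le v189 q → ¬ F.le v172 v72 → False :=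
    fun x y z => z (F.trans (i139.2 x) (i140.2 y))
  have c139 : F.le v141 v7 → F.le v109 q → ¬ F.le v70 v32 → False :=
    fun x y z => z (F.trans (i141.2 x) (i142.2 y))
  have c140 : F.le v14 v104 → F.le v104 v102 → ¬ F.le v14 v102 → False :=
    fun x y z => z (F.trans x y)
  have c141 : F.le v2 v69 → F.le v68 v119 → ¬ F.le q v38 → False :=
    fun x y z => z (i144.1 (F.trans (i143.2 x) y))
  have c142 : F.le v38 v62 → F.le v62 v34 → ¬ F.le v185 v160 → False :=
    fun x y z => z (i145.1 (F.trans x y))
  have c143 : F.le v191 v49 → F.le q v32 → ¬ F.le v191 v97 → False :=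
    fun x y z => z (F.trans x (i146.2 y))
  have c144 : F.le q v84 → F.le q v66 → ¬ F.le q v60 → False :=
    fun x y z => z (i147.1 (F.trans (i113.2 x) y))
  have c145 : F.le q v99 → F.le v147 q → ¬ F.le v200 q → False :=
    fun x y z => z (F.trans (i148.2 x) y)
  have c146 : F.le v116 v35 → F.le v160 q → ¬ F.le v117 q → False :=
    fun x y z => z (F.trans (i149.2 x) y)
  have c147 : ¬ F.le q v117 → ¬ F.le v117 q → False :=
    fun x y => (F.tot (lq.trans lv117.symm)).elim (fun h => x h) (fun h => y h)
  have c148 : F.le v60 v172 → F.le v111 q → ¬ F.le q v162 → False :=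
    fun x y z => z (i151.1 (F.trans x (i150.2 y)))
  have c149 : F.le v117 q → F.le q v101 → ¬ F.le v185 v160 → False :=
    fun x y z => z (i152.1 (F.trans x y))
  have c150 : ¬ F.le q v111 → ¬ F.le v111 q → False :=
    fun x y => (F.tot (lq.trans lv111.symm)).elim (fun h => x h) (fun h => y h)
  have c151 : F.le q v32 → F.le q v178 → ¬ F.le v43 v178 → False :=
    fun x y z => z (F.trans (i124.2 x) y)
  have c152 : F.le v41 v46 → F.le v46 v126 → ¬ F.le v41 v126 → False :=
    fun x y z => z (F.trans x y)
  have c153 : F.le v22 v147 → F.le v155 q → ¬ F.le q v21 → False :=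
    fun x y z => z (i110.1 (F.trans x (i122.2 y)))
  have c154 : F.le v109 v115 → F.le v172 v180 → ¬ F.le v180 v109 → False :=
    fun x y z => z (C0.c2' e162 e153 e47 e252 e240 x y)
  have c155 : F.le q v202 → F.le v200 v125 → ¬ F.le v60 v125 → False :=
    fun x y z => z (F.trans (i153.2 x) y)
  have c156 : F.le q v111 → F.le q v62 → ¬ F.le v5 v63 → False :=
    fun x y z => z (i7.1 (F.trans (i154.2 x) y))
  have c157 : F.le v160 q → F.le v52 v119 → ¬ F.le v162 v119 → False :=
    fun x y z => z (F.trans (i155.2 x) y)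
  have c158 : F.le v33 v112 → F.le v113 v28 → ¬ F.le v147 v22 → False :=
    fun x y z => z (i157.1 (F.trans (i156.2 x) y))
  have c159 : F.le v116 v122 → F.le v122 v35 → ¬ F.le v116 v35 → False :=
    fun x y z => z (F.trans x y)
  have c160 : F.le v80 q → F.le q v84 → ¬ F.le q v86 → False :=
    fun x y z => z (i123.1 (F.trans x y))
  have c161 : F.le v172 v60 → F.le v60 v147 → ¬ F.le v109 q → False :=
    fun x y z => z (i160.1 (F.trans (i158.2 x) (i159.2 y)))
  have c162 : F.le v155 q → F.le v87 v2 → ¬ F.le v153 v49 → False :=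
    fun x y z => z (F.trans (i161.2 x) (i162.2 y))
  have c163 : F.le q v26 → F.le v22 v160 → ¬ F.le v72 v160 → False :=
    fun x y z => z (F.trans (i163.2 x) y)
  have c164 : F.le v64 v113 → F.le v113 v28 → ¬ F.le v17 q → False :=
    fun x y z => z (i164.1 (F.trans x y))
  have c165 : F.le v70 v113 → F.le v121 q → ¬ F.le v113 v28 → False :=
    fun x y z => z (i134.1 (C3.c1 e10 e157 e9 e159 e238 (i165.2 x) (i70.2 y)))
  have c166 : F.le q v131 → F.le q v99 → ¬ F.le v117 q → False :=
    fun x y z => z (i167.1 (F.trans (i166.2 x) y))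
  have c167 : F.le v155 v115 → F.le v115 v66 → ¬ F.le v149 q → False :=
    fun x y z => z (i82.1 (F.trans x y))
  have c169 : F.le v60 q → F.le q v84 → ¬ F.le q v88 → False :=
    fun x y z => z (i168.1 (F.trans x y))
  have c170 : F.le v21 v111 → F.le v111 v19 → ¬ F.le v90 q → False :=
    fun x y z => z (i169.1 (F.trans x y))
  have c171 : F.le q v21 → F.le v21 v131 → ¬ F.le q v131 → False :=
    fun x y z => z (F.trans x y)
  have c172 : F.le q v70 → F.le v7 v71 → ¬ F.le v141 v7 → False :=
    fun x y z => z (C3.c1 e11 e94 e10 e96 e199 x y)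
  have c173 : ¬ F.le v92 v94 → ¬ F.le v93 v95 → ¬ F.le v96 v94 → ¬ F.le v97 v95 → False :=
    fun x0 x1 x2 x3 => acMPPM Dt L1 L2 L3 C2 C3 e127 e130 e133 e129 e132 e135 (fun h => x0 h) (fun h => x1 h) (fun h => x2 h) (fun h => x3 h)
  have c174 : F.le q v80 → F.le v20 v121 → ¬ F.le v15 v121 → False :=
    fun x y z => z (F.trans (i170.2 x) y)
  have c175 : F.le v77 v16 → F.le v60 v172 → ¬ F.le q v70 → False :=
    fun x y z => z (i172.1 (F.trans x (i171.2 y)))
  have c176 : F.le q v64 → F.le q v88 → ¬ F.le q v86 → False :=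
    fun x y z => z (i173.1 (F.trans (i26.2 x) y))
  have c177 : F.le v51 v54 → F.le v54 v99 → ¬ F.le q v32 → False :=
    fun x y z => z (i174.1 (F.trans x y))
  have c178 : F.le v7 v71 → F.le v113 q → ¬ F.le q v170 → False :=
    fun x y z => z (C3.c1' e10 e157 e9 e159 e238 (i175.2 x) y)
  have c179 : F.le q v101 → F.le v60 q → ¬ F.le v92 v4 → False :=
    fun x y z => z (i176.1 (F.trans (i108.2 x) (i75.2 y)))
  have c180 : F.le q v93 → F.le v60 q → ¬ F.le q v160 → False :=
    fun x y z => z (i177.1 (C1.c1' e3 e6 e5 e8 e45 (i46.2 x) (i65.2 y)))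
  have c181 : F.le v20 q → F.le v22 v125 → ¬ F.le v80 v125 → False :=
    fun x y z => z (i178.1 (F.trans x (i68.2 y)))
  have c182 : F.le q v189 → F.le v185 v160 → ¬ F.le v72 v160 → False :=
    fun x y z => z (F.trans (i71.2 x) y)
  have c183 : F.le v69 v13 → F.le v22 v160 → ¬ F.le q v62 → False :=
    fun x y z => z (i180.1 (F.trans x (i179.2 y)))
  have c184 : F.le q v86 → F.le v131 q → ¬ F.le v10 v122 → False :=
    fun x y z => z (i182.1 (F.trans (i30.2 x) (i181.2 y)))
  have c185 : F.le v11 v87 → F.le v131 q → ¬ F.le v21 v131 → False :=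
    fun x y z => z (C4.c1 e184 e16 e186 e15 e26 (i183.2 x) y)
  have c186 : ¬ F.le v98 v4 → ¬ F.le v3 v11 → ¬ F.le v92 v4 → ¬ F.le q v101 → False :=
    fun x0 x1 x2 x3 => acMPPM Dt L4 L0 L1 C0 C1 e136 e4 e127 e138 e3 e129 (fun h => x0 h) (fun h => x1 (i114.1 h)) (fun h => x2 h) (fun h => x3 (i108.1 h))
  have c187 : F.le v70 q → F.le v70 v113 → ¬ F.le v36 v70 → False :=
    fun x y z => z (i185.1 (C3.c1' e11 e94 e10 e96 e199 x (i184.2 y)))
  have c188 : F.le q v43 → F.le q v62 → ¬ F.le v32 v62 → False :=
    fun x y z => z (F.trans (i186.2 x) y)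
  have c189 : F.le q v99 → F.le q v54 → ¬ F.le v155 q → False :=
    fun x y z => z (i189.1 (C0.c1 e15 e3 e17 e5 e43 (i187.2 x) (i188.2 y)))
  have c190 : F.le v105 v107 → F.le q v127 → ¬ F.le v105 q → False :=
    fun x y z => z (F.trans x (i190.2 y))
  have c191 : F.le v34 q → F.le q v40 → ¬ F.le q v127 → False :=
    fun x y z => z (i191.1 (F.trans x y))
  have c192 : ¬ F.le q v131 → ¬ F.le v131 q → False :=
    fun x y => (F.tot (lq.trans lv131.symm)).elim (fun h => x h) (fun h => y h)
  have c193 : F.le q v78 → F.le v9 v79 → ¬ F.le v78 v38 → False :=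
    fun x y z => z (i192.1 (C4.c1 e14 e106 e13 e108 e200 x y))
  have c194 : F.le v172 q → F.le q v160 → ¬ F.le v111 q → False :=
    fun x y z => z (i150.1 (F.trans x y))
  have c195 : F.le v111 q → F.le v103 v26 → ¬ F.le q v26 → False :=
    fun x y z => z (F.trans (i6.2 x) y)
  have c196 : F.le q v68 → F.le v2 v159 → ¬ F.le v140 v159 → False :=
    fun x y z => z (F.trans (i193.2 x) y)
  have c197 : F.le v111 v184 → F.le v184 q → ¬ F.le v111 q → False :=
    fun x y z => z (F.trans x y)
  have c198 : F.le v111 q → F.le v160 v60 → ¬ F.le v172 v60 → False :=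
    fun x y z => z (F.trans (i150.2 x) y)
  have c199 : F.le v124 v126 → F.le v196 v17 → ¬ F.le v125 v60 → False :=
    fun x y z => z (i195.1 (F.trans (i194.2 x) y))
  have c200 : F.le v92 v4 → F.le q v60 → ¬ F.le q v101 → False :=
    fun x y z => z (i108.1 (F.trans (i176.2 x) (i16.2 y)))
  have c201 : F.le v189 q → F.le v70 q → ¬ F.le v191 q → False :=
    fun x y z => z (i196.1 (F.trans x (i119.2 y)))
  have c202 : F.le v191 v97 → F.le q v109 → ¬ F.le v191 v113 → False :=
    fun x y z => z (F.trans x (i197.2 y))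
  have c203 : F.le v17 v131 → F.le v131 v21 → ¬ F.le q v88 → False :=
    fun x y z => z (i198.1 (F.trans x y))
  have c204 : F.le v76 v47 → F.le q v32 → ¬ F.le v77 v3 → False :=
    fun x y z => z (i200.1 (F.trans x (i199.2 y)))
  have c205 : F.le q v117 → F.le v116 v118 → ¬ F.le v52 v119 → False :=
    fun x y z => z (i203.1 (F.trans (i201.2 x) (i202.2 y)))
  have c206 : F.le q v62 → F.le q v111 → ¬ F.le v8 v110 → False :=
    fun x y z => z (i204.1 (F.trans (i2.2 x) y))
  have c207 : F.le v111 v19 → F.le v74 v123 → ¬ F.le v111 v184 → False :=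
    fun x y z => z (F.trans x (i205.2 y))
  have c208 : F.le v34 q → F.le q v32 → ¬ F.le q v93 → False :=
    fun x y z => z (i206.1 (F.trans x y))
  have c209 : F.le q v162 → F.le v160 q → ¬ F.le v60 q → False :=
    fun x y z => z (F.trans (i151.2 x) y)
  have c210 : ¬ F.le v178 v180 → ¬ F.le v180 v178 → False :=
    fun x y => (F.tot (lv178.trans lv180.symm)).elim (fun h => x h) (fun h => y h)
  have c211 : ¬ F.le v17 q → ¬ F.le v24 q → False :=
    fun x y => (F.tot (lq.trans lv24.symm)).elim (fun h => x (i207.1 h)) (fun h => y h)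
  have c212 : F.le v36 q → F.le v51 v202 → ¬ F.le v115 v202 → False :=
    fun x y z => z (F.trans (i208.2 x) y)
  have c213 : ¬ F.le q v82 → ¬ F.le q v64 → False :=
    fun x y => (F.tot (lq.trans lv82.symm)).elim (fun h => x h) (fun h => y (i26.1 h))
  have c214 : F.le v198 q → F.le v189 q → ¬ F.le v199 v18 → False :=
    fun x y z => z (F.trans (i209.2 x) (i210.2 y))
  have c215 : F.le v149 q → F.le q v189 → ¬ F.le v149 v189 → False :=
    fun x y z => z (F.trans x y)
  have c216 : F.le v70 q → F.le v9 v77 → ¬ F.le v76 v47 → False :=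
    fun x y z => z (i211.1 (C3.c1' e103 e14 e105 e13 e2 (i119.2 x) y))
  have c217 : F.le q v109 → F.le v36 v70 → ¬ F.le v32 v70 → False :=
    fun x y z => z (F.trans (i212.2 x) y)
  have c218 : F.le v54 v99 → F.le q v99 → ¬ F.le v99 v15 → False :=
    fun x y z => z (C0.c1' e136 e4 e138 e3 e20 (i213.2 x) y)
  have c219 : F.le q v84 → F.le v54 v99 → ¬ F.le v51 v54 → False :=
    fun x y z => z (i215.1 (C0.c1 e70 e5 e72 e4 e2 (i113.2 x) (i214.2 y)))
  have c220 : F.le v109 q → F.le q v101 → ¬ F.le v111 q → False :=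
    fun x y z => z (i216.1 (F.trans x y))
  have c221 : F.le q v99 → F.le q v84 → ¬ F.le v125 v84 → False :=
    fun x y z => z (F.trans (i67.2 x) y)
  have c222 : F.le v60 v172 → F.le v36 q → ¬ F.le v60 v135 → False :=
    fun x y z => z (F.trans x (i217.2 y))
  have c223 : F.le v189 q → F.le q v62 → ¬ F.le v187 q → False :=
    fun x y z => z (i218.1 (F.trans x y))
  have c224 : F.le v155 q → F.le q v115 → ¬ F.le v155 v115 → False :=
    fun x y z => z (F.trans x y)
  have c225 : F.le q v82 → F.le v121 q → ¬ F.le v64 v113 → False :=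
    fun x y z => z (F.trans (i13.2 x) (i70.2 y))
  have c226 : F.le v60 v135 → F.le q v40 → ¬ F.le q v202 → False :=
    fun x y z => z (i153.1 (F.trans x (i219.2 y)))
  have c227 : F.le v117 v123 → F.le v185 v193 → ¬ F.le v193 v117 → False :=
    fun x y z => z (C0.c2' e174 e165 e49 e270 e258 x y)
  have c228 : F.le v189 q → F.le q v26 → ¬ F.le v185 v22 → False :=
    fun x y z => z (i220.1 (F.trans x y))
  have c229 : F.le q v198 → F.le q v99 → ¬ F.le v80 v147 → False :=
    fun x y z => z (F.trans (i120.2 x) (i148.2 y))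
  have c230 : F.le q v62 → F.le v60 q → ¬ F.le q v56 → False :=
    fun x y z => z (i221.1 (F.trans (i2.2 x) (i75.2 y)))
  have c231 : F.le v78 v38 → F.le v185 v160 → ¬ F.le v78 v34 → False :=
    fun x y z => z (F.trans x (i145.2 y))
  have c232 : F.le q v60 → F.le v60 v125 → ¬ F.le v3 v11 → False :=
    fun x y z => z (i20.1 (F.trans x y))
  have c233 : ¬ F.le v121 q → ¬ F.le v70 q → ¬ F.le q v131 → ¬ F.le q v78 → False :=
    fun x0 x1 x2 x3 => acPPMM Dt L2 L3 L4 C3 C4 e9 e12 e15 e11 e14 e17 (fun h => x0 (i128.1 h)) (fun h => x1 (i84.1 h)) (fun h => x2 (i125.1 h)) (fun h => x3 (i126.1 h))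
  have c234 : F.le v111 v68 → F.le q v62 → ¬ F.le v111 q → False :=
    fun x y z => z (F.trans x (i2.2 y))
  have c235 : F.le v60 v172 → F.le v172 v22 → ¬ F.le v17 q → False :=
    fun x y z => z (i135.1 (F.trans x y))
  have c236 : F.le v105 q → F.le v185 v22 → ¬ F.le v160 v22 → False :=
    fun x y z => z (F.trans (i222.2 x) y)
  have c237 : F.le v60 q → F.le q v101 → ¬ F.le v61 v5 → False :=
    fun x y z => z (i223.1 (F.trans x y))
  have c238 : F.le v24 v115 → F.le v115 v82 → ¬ F.le q v20 → False :=
    fun x y z => z (i224.1 (F.trans x y))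
  have c239 : F.le v113 q → F.le v117 q → ¬ F.le v109 q → False :=
    fun x y z => z (i225.1 (F.trans x (i101.2 y)))
  have c240 : F.le v32 v62 → F.le v62 v34 → ¬ F.le q v101 → False :=
    fun x y z => z (i226.1 (F.trans x y))
  have c241 : F.le q v84 → F.le v12 v124 → ¬ F.le v3 v11 → False :=
    fun x y z => z (i20.1 (F.trans x (i227.2 y)))
  have c242 : F.le v93 v95 → F.le v95 v149 → ¬ F.le v93 v149 → False :=
    fun x y z => z (F.trans x y)
  have c243 : F.le v193 v117 → F.le v117 v123 → ¬ F.le v193 v123 → False :=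
    fun x y z => z (F.trans x y)
  have c244 : F.le q v131 → F.le q v86 → ¬ F.le v198 q → False :=
    fun x y z => z (i228.1 (C4.c1 e12 e15 e14 e17 e51 (i125.2 x) (i127.2 y)))
  have c245 : F.le v22 v125 → F.le v125 v80 → ¬ F.le q v20 → False :=
    fun x y z => z (i229.1 (F.trans x y))
  have c246 : F.le v77 v3 → F.le v149 q → ¬ F.le v77 v16 → False :=
    fun x y z => z (F.trans x (i230.2 y))
  have c247 : F.le q v144 → F.le v93 v149 → ¬ F.le v22 v147 → False :=
    fun x y z => z (i232.1 (F.trans (i231.2 x) y))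
  have c248 : F.le v22 v125 → F.le v125 v60 → ¬ F.le v24 q → False :=
    fun x y z => z (i87.1 (F.trans x y))
  have c249 : F.le v117 q → F.le q v109 → ¬ F.le v121 q → False :=
    fun x y z => z (i233.1 (F.trans x y))
  have c250 : F.le v191 q → F.le q v198 → ¬ F.le q v131 → False :=
    fun x y z => z (i234.1 (F.trans x y))
  have c251 : F.le v99 v15 → F.le v15 q → ¬ F.le v3 v11 → False :=
    fun x y z => z (i114.1 (F.trans x y))
  have c252 : F.le v134 v13 → F.le v22 v160 → ¬ F.le v14 v104 → False :=
    fun x y z => z (i235.1 (F.trans x (i179.2 y)))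
  have c253 : F.le v10 v122 → F.le v131 q → ¬ F.le v184 q → False :=
    fun x y z => z (C4.c1 e13 e172 e12 e174 e257 x (i181.2 y))
  have c254 : F.le v117 q → F.le v153 v49 → ¬ F.le v191 v49 → False :=
    fun x y z => z (F.trans (i236.2 x) y)
  have c255 : F.le q v84 → F.le v84 v40 → ¬ F.le q v40 → False :=
    fun x y z => z (F.trans x y)
  have c256 : F.le v60 v147 → F.le v155 q → ¬ F.le q v88 → False :=
    fun x y z => z (i168.1 (F.trans x (i122.2 y)))
  have c257 : F.le v185 v22 → F.le v22 v160 → ¬ F.le v185 v160 → False :=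
    fun x y z => z (F.trans x y)
  have c258 : F.le v184 q → F.le q v111 → ¬ F.le v184 v111 → False :=
    fun x y z => z (F.trans x y)
  have c259 : F.le v125 v200 → F.le v198 q → ¬ F.le v125 v80 → False :=
    fun x y z => z (F.trans x (i109.2 y))
  have c260 : F.le q v131 → F.le v198 q → ¬ F.le v191 q → False :=
    fun x y z => z (i72.1 (F.trans (i237.2 x) (i109.2 y)))
  have c261 : F.le v178 v113 → F.le v113 v28 → ¬ F.le v172 v22 → False :=
    fun x y z => z (i238.1 (F.trans x y))
  have c262 : F.le v69 v2 → F.le v2 v13 → ¬ F.le v69 v13 → False :=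
    fun x y z => z (F.trans x y)
  have c263 : F.le v72 v172 → F.le v172 v60 → ¬ F.le q v62 → False :=
    fun x y z => z (i239.1 (F.trans x y))
  have c266 : F.le v131 q → F.le q v78 → ¬ F.le q v198 → False :=
    fun x y z => z (i241.1 (C4.c1' e12 e15 e14 e17 e51 (i240.2 x) (i126.2 y)))
  have c267 : F.le q v131 → F.le q v78 → ¬ F.le v9 v79 → False :=
    fun x y z => z (i242.1 (F.trans (i166.2 x) y))
  have c268 : F.le q v84 → F.le v125 v84 → ¬ F.le v84 v40 → False :=
    fun x y z => z (i244.1 (C0.c1 e17 e115 e16 e117 e201 x (i243.2 y)))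
  have c269 : F.le v187 q → F.le v60 q → ¬ F.le v185 q → False :=
    fun x y z => z (i245.1 (F.trans x (i75.2 y)))
  have c270 : F.le q v84 → F.le q v99 → ¬ F.le v54 v99 → False :=
    fun x y z => z (F.trans (i113.2 x) y)
  have c271 : F.le v72 v160 → F.le v162 v119 → ¬ F.le v68 v119 → False :=
    fun x y z => z (F.trans (i246.2 x) y)
  have c272 : F.le v43 v60 → F.le v60 q → ¬ F.le q v32 → False :=
    fun x y z => z (i124.1 (F.trans x y))
  have c273 : F.le v90 q → F.le q v189 → ¬ F.le q v193 → False :=
    fun x y z => z (i247.1 (F.trans x y))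
  have c274 : ¬ F.le v111 v68 → ¬ F.le v111 q → ¬ F.le v7 v71 → ¬ F.le v113 q → False :=
    fun x0 x1 x2 x3 => acMPPM Dt L1 L2 L3 C2 C3 e154 e10 e157 e156 e9 e159 (fun h => x0 (i248.1 h)) (fun h => x1 h) (fun h => x2 (i175.1 h)) (fun h => x3 h)
  have c275 : F.le v70 q → F.le q v64 → ¬ F.le q v62 → False :=
    fun x y z => z (i249.1 (F.trans x y))
  have c276 : F.le v160 q → F.le q v60 → ¬ F.le v160 v60 → False :=
    fun x y z => z (F.trans x y)
  have c277 : F.le q v189 → F.le v191 v49 → ¬ F.le v71 v2 → False :=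
    fun x y z => z (i250.1 (F.trans (i40.2 x) y))
  have c278 : F.le v17 q → F.le q v99 → ¬ F.le v17 v99 → False :=
    fun x y z => z (F.trans x y)
  have c279 : F.le v78 v34 → F.le v5 v140 → ¬ F.le v78 v62 → False :=
    fun x y z => z (F.trans x (i251.2 y))
  have c280 : ¬ F.le q v131 → ¬ F.le q v86 → ¬ F.le v3 v11 → ¬ F.le q v84 → False :=
    fun x0 x1 x2 x3 => acMPPM Dt L3 L4 L0 C4 C0 e12 e15 e3 e14 e17 e5 (fun h => x0 (i125.1 h)) (fun h => x1 (i127.1 h)) (fun h => x2 h) (fun h => x3 (i44.1 h))
  have c281 : F.le v202 q → F.le v60 v172 → ¬ F.le q v115 → False :=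
    fun x y z => z (i252.1 (F.trans x (i27.2 y)))
  have c283 : F.le q v127 → F.le v198 q → ¬ F.le v166 q → False :=
    fun x y z => z (i254.1 (F.trans (i253.2 x) (i109.2 y)))
  have c284 : F.le v147 q → F.le q v178 → ¬ F.le v147 v178 → False :=
    fun x y z => z (F.trans x y)
  have c285 : F.le v21 q → F.le q v111 → ¬ F.le v21 v111 → False :=
    fun x y z => z (F.trans x y)
  have c286 : F.le v60 q → F.le v61 v5 → ¬ F.le v43 v60 → False :=
    fun x y z => z (i255.1 (C1.c1 e79 e8 e81 e7 e2 x y))
  have c287 : F.le q v40 → F.le v128 v126 → ¬ F.le v46 v126 → False :=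
    fun x y z => z (i258.1 (F.trans (i256.2 x) (i257.2 y)))
  have c288 : ¬ F.le q v84 → ¬ F.le q v54 → False :=
    fun x y => (F.tot (lq.trans lv84.symm)).elim (fun h => x h) (fun h => y (i259.1 h))
  have c289 : F.le v149 v189 → F.le v117 q → ¬ F.le v149 v151 → False :=
    fun x y z => z (F.trans x (i260.2 y))
  have c290 : F.le v15 v121 → F.le v121 q → ¬ F.le v15 q → False :=
    fun x y z => z (F.trans x y)
  have c291 : F.le v60 v172 → F.le v109 q → ¬ F.le v60 v147 → False :=
    fun x y z => z (F.trans x (i37.2 y))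
  have c292 : F.le v198 q → F.le q v191 → ¬ F.le v131 q → False :=
    fun x y z => z (i261.1 (F.trans x y))
  have c293 : F.le v185 v160 → F.le v160 v193 → ¬ F.le v185 v193 → False :=
    fun x y z => z (F.trans x y)
  have c294 : F.le q v111 → F.le v109 q → ¬ F.le q v93 → False :=
    fun x y z => z (i262.1 (F.trans (i154.2 x) (i102.2 y)))
  have c295 : ¬ F.le q v86 → ¬ F.le q v78 → False :=
    fun x y => (F.tot (lq.trans lv86.symm)).elim (fun h => x h) (fun h => y (i94.1 h))
  have c296 : F.le v14 v102 → F.le v103 v26 → ¬ F.le v2 v13 → False :=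
    fun x y z => z (i264.1 (F.trans (i263.2 x) y))
  have c297 : F.le v184 v111 → F.le v111 v19 → ¬ F.le v123 v74 → False :=
    fun x y z => z (i265.1 (F.trans x y))
  have c298 : F.le q v86 → F.le v11 v87 → ¬ F.le v87 v2 → False :=
    fun x y z => z (C4.c1' e118 e17 e120 e16 e2 x y)
  have c299 : F.le v5 v140 → F.le v140 v159 → ¬ F.le v5 v159 → False :=
    fun x y z => z (F.trans x y)
  have c300 : ¬ F.le v114 v112 → ¬ F.le v115 v113 → ¬ F.le v114 v108 → ¬ F.le v115 v109 → False :=
    fun x0 x1 x2 x3 => acPMMP Dt L3 L4 L0 C4 C0 e157 e160 e151 e159 e162 e153 (fun h => x0 h) (fun h => x1 h) (fun h => x2 h) (fun h => x3 h)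
  have c301 : F.le v185 q → F.le q v160 → ¬ F.le v185 v160 → False :=
    fun x y z => z (F.trans x y)
  have c302 : ¬ F.le v113 q → ¬ F.le v121 q → False :=
    fun x y => (F.tot (lq.trans lv121.symm)).elim (fun h => x (i115.1 h)) (fun h => y h)
  have c303 : F.le v36 q → F.le q v32 → ¬ F.le v109 q → False :=
    fun x y z => z (i142.1 (F.trans x y))
  have c304 : F.le v125 v127 → F.le v127 v200 → ¬ F.le v125 v200 → False :=
    fun x y z => z (F.trans x y)
  have c305 : F.le q v70 → F.le q v189 → ¬ F.le q v191 → False :=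
    fun x y z => z (i266.1 (F.trans (i62.2 x) y))
  have c306 : F.le v198 q → F.le v20 q → ¬ F.le v200 v22 → False :=
    fun x y z => z (i267.1 (F.trans x (i136.2 y)))
  have c307 : F.le v198 q → F.le v76 v47 → ¬ F.le v41 v46 → False :=
    fun x y z => z (i269.1 (F.trans (i268.2 x) y))
  have c308 : F.le v178 v115 → F.le v115 v113 → ¬ F.le v178 v113 → False :=
    fun x y z => z (F.trans x y)
  have c309 : F.le v149 q → F.le q v162 → ¬ F.le q v101 → False :=
    fun x y z => z (i270.1 (F.trans x y))
  have c310 : F.le v131 q → F.le q v86 → ¬ F.le v11 v87 → False :=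
    fun x y z => z (i271.1 (F.trans x y))
  have c311 : F.le v80 q → F.le q v60 → ¬ F.le q v64 → False :=
    fun x y z => z (i272.1 (F.trans x y))
  have c312 : F.le v4 v92 → F.le q v93 → ¬ F.le v144 q → False :=
    fun x y z => z (C1.c1 e4 e127 e3 e129 e202 x y)
  have c313 : F.le q v40 → F.le v199 v18 → ¬ F.le v134 v18 → False :=
    fun x y z => z (F.trans (i273.2 x) y)
  have c314 : ¬ F.le q v68 → ¬ F.le q v62 → False :=
    fun x y => (F.tot (lq.trans lv68.symm)).elim (fun h => x h) (fun h => y (i2.1 h))
  have c315 : F.le q v160 → F.le v160 v22 → ¬ F.le v15 q → False :=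
    fun x y z => z (i274.1 (F.trans x y))
  have c316 : F.le v17 q → F.le q v144 → ¬ F.le q v93 → False :=
    fun x y z => z (i275.1 (F.trans x y))
  have c317 : ¬ F.le q v101 → ¬ F.le q v60 → ¬ F.le v111 q → ¬ F.le q v62 → False :=
    fun x0 x1 x2 x3 => acMPPM Dt L0 L1 L2 C1 C2 e3 e6 e9 e5 e8 e11 (fun h => x0 (i45.1 h)) (fun h => x1 (i47.1 h)) (fun h => x2 (i59.1 h)) (fun h => x3 (i60.1 h))
  have c318 : F.le q v40 → F.le q v202 → ¬ F.le v51 v202 → False :=
    fun x y z => z (F.trans (i276.2 x) y)
  have c319 : F.le v123 v74 → F.le v72 v160 → ¬ F.le v122 v35 → False :=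
    fun x y z => z (i278.1 (F.trans x (i277.2 y)))
  have c321 : F.le q v62 → F.le v5 v63 → ¬ F.le v62 v34 → False :=
    fun x y z => z (i279.1 (C2.c1 e8 e82 e7 e84 e198 x y))
  have c322 : F.le v115 v202 → F.le v198 q → ¬ F.le v115 v82 → False :=
    fun x y z => z (F.trans x (i280.2 y))
  have c323 : F.le v5 v63 → F.le q v111 → ¬ F.le q v157 → False :=
    fun x y z => z (C2.c1' e7 e142 e6 e144 e220 (i281.2 x) (i154.2 y))
  have c324 : F.le q v160 → F.le v166 q → ¬ F.le q v80 → False :=
    fun x y z => z (F.trans x (i254.2 y))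
  have c325 : F.le v121 q → F.le v70 q → ¬ F.le v9 v77 → False :=
    fun x y z => z (i282.1 (F.trans x (i119.2 y)))
  have c326 : F.le q v60 → F.le q v93 → ¬ F.le v4 v92 → False :=
    fun x y z => z (i283.1 (F.trans (i16.2 x) y))
  have c327 : F.le q v60 → F.le v4 v92 → ¬ F.le v3 v139 → False :=
    fun x y z => z (C1.c1' e5 e67 e4 e69 e197 (i16.2 x) (i284.2 y))
  have c328 : F.le q v111 → F.le q v68 → ¬ F.le v172 v60 → False :=
    fun x y z => z (i287.1 (C2.c1 e6 e9 e8 e11 e47 (i285.2 x) (i286.2 y)))
  have c329 : F.le q v101 → F.le q v60 → ¬ F.le v160 q → False :=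
    fun x y z => z (i288.1 (C1.c1 e3 e6 e5 e8 e45 (i45.2 x) (i47.2 y)))
  have c330 : F.le v198 q → F.le v80 q → ¬ F.le v200 q → False :=
    fun x y z => z (i290.1 (F.trans x (i289.2 y)))
  have s331 : ¬ F.le q v99 → False := fun a0 =>
    have n1 : ¬ F.le v3 v11 := fun w => c77 w
    c106 n1 a0
  have s332 : F.le q v84 → F.le v98 v4 → False := fun a0 a1 =>
    have n1 : ¬ F.le v3 v11 := fun w => c77 w
    c108 a1 a0 n1
  have s333 : F.le q v78 → F.le q v86 → ¬ F.le q v84 → ¬ F.le q v131 → False := fun a0 a1 a2 a3 =>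
    have n1 : ¬ F.le v3 v11 := fun w => c77 w
    c123 a3 a0 a1 n1 a2
  have s334 : F.le v147 q → ¬ F.le v200 q → False := fun a0 a1 =>
    have n1 : F.le q v99 := Classical.byContradiction fun w => s331 w
    c145 n1 a0 a1
  have s335 : F.le q v131 → ¬ F.le v117 q → False := fun a0 a1 =>
    have n1 : F.le q v99 := Classical.byContradiction fun w => s331 w
    c166 a0 n1 a1
  have s337 : ¬ F.le q v101 → ¬ F.le v92 v4 → ¬ F.le v98 v4 → False := fun a0 a1 a2 =>
    have n1 : ¬ F.le v3 v11 := fun w => c77 w
    c186 a2 n1 a1 a0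
  have s338 : F.le q v54 → ¬ F.le v155 q → False := fun a0 a1 =>
    have n1 : F.le q v99 := Classical.byContradiction fun w => s331 w
    c189 n1 a0 a1
  have s339 : F.le v54 v99 → ¬ F.le v99 v15 → False := fun a0 a1 =>
    have n1 : F.le q v99 := Classical.byContradiction fun w => s331 w
    c218 a0 n1 a1
  have s340 : F.le q v84 → ¬ F.le v125 v84 → False := fun a0 a1 =>
    have n1 : F.le q v99 := Classical.byContradiction fun w => s331 w
    c221 n1 a0 a1
  have s341 : F.le q v198 → ¬ F.le v80 v147 → False := fun a0 a1 =>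
    have n1 : F.le q v99 := Classical.byContradiction fun w => s331 w
    c229 a0 n1 a1
  have s342 : F.le q v60 → F.le v60 v125 → False := fun a0 a1 =>
    have n1 : ¬ F.le v3 v11 := fun w => c77 w
    c232 a0 a1 n1
  have s343 : F.le q v84 → F.le v12 v124 → False := fun a0 a1 =>
    have n1 : ¬ F.le v3 v11 := fun w => c77 w
    c241 a0 a1 n1
  have s344 : F.le v15 q → F.le v99 v15 → False := fun a0 a1 =>
    have n1 : ¬ F.le v3 v11 := fun w => c77 w
    c251 a1 a0 n1
  have s345 : F.le q v84 → ¬ F.le v54 v99 → False := fun a0 a1 =>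
    have n1 : F.le q v99 := Classical.byContradiction fun w => s331 w
    c270 a0 n1 a1
  have s346 : F.le v17 q → ¬ F.le v17 v99 → False := fun a0 a1 =>
    have n1 : F.le q v99 := Classical.byContradiction fun w => s331 w
    c278 a0 n1 a1
  have s347 : ¬ F.le q v84 → ¬ F.le q v86 → ¬ F.le q v131 → False := fun a0 a1 a2 =>
    have n1 : ¬ F.le v3 v11 := fun w => c77 w
    c280 a2 a1 n1 a0
  have s348 : ¬ F.le q v60 → F.le q v93 → ¬ F.le q v84 → False := fun a0 a1 a2 =>
    have n1 : ¬ F.le v3 v11 := fun w => c77 w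
    have n2 : F.le q v101 := Classical.byContradiction fun w => c55 n1 a2 w a0
    c43 n1 a2 n2 a1 a0
  have s349 : ¬ F.le q v131 → ¬ F.le q v84 → F.le q v21 → False := fun a0 a1 a2 =>
    have n1 : F.le v131 q := Classical.byContradiction fun w => c192 a0 w
    have n2 : F.le q v86 := Classical.byContradiction fun w => s347 a1 w a0
    have n3 : ¬ F.le v21 v131 := fun w => c171 a2 w a0
    have n4 : ¬ F.le v11 v87 := fun w => c185 w n1 n3
    c310 n1 n2 n4
  have s350 : ¬ F.le v70 q → F.le v191 q → F.le v121 q → False := fun a0 a1 a2 =>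
    have n1 : F.le q v70 := Classical.byContradiction fun w => c114 a0 w
    have n2 : ¬ F.le q v189 := fun w => c73 w a1 a0
    c124 a2 n1 n2
  have s351 : F.le q v70 → ¬ F.le q v191 → F.le v121 q → False := fun a0 a1 a2 =>
    have n1 : F.le q v189 := Classical.byContradiction fun w => c124 a2 a0 w
    c305 a0 n1 a1
  have s352 : F.le v198 q → ¬ F.le v131 q → ¬ F.le v147 v22 → ¬ F.le v172 v22 → F.le v24 q → F.le v43 v60 → F.le v172 v178 → F.le v109 q → F.le q v32 → F.le v109 v178 → F.le v60 v172 → F.le q v131 → F.le v155 q → F.le v121 q → False := fun a0 a1 a2 a3 a4 a5 a6 a7 a8 a9 a10 a11 a12 a13 =>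
    have n1 : F.le v191 q := Classical.byContradiction fun w => c260 a11 a0 w
    have n2 : ¬ F.le q v191 := fun w => c292 a0 w a1
    have n3 : F.le v70 q := Classical.byContradiction fun w => s350 w n1 a13
    have n4 : F.le v9 v77 := Classical.byContradiction fun w => c325 a13 n3 w
    have n5 : F.le v70 v113 := Classical.byContradiction fun w => c79 n3 a13 w
    have n6 : F.le v76 v47 := Classical.byContradiction fun w => c216 n3 n4 w
    have n7 : F.le v20 v121 := Classical.byContradiction fun w => c54 n4 a13 w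
    have n8 : F.le v113 v28 := Classical.byContradiction fun w => c165 n5 a13 w
    have n9 : F.le v36 v70 := Classical.byContradiction fun w => c187 n3 n5 w
    have n10 : F.le v77 v3 := Classical.byContradiction fun w => c204 n6 a8 w
    have n11 : F.le v20 q := Classical.byContradiction fun w => c23 n7 a13 w
    have n12 : ¬ F.le v178 v113 := fun w => c261 w n8 a3
    have n13 : ¬ F.le v33 v112 := fun w => c158 w n8 a2
    have n14 : F.le v36 q := Classical.byContradiction fun w => c98 n9 n3 w
    have n15 : F.le v200 v22 := Classical.byContradiction fun w => c306 a0 n11 w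
    have n16 : F.le v109 v60 := Classical.byContradiction fun w => c37 n14 a5 w
    have n17 : F.le v202 q := Classical.byContradiction fun w => c86 n15 a4 w
    have n18 : F.le q v115 := Classical.byContradiction fun w => c281 n17 a10 w
    have n19 : F.le v109 v115 := Classical.byContradiction fun w => c85 a7 n18 w
    have n20 : F.le v155 v115 := Classical.byContradiction fun w => c224 a12 n18 w
    have n21 : ¬ F.le v114 v112 := fun w => c18 n20 w n13
    have n22 : ¬ F.le q v70 := fun w => s351 w n2 a13
    have n23 : ¬ F.le v77 v16 := fun w => c175 w a10 n22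
    have n24 : ¬ F.le v32 v70 := fun w => c46 a8 w n22
    have n25 : ¬ F.le v149 q := fun w => c246 n10 w n23
    have n26 : ¬ F.le q v109 := fun w => c217 w n9 n24
    have n27 : ¬ F.le v115 v66 := fun w => c167 n20 w n25
    have n28 : ¬ F.le v115 v109 := fun w => c126 n18 w n26
    have n29 : ¬ F.le v114 v108 := fun w => c31 w n16 n27
    have n30 : F.le v115 v113 := Classical.byContradiction fun w => c300 n21 w n29 n28
    have n31 : ¬ F.le v178 v115 := fun w => c308 w n30 n12
    have n32 : ¬ F.le v180 v178 := fun w => c67 n30 w n31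
    have n33 : F.le v178 v180 := Classical.byContradiction fun w => c210 w n32
    have n34 : ¬ F.le v180 v109 := fun w => c96 w a9 n32
    have n35 : F.le v172 v180 := Classical.byContradiction fun w => c14 a6 n33 w
    c154 n19 n35 n34
  have s353 : ¬ F.le v198 q → F.le q v131 → F.le v155 q → False := fun a0 a1 a2 =>
    have n1 : F.le q v198 := Classical.byContradiction fun w => c130 w a0
    have n2 : ¬ F.le q v86 := fun w => c244 a1 w a0
    have n3 : F.le v80 v147 := Classical.byContradiction fun w => s341 n1 w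
    c121 n3 a2 n2
  have s354 : F.le q v32 → F.le v109 v178 → F.le v60 v172 → F.le v147 v178 → F.le q v86 → F.le q v131 → ¬ F.le q v84 → F.le v121 q → False := fun a0 a1 a2 a3 a4 a5 a6 a7 =>
    have n1 : ¬ F.le v3 v11 := fun w => c77 w
    have n2 : F.le q v54 := Classical.byContradiction fun w => c288 a6 w
    have n3 : F.le v155 q := Classical.byContradiction fun w => s338 n2 w
    have n4 : F.le v198 q := Classical.byContradiction fun w => s353 w a5 n3
    have n5 : F.le v191 q := Classical.byContradiction fun w => c260 a5 n4 w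
    have n6 : F.le v70 q := Classical.byContradiction fun w => s350 w n5 a7
    have n7 : F.le v70 v113 := Classical.byContradiction fun w => c79 n6 a7 w
    have n8 : F.le v36 v70 := Classical.byContradiction fun w => c187 n6 n7 w
    have n9 : F.le v36 q := Classical.byContradiction fun w => c98 n8 n6 w
    have n10 : F.le v109 q := Classical.byContradiction fun w => c303 n9 a0 w
    have n11 : F.le v172 v178 := Classical.byContradiction fun w => c36 n10 a3 w
    have n12 : F.le v60 v147 := Classical.byContradiction fun w => c291 a2 n10 w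
    have n13 : F.le q v88 := Classical.byContradiction fun w => c256 n12 n3 w
    have n14 : ¬ F.le q v60 := fun w => c12 w n13 a6
    have n15 : F.le v60 q := Classical.byContradiction fun w => c11 n14 w
    have n16 : F.le q v101 := Classical.byContradiction fun w => c55 n1 a6 w n14
    have n17 : ¬ F.le q v93 := fun w => s348 n14 w a6
    have n18 : F.le v92 v4 := Classical.byContradiction fun w => c179 n16 n15 w
    have n19 : F.le v61 v5 := Classical.byContradiction fun w => c237 n15 n16 w
    have n20 : F.le q v144 := Classical.byContradiction fun w => c102 n18 n16 w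
    have n21 : F.le v43 v60 := Classical.byContradiction fun w => c286 n15 n19 w
    have n22 : ¬ F.le v17 q := fun w => c316 w n20 n17
    have n23 : F.le v24 q := Classical.byContradiction fun w => c211 n22 w
    have n24 : ¬ F.le v172 v22 := fun w => c235 a2 w n22
    have n25 : ¬ F.le v147 v22 := fun w => c135 n12 w n22
    have n26 : ¬ F.le v21 q := fun w => c8 n13 w n22
    have n27 : F.le v131 q := Classical.byContradiction fun w => s352 n4 w n25 n24 n23 n21 n11 n10 a0 a1 a2 a5 n3 a7
    have n28 : ¬ F.le v21 v131 := fun w => c6 w n27 n26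
    have n29 : ¬ F.le v11 v87 := fun w => c185 w n27 n28
    c310 n27 a4 n29
  have s355 : ¬ F.le q v60 → ¬ F.le q v32 → ¬ F.le q v84 → False := fun a0 a1 a2 =>
    have n1 : ¬ F.le v3 v11 := fun w => c77 w
    have n2 : F.le v60 q := Classical.byContradiction fun w => c11 a0 w
    have n3 : F.le q v101 := Classical.byContradiction fun w => c55 n1 a2 w a0
    have n4 : F.le v61 v5 := Classical.byContradiction fun w => c237 n2 n3 w
    have n5 : ¬ F.le v43 v60 := fun w => c272 w n2 a1
    c286 n2 n4 n5
  have s356 : ¬ F.le q v32 → F.le q v162 → ¬ F.le q v84 → False := fun a0 a1 a2 =>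
    have n1 : F.le q v54 := Classical.byContradiction fun w => c288 a2 w
    have n2 : F.le v155 q := Classical.byContradiction fun w => s338 n1 w
    have n3 : F.le v147 q := Classical.byContradiction fun w => c110 n2 n1 w
    have n4 : F.le q v60 := Classical.byContradiction fun w => s355 w a0 a2
    have n5 : F.le v149 q := Classical.byContradiction fun w => c87 n3 n4 w
    have n6 : F.le q v101 := Classical.byContradiction fun w => c309 n5 a1 w
    have n7 : F.le v160 q := Classical.byContradiction fun w => c329 n6 n4 w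
    have n8 : F.le v60 q := Classical.byContradiction fun w => c209 a1 n7 w
    have n9 : F.le v61 v5 := Classical.byContradiction fun w => c237 n8 n6 w
    have n10 : ¬ F.le v43 v60 := fun w => c272 w n8 a0
    c286 n8 n9 n10
  have s357 : F.le v60 v172 → F.le q v178 → F.le q v86 → F.le q v131 → ¬ F.le q v84 → F.le v111 q → F.le v121 q → False := fun a0 a1 a2 a3 a4 a5 a6 =>
    have n1 : F.le q v54 := Classical.byContradiction fun w => c288 a4 w
    have n2 : F.le v155 q := Classical.byContradiction fun w => s338 n1 w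
    have n3 : F.le v147 q := Classical.byContradiction fun w => c110 n2 n1 w
    have n4 : F.le v147 v178 := Classical.byContradiction fun w => c284 n3 a1 w
    have n5 : F.le v198 q := Classical.byContradiction fun w => s353 w a3 n2
    have n6 : F.le v191 q := Classical.byContradiction fun w => c260 a3 n5 w
    have n7 : F.le v70 q := Classical.byContradiction fun w => s350 w n6 a6
    have n8 : F.le v70 v113 := Classical.byContradiction fun w => c79 n7 a6 w
    have n9 : F.le v36 v70 := Classical.byContradiction fun w => c187 n7 n8 w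
    have n10 : F.le v36 q := Classical.byContradiction fun w => c98 n9 n7 w
    have n11 : F.le q v162 := Classical.byContradiction fun w => c148 a0 a5 w
    have n12 : F.le q v32 := Classical.byContradiction fun w => s356 w n11 a4
    have n13 : F.le v43 v178 := Classical.byContradiction fun w => c151 n12 a1 w
    have n14 : ¬ F.le v109 v178 := fun w => s354 n12 w a0 n4 a2 a3 a4 a6
    c127 n10 n13 n14
  have s358 : ¬ F.le q v62 → F.le q v86 → F.le v70 q → ¬ F.le q v84 → F.le v111 q → False := fun a0 a1 a2 a3 a4 =>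
    have n1 : ¬ F.le v3 v11 := fun w => c77 w
    have n2 : ¬ F.le v5 v63 := fun w => c7 a4 w a0
    have n3 : ¬ F.le q v64 := fun w => c275 a2 w a0
    have n4 : ¬ F.le q v66 := fun w => c137 a1 w n3
    have n5 : F.le q v88 := Classical.byContradiction fun w => c97 w n4
    have n6 : ¬ F.le q v60 := fun w => c12 w n5 a3
    have n7 : F.le q v101 := Classical.byContradiction fun w => c55 n1 a3 w n6
    have n8 : F.le v5 v61 := Classical.byContradiction fun w => c72 n6 w a0 n2
    c26 n7 n8 n6
  have s359 : ¬ F.le q v84 → F.le v111 q → F.le q v21 → F.le v121 q → False := fun a0 a1 a2 a3 =>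
    have n1 : ¬ F.le v3 v11 := fun w => c77 w
    have n2 : F.le q v54 := Classical.byContradiction fun w => c288 a0 w
    have n3 : F.le v155 q := Classical.byContradiction fun w => s338 n2 w
    have n4 : F.le q v131 := Classical.byContradiction fun w => s349 w a0 a2
    have n5 : F.le v198 q := Classical.byContradiction fun w => s353 w n4 n3
    have n6 : F.le v191 q := Classical.byContradiction fun w => c260 n4 n5 w
    have n7 : F.le v70 q := Classical.byContradiction fun w => s350 w n6 a3
    have n8 : F.le v9 v77 := Classical.byContradiction fun w => c325 a3 n7 w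
    have n9 : F.le v70 v113 := Classical.byContradiction fun w => c79 n7 a3 w
    have n10 : F.le v20 v121 := Classical.byContradiction fun w => c54 n8 a3 w
    have n11 : F.le v113 v28 := Classical.byContradiction fun w => c165 n9 a3 w
    have n12 : F.le v20 q := Classical.byContradiction fun w => c23 n10 a3 w
    have n13 : F.le q v86 := Classical.byContradiction fun w => c84 n12 a2 w
    have n14 : F.le q v62 := Classical.byContradiction fun w => s358 w n13 n7 a0 a1
    have n15 : F.le v60 v172 := Classical.byContradiction fun w => c62 a1 n14 w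
    have n16 : ¬ F.le q v178 := fun w => s357 n15 w n13 n4 a0 a1 a3
    have n17 : ¬ F.le q v64 := fun w => c27 w n15 n16
    have n18 : F.le q v82 := Classical.byContradiction fun w => c213 w n17
    have n19 : ¬ F.le q v66 := fun w => c137 n13 w n17
    have n20 : F.le v64 v113 := Classical.byContradiction fun w => c225 n18 a3 w
    have n21 : F.le q v88 := Classical.byContradiction fun w => c97 w n19
    have n22 : F.le v17 q := Classical.byContradiction fun w => c164 n20 n11 w
    have n23 : ¬ F.le q v60 := fun w => c12 w n21 a0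
    have n24 : F.le v60 q := Classical.byContradiction fun w => c11 n23 w
    have n25 : F.le q v101 := Classical.byContradiction fun w => c55 n1 a0 w n23
    have n26 : ¬ F.le q v93 := fun w => s348 n23 w a0
    have n27 : F.le v92 v4 := Classical.byContradiction fun w => c179 n25 n24 w
    have n28 : ¬ F.le q v144 := fun w => c316 n22 w n26
    c102 n27 n25 n28
  have s361 : F.le q v68 → ¬ F.le v34 q → F.le v111 q → False := fun a0 a1 a2 =>
    have n1 : F.le v111 v68 := Classical.byContradiction fun w => c115 a2 a0 w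
    have n2 : ¬ F.le v69 v2 := fun w => c42 a0 w a1
    c60 a0 n1 n2
  have s362 : F.le v113 q → ¬ F.le v172 v72 → F.le v70 q → False := fun a0 a1 a2 =>
    have n1 : F.le v189 q := Classical.byContradiction fun w => c83 a0 a2 w
    c138 a0 n1 a1
  have s363 : F.le v24 q → ¬ F.le v24 v115 → F.le v60 v172 → F.le v200 v22 → False := fun a0 a1 a2 a3 =>
    have n1 : F.le v202 q := Classical.byContradiction fun w => c86 a3 a0 w
    have n2 : ¬ F.le q v115 := fun w => c132 a0 w a1
    c281 n1 a2 n2
  have s364 : F.le q v160 → F.le v60 v172 → F.le v200 v22 → F.le v36 q → ¬ F.le q v80 → F.le v80 q → F.le v41 v46 → F.le v20 v121 → F.le v70 q → F.le v198 q → F.le q v40 → F.le v111 q → F.le v22 v125 → False := fun a0 a1 a2 a3 a4 a5 a6 a7 a8 a9 a10 a11 a12 =>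
    have n1 : F.le v60 v135 := Classical.byContradiction fun w => c222 a1 a3 w
    have n2 : F.le q v202 := Classical.byContradiction fun w => c226 n1 a10 w
    have n3 : F.le v51 v202 := Classical.byContradiction fun w => c318 a10 n2 w
    have n4 : F.le v115 v202 := Classical.byContradiction fun w => c212 a3 n3 w
    have n5 : F.le v115 v82 := Classical.byContradiction fun w => c322 n4 a9 w
    have n6 : F.le v200 q := Classical.byContradiction fun w => c330 a9 a5 w
    have n7 : F.le v200 v202 := Classical.byContradiction fun w => c107 n6 n2 w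
    have n8 : ¬ F.le v166 q := fun w => c324 a0 w a4
    have n9 : F.le q v166 := Classical.byContradiction fun w => c13 a5 a0 w
    have n10 : ¬ F.le q v127 := fun w => c283 w a9 n8
    have n11 : F.le v196 v17 := Classical.byContradiction fun w => c40 a9 n9 w
    have n12 : ¬ F.le v41 v126 := fun w => c118 n2 w n10
    have n13 : ¬ F.le v34 q := fun w => c191 w a10 n10
    have n14 : ¬ F.le v47 v127 := fun w => c81 a3 w n10
    have n15 : ¬ F.le v46 v126 := fun w => c152 a6 w n12
    have n16 : ¬ F.le v129 v127 := fun w => c125 a10 w n14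
    have n17 : ¬ F.le v128 v126 := fun w => c287 a10 w n15
    have n18 : ¬ F.le q v68 := fun w => s361 w n13 a11
    have n19 : ¬ F.le v172 v72 := fun w => c34 a1 w n18
    have n20 : ¬ F.le v113 q := fun w => s362 w n19 a8
    have n21 : ¬ F.le q v20 := fun w => c109 w a7 n20
    have n22 : ¬ F.le v125 v80 := fun w => c245 a12 w n21
    have n23 : ¬ F.le v24 v115 := fun w => c238 w n5 n21
    have n24 : ¬ F.le v125 v200 := fun w => c259 w a9 n22
    have n25 : ¬ F.le v24 q := fun w => s363 w n23 a1 a2
    have n26 : ¬ F.le v125 v60 := fun w => c248 a12 w n25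
    have n27 : ¬ F.le v124 v126 := fun w => c199 w n11 n26
    have n28 : F.le v125 v127 := Classical.byContradiction fun w => c41 n27 w n17 n16
    have n29 : F.le v127 v200 := Classical.byContradiction fun w => c4 n28 n7 w
    c304 n28 n29 n24
  have s365 : F.le v60 v172 → F.le v200 v125 → F.le v200 v22 → F.le v36 q → ¬ F.le q v80 → F.le v80 q → F.le v41 v46 → F.le v20 v121 → F.le v70 q → F.le v198 q → F.le q v32 → F.le q v40 → F.le v111 q → F.le v22 v125 → False := fun a0 a1 a2 a3 a4 a5 a6 a7 a8 a9 a10 a11 a12 a13 =>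
    have n1 : F.le v60 v135 := Classical.byContradiction fun w => c222 a0 a3 w
    have n2 : F.le q v202 := Classical.byContradiction fun w => c226 n1 a11 w
    have n3 : F.le v60 v125 := Classical.byContradiction fun w => c155 n2 a1 w
    have n4 : F.le v51 v202 := Classical.byContradiction fun w => c318 a11 n2 w
    have n5 : ¬ F.le q v60 := fun w => s342 w n3
    have n6 : F.le v115 v202 := Classical.byContradiction fun w => c212 a3 n4 w
    have n7 : F.le v60 q := Classical.byContradiction fun w => c11 n5 w
    have n8 : F.le v115 v82 := Classical.byContradiction fun w => c322 n6 a9 w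
    have n9 : ¬ F.le q v160 := fun w => s364 w a0 a2 a3 a4 a5 a6 a7 a8 a9 a11 a12 a13
    have n10 : ¬ F.le q v93 := fun w => c180 w n7 n9
    have n11 : F.le q v101 := Classical.byContradiction fun w => c80 w n10
    have n12 : ¬ F.le v34 q := fun w => c208 w a10 n10
    have n13 : F.le v92 v4 := Classical.byContradiction fun w => c179 n11 n7 w
    have n14 : ¬ F.le q v68 := fun w => s361 w n12 a12
    have n15 : F.le q v144 := Classical.byContradiction fun w => c102 n13 n11 w
    have n16 : ¬ F.le v172 v72 := fun w => c34 a0 w n14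
    have n17 : ¬ F.le v17 q := fun w => c316 w n15 n10
    have n18 : ¬ F.le v113 q := fun w => s362 w n16 a8
    have n19 : F.le v24 q := Classical.byContradiction fun w => c211 n17 w
    have n20 : ¬ F.le q v20 := fun w => c109 w a7 n18
    have n21 : F.le v24 v115 := Classical.byContradiction fun w => s363 n19 w a0 a2
    c238 n21 n8 n20
  have s366 : F.le v200 v125 → F.le v200 v22 → F.le v22 v125 → F.le v36 q → ¬ F.le q v80 → F.le v80 q → F.le v41 v46 → F.le v20 v121 → F.le v70 q → F.le v198 q → F.le q v32 → F.le q v40 → F.le v111 q → False := fun a0 a1 a2 a3 a4 a5 a6 a7 a8 a9 a10 a11 a12 =>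
    have n1 : ¬ F.le v60 v172 := fun w => s365 w a0 a1 a3 a4 a5 a6 a7 a8 a9 a10 a11 a12 a2
    have n2 : ¬ F.le q v62 := fun w => c62 a12 w n1
    have n3 : F.le q v68 := Classical.byContradiction fun w => c314 w n2
    have n4 : ¬ F.le q v64 := fun w => c275 a8 w n2
    have n5 : F.le v34 q := Classical.byContradiction fun w => s361 n3 w a12
    have n6 : ¬ F.le q v60 := fun w => c311 a5 w n4
    have n7 : F.le q v93 := Classical.byContradiction fun w => c208 n5 a10 w
    have n8 : F.le q v127 := Classical.byContradiction fun w => c191 n5 a11 w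
    have n9 : F.le v60 q := Classical.byContradiction fun w => c11 n6 w
    have n10 : F.le q v160 := Classical.byContradiction fun w => c180 n7 n9 w
    have n11 : F.le v166 q := Classical.byContradiction fun w => c283 n8 a9 w
    c324 n10 n11 a4
  have s367 : F.le v198 q → F.le q v131 → ¬ F.le v15 v121 → F.le v121 v15 → F.le q v32 → F.le q v40 → F.le v111 q → F.le v22 v125 → F.le v121 q → False := fun a0 a1 a2 a3 a4 a5 a6 a7 a8 =>
    have n1 : F.le v191 q := Classical.byContradiction fun w => c260 a1 a0 w
    have n2 : F.le v70 q := Classical.byContradiction fun w => s350 w n1 a8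
    have n3 : F.le v9 v77 := Classical.byContradiction fun w => c325 a8 n2 w
    have n4 : F.le v70 v113 := Classical.byContradiction fun w => c79 n2 a8 w
    have n5 : F.le v76 v47 := Classical.byContradiction fun w => c216 n2 n3 w
    have n6 : F.le v20 v121 := Classical.byContradiction fun w => c54 n3 a8 w
    have n7 : F.le v36 v70 := Classical.byContradiction fun w => c187 n2 n4 w
    have n8 : F.le v41 v46 := Classical.byContradiction fun w => c307 a0 n5 w
    have n9 : F.le v20 q := Classical.byContradiction fun w => c23 n6 a8 w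
    have n10 : F.le v80 q := Classical.byContradiction fun w => c3 n6 a3 w
    have n11 : ¬ F.le q v80 := fun w => c174 w n6 a2
    have n12 : F.le v36 q := Classical.byContradiction fun w => c98 n7 n2 w
    have n13 : F.le v80 v125 := Classical.byContradiction fun w => c181 n9 a7 w
    have n14 : F.le v200 v22 := Classical.byContradiction fun w => c306 a0 n9 w
    have n15 : F.le v200 v125 := Classical.byContradiction fun w => c103 a0 n13 w
    s366 n15 n14 a7 n12 n11 n10 n8 n6 n2 a0 a4 a5 a6
  have s368 : ¬ F.le q v86 → F.le v111 q → F.le q v21 → F.le v121 q → False := fun a0 a1 a2 a3 =>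
    have n1 : F.le q v99 := Classical.byContradiction fun w => s331 w
    have n2 : F.le q v84 := Classical.byContradiction fun w => s359 w a1 a2 a3
    have n3 : F.le v54 v99 := Classical.byContradiction fun w => s345 n2 w
    have n4 : F.le v99 v15 := Classical.byContradiction fun w => s339 n3 w
    have n5 : F.le q v15 := Classical.byContradiction fun w => c28 n1 n4 w
    have n6 : F.le v121 v15 := Classical.byContradiction fun w => c92 a3 n5 w
    have n7 : F.le v51 v54 := Classical.byContradiction fun w => c219 n2 n3 w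
    have n8 : F.le q v32 := Classical.byContradiction fun w => c177 n7 n3 w
    have n9 : F.le q v78 := Classical.byContradiction fun w => c295 a0 w
    have n10 : ¬ F.le v80 q := fun w => c160 w n2 a0
    have n11 : ¬ F.le v20 q := fun w => c84 w a2 a0
    have n12 : ¬ F.le v20 v121 := fun w => c3 w n6 n10
    have n13 : ¬ F.le v9 v77 := fun w => c54 w a3 n12
    have n14 : ¬ F.le v70 q := fun w => c325 a3 w n13
    have n15 : F.le q v70 := Classical.byContradiction fun w => c114 n14 w
    have n16 : ¬ F.le q v26 := fun w => c63 n15 w n11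
    have n17 : ¬ F.le v103 v26 := fun w => c195 a1 w n16
    have n18 : ¬ F.le v6 v102 := fun w => c56 w a1 n17
    have n19 : ¬ F.le q v68 := fun w => c58 w a1 n18
    have n20 : F.le q v62 := Classical.byContradiction fun w => c314 n19 w
    have n21 : F.le v60 v172 := Classical.byContradiction fun w => c62 a1 n20 w
    have n22 : ¬ F.le q v82 := fun w => c2 n20 w n14
    have n23 : F.le q v64 := Classical.byContradiction fun w => c105 n15 n20 w
    have n24 : F.le q v162 := Classical.byContradiction fun w => c148 n21 a1 w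
    have n25 : ¬ F.le q v88 := fun w => c45 w n9 n22
    have n26 : F.le q v66 := Classical.byContradiction fun w => c94 n9 n23 w
    have n27 : ¬ F.le v60 q := fun w => c169 w n2 n25
    have n28 : F.le q v60 := Classical.byContradiction fun w => c144 n2 n26 w
    have n29 : ¬ F.le v3 v139 := fun w => c74 n8 w n27
    have n30 : ¬ F.le v160 q := fun w => c209 n24 w n27
    have n31 : ¬ F.le v4 v92 := fun w => c327 n28 w n29
    have n32 : ¬ F.le q v101 := fun w => c329 w n28 n30
    have n33 : ¬ F.le q v93 := fun w => c326 n28 w n31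
    c80 n32 n33
  have s369 : ¬ F.le q v131 → F.le q v86 → ¬ F.le v12 v124 → False := fun a0 a1 a2 =>
    have n1 : ¬ F.le v3 v11 := fun w => c77 w
    have n2 : F.le v12 v130 := Classical.byContradiction fun w => c16 w a0 a2 n1
    c111 a1 n2 a0
  have s370 : F.le v111 q → F.le v125 v84 → F.le v121 q → False := fun a0 a1 a2 =>
    have n1 : F.le q v99 := Classical.byContradiction fun w => s331 w
    have n2 : F.le v22 v125 := Classical.byContradiction fun w => c66 a1 n1 w
    have n3 : F.le q v21 := Classical.byContradiction fun w => c104 n2 a1 w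
    have n4 : F.le q v84 := Classical.byContradiction fun w => s359 w a0 n3 a2
    have n5 : ¬ F.le v12 v124 := fun w => s343 n4 w
    have n6 : F.le v84 v40 := Classical.byContradiction fun w => c268 n4 a1 w
    have n7 : F.le v54 v99 := Classical.byContradiction fun w => s345 n4 w
    have n8 : F.le q v40 := Classical.byContradiction fun w => c255 n4 n6 w
    have n9 : F.le v99 v15 := Classical.byContradiction fun w => s339 n7 w
    have n10 : F.le v51 v54 := Classical.byContradiction fun w => c219 n4 n7 w
    have n11 : F.le q v15 := Classical.byContradiction fun w => c28 n1 n9 w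
    have n12 : ¬ F.le v15 q := fun w => s344 w n9
    have n13 : F.le q v32 := Classical.byContradiction fun w => c177 n10 n7 w
    have n14 : F.le v121 v15 := Classical.byContradiction fun w => c92 a2 n11 w
    have n15 : ¬ F.le v15 v121 := fun w => c290 w a2 n12
    have n16 : F.le q v86 := Classical.byContradiction fun w => s368 w a0 n3 a2
    have n17 : F.le q v131 := Classical.byContradiction fun w => s369 w n16 n5
    have n18 : ¬ F.le v198 q := fun w => s367 w n17 n15 n14 n13 n8 a0 n2 a2
    c244 n17 n16 n18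
  have s371 : F.le v70 q → F.le q v84 → ¬ F.le v111 q → F.le v121 q → False := fun a0 a1 a2 a3 =>
    have n1 : F.le v54 v99 := Classical.byContradiction fun w => s345 a1 w
    have n2 : F.le v51 v54 := Classical.byContradiction fun w => c219 a1 n1 w
    have n3 : F.le q v32 := Classical.byContradiction fun w => c177 n2 n1 w
    have n4 : ¬ F.le v98 v4 := fun w => s332 a1 w
    have n5 : F.le q v111 := Classical.byContradiction fun w => c150 w a2
    have n6 : F.le v9 v77 := Classical.byContradiction fun w => c325 a3 a0 w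
    have n7 : F.le v70 v113 := Classical.byContradiction fun w => c79 a0 a3 w
    have n8 : F.le v20 v121 := Classical.byContradiction fun w => c54 n6 a3 w
    have n9 : F.le v36 v70 := Classical.byContradiction fun w => c187 a0 n7 w
    have n10 : F.le v20 q := Classical.byContradiction fun w => c23 n8 a3 w
    have n11 : F.le v36 q := Classical.byContradiction fun w => c98 n9 a0 w
    have n12 : F.le q v26 := Classical.byContradiction fun w => c136 a0 n10 w
    have n13 : F.le v109 q := Classical.byContradiction fun w => c303 n11 n3 w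
    have n14 : ¬ F.le q v157 := fun w => c95 n12 w a2
    have n15 : ¬ F.le q v101 := fun w => c220 n13 w a2
    have n16 : ¬ F.le v5 v63 := fun w => c323 w n5 n14
    have n17 : F.le v92 v4 := Classical.byContradiction fun w => s337 n15 w n4
    have n18 : ¬ F.le q v62 := fun w => c156 n5 w n16
    have n19 : ¬ F.le q v60 := fun w => c200 n17 w n15
    c317 n15 n19 a2 n18
  have s372 : ¬ F.le q v62 → F.le v72 v172 → F.le q v111 → False := fun a0 a1 a2 =>
    have n1 : F.le q v68 := Classical.byContradiction fun w => c314 w a0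
    have n2 : ¬ F.le v172 v60 := fun w => c263 a1 w a0
    c328 a2 n1 n2
  have s373 : F.le v198 q → F.le q v64 → ¬ F.le q v82 → F.le q v191 → ¬ F.le v191 q → F.le q v84 → False := fun a0 a1 a2 a3 a4 a5 =>
    have n1 : F.le v54 v99 := Classical.byContradiction fun w => s345 a5 w
    have n2 : F.le v51 v54 := Classical.byContradiction fun w => c219 a5 n1 w
    have n3 : F.le q v32 := Classical.byContradiction fun w => c177 n2 n1 w
    have n4 : ¬ F.le v12 v124 := fun w => s343 a5 w
    have n5 : ¬ F.le q v131 := fun w => c260 w a0 a4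
    have n6 : F.le v131 q := Classical.byContradiction fun w => c292 a0 a3 w
    have n7 : ¬ F.le q v86 := fun w => s369 n5 w n4
    have n8 : F.le q v78 := Classical.byContradiction fun w => c295 n7 w
    have n9 : ¬ F.le v80 q := fun w => c160 w a5 n7
    have n10 : F.le q v198 := Classical.byContradiction fun w => c266 n6 n8 w
    have n11 : ¬ F.le v200 q := fun w => c117 n10 w n9
    have n12 : ¬ F.le v147 q := fun w => s334 w n11
    have n13 : ¬ F.le q v88 := fun w => c45 w n8 a2
    have n14 : F.le q v66 := Classical.byContradiction fun w => c94 n8 a1 w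
    have n15 : ¬ F.le v60 q := fun w => c169 w a5 n13
    have n16 : F.le q v60 := Classical.byContradiction fun w => c144 a5 n14 w
    have n17 : ¬ F.le v3 v139 := fun w => c74 n3 w n15
    have n18 : ¬ F.le v4 v92 := fun w => c327 n16 w n17
    have n19 : ¬ F.le q v93 := fun w => c326 n16 w n18
    have n20 : F.le q v101 := Classical.byContradiction fun w => c80 w n19
    have n21 : F.le v160 q := Classical.byContradiction fun w => c329 n20 n16 w
    c51 n20 n21 n12
  have s374 : ¬ F.le q v86 → F.le q v198 → F.le q v64 → F.le q v84 → False := fun a0 a1 a2 a3 =>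
    have n1 : F.le v54 v99 := Classical.byContradiction fun w => s345 a3 w
    have n2 : F.le v51 v54 := Classical.byContradiction fun w => c219 a3 n1 w
    have n3 : F.le q v32 := Classical.byContradiction fun w => c177 n2 n1 w
    have n4 : F.le q v78 := Classical.byContradiction fun w => c295 a0 w
    have n5 : ¬ F.le v80 q := fun w => c160 w a3 a0
    have n6 : ¬ F.le q v88 := fun w => c176 a2 w a0
    have n7 : F.le q v66 := Classical.byContradiction fun w => c94 n4 a2 w
    have n8 : ¬ F.le v200 q := fun w => c117 a1 w n5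
    have n9 : ¬ F.le v60 q := fun w => c169 w a3 n6
    have n10 : F.le q v60 := Classical.byContradiction fun w => c144 a3 n7 w
    have n11 : ¬ F.le v147 q := fun w => s334 w n8
    have n12 : ¬ F.le v3 v139 := fun w => c74 n3 w n9
    have n13 : ¬ F.le v4 v92 := fun w => c327 n10 w n12
    have n14 : ¬ F.le q v93 := fun w => c326 n10 w n13
    have n15 : F.le q v101 := Classical.byContradiction fun w => c80 w n14
    have n16 : F.le v160 q := Classical.byContradiction fun w => c329 n15 n10 w
    c51 n15 n16 n11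
  have s375 : F.le q v84 → ¬ F.le v111 q → F.le v121 q → False := fun a0 a1 a2 =>
    have n1 : F.le q v111 := Classical.byContradiction fun w => c150 w a1
    have n2 : ¬ F.le v12 v124 := fun w => s343 a0 w
    have n3 : ¬ F.le v70 q := fun w => s371 w a0 a1 a2
    have n4 : F.le q v70 := Classical.byContradiction fun w => c114 n3 w
    have n5 : ¬ F.le v191 q := fun w => s350 n3 w a2
    have n6 : F.le q v189 := Classical.byContradiction fun w => c124 a2 n4 w
    have n7 : F.le q v191 := Classical.byContradiction fun w => s351 n4 w a2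
    have n8 : F.le v72 v172 := Classical.byContradiction fun w => c76 n6 a2 w
    have n9 : F.le q v62 := Classical.byContradiction fun w => s372 w n8 n1
    have n10 : ¬ F.le q v82 := fun w => c2 n9 w n3
    have n11 : F.le q v64 := Classical.byContradiction fun w => c105 n4 n9 w
    have n12 : ¬ F.le v198 q := fun w => s373 w n11 n10 n7 n5 a0
    have n13 : F.le q v198 := Classical.byContradiction fun w => c130 w n12
    have n14 : F.le q v86 := Classical.byContradiction fun w => s374 w n13 n11 a0
    have n15 : F.le q v131 := Classical.byContradiction fun w => s369 w n14 n2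
    c244 n15 n14 n12
  have s376 : F.le v125 v84 → F.le v121 q → False := fun a0 a1 =>
    have n1 : F.le q v99 := Classical.byContradiction fun w => s331 w
    have n2 : ¬ F.le v3 v11 := fun w => c77 w
    have n3 : F.le v22 v125 := Classical.byContradiction fun w => c66 a0 n1 w
    have n4 : F.le q v21 := Classical.byContradiction fun w => c104 n3 a0 w
    have n5 : ¬ F.le v111 q := fun w => s370 w a0 a1
    have n6 : F.le q v111 := Classical.byContradiction fun w => c150 w n5
    have n7 : ¬ F.le q v84 := fun w => s375 w n5 a1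
    have n8 : F.le q v54 := Classical.byContradiction fun w => c288 n7 w
    have n9 : F.le q v131 := Classical.byContradiction fun w => s349 w n7 n4
    have n10 : F.le v155 q := Classical.byContradiction fun w => s338 n8 w
    have n11 : F.le v198 q := Classical.byContradiction fun w => s353 w n9 n10
    have n12 : F.le v191 q := Classical.byContradiction fun w => c260 n9 n11 w
    have n13 : F.le v70 q := Classical.byContradiction fun w => s350 w n12 a1
    have n14 : F.le v9 v77 := Classical.byContradiction fun w => c325 a1 n13 w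
    have n15 : F.le v20 v121 := Classical.byContradiction fun w => c54 n14 a1 w
    have n16 : F.le v20 q := Classical.byContradiction fun w => c23 n15 a1 w
    have n17 : F.le q v26 := Classical.byContradiction fun w => c136 n13 n16 w
    have n18 : F.le q v86 := Classical.byContradiction fun w => c84 n16 n4 w
    have n19 : ¬ F.le q v157 := fun w => c95 n17 w n5
    have n20 : ¬ F.le v5 v63 := fun w => c323 w n6 n19
    have n21 : ¬ F.le q v62 := fun w => c156 n6 w n20
    have n22 : ¬ F.le q v64 := fun w => c275 n13 w n21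
    have n23 : ¬ F.le q v66 := fun w => c137 n18 w n22
    have n24 : F.le q v88 := Classical.byContradiction fun w => c97 w n23
    have n25 : ¬ F.le q v60 := fun w => c12 w n24 n7
    have n26 : F.le q v101 := Classical.byContradiction fun w => c55 n2 n7 w n25
    have n27 : F.le v5 v61 := Classical.byContradiction fun w => c72 n25 w n21 n20
    c26 n26 n27 n25
  have s377 : ¬ F.le q v64 → F.le q v86 → F.le v113 v28 → F.le v121 q → False := fun a0 a1 a2 a3 =>
    have n1 : ¬ F.le v3 v11 := fun w => c77 w
    have n2 : ¬ F.le v125 v84 := fun w => s376 w a3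
    have n3 : ¬ F.le q v84 := fun w => s340 w n2
    have n4 : F.le q v82 := Classical.byContradiction fun w => c213 w a0
    have n5 : ¬ F.le q v66 := fun w => c137 a1 w a0
    have n6 : F.le v64 v113 := Classical.byContradiction fun w => c225 n4 a3 w
    have n7 : F.le q v88 := Classical.byContradiction fun w => c97 w n5
    have n8 : F.le v17 q := Classical.byContradiction fun w => c164 n6 a2 w
    have n9 : ¬ F.le q v60 := fun w => c12 w n7 n3
    have n10 : F.le v60 q := Classical.byContradiction fun w => c11 n9 w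
    have n11 : F.le q v101 := Classical.byContradiction fun w => c55 n1 n3 w n9
    have n12 : ¬ F.le q v93 := fun w => s348 n9 w n3
    have n13 : F.le v92 v4 := Classical.byContradiction fun w => c179 n11 n10 w
    have n14 : ¬ F.le q v144 := fun w => c316 n8 w n12
    c102 n13 n11 n14
  have s378 : F.le v111 q → F.le q v62 → F.le q v64 → F.le q v86 → F.le q v131 → F.le v121 q → False := fun a0 a1 a2 a3 a4 a5 =>
    have n1 : ¬ F.le v125 v84 := fun w => s376 w a5
    have n2 : ¬ F.le q v84 := fun w => s340 w n1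
    have n3 : F.le v60 v172 := Classical.byContradiction fun w => c62 a0 a1 w
    have n4 : ¬ F.le q v178 := fun w => s357 n3 w a3 a4 n2 a0 a5
    c27 a2 n3 n4
  have s379 : F.le q v86 → F.le v70 q → F.le q v131 → F.le v121 q → False := fun a0 a1 a2 a3 =>
    have n1 : F.le v9 v77 := Classical.byContradiction fun w => c325 a3 a1 w
    have n2 : F.le v20 v121 := Classical.byContradiction fun w => c54 n1 a3 w
    have n3 : F.le v20 q := Classical.byContradiction fun w => c23 n2 a3 w
    have n4 : F.le q v26 := Classical.byContradiction fun w => c136 a1 n3 w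
    have n5 : F.le v70 v113 := Classical.byContradiction fun w => c79 a1 a3 w
    have n6 : F.le v113 v28 := Classical.byContradiction fun w => c165 n5 a3 w
    have n7 : F.le q v64 := Classical.byContradiction fun w => s377 w a0 n6 a3
    have n8 : F.le q v62 := Classical.byContradiction fun w => c275 a1 n7 w
    have n9 : ¬ F.le v111 q := fun w => s378 w n8 n7 a0 a2 a3
    have n10 : F.le q v111 := Classical.byContradiction fun w => c150 w n9
    have n11 : ¬ F.le q v157 := fun w => c95 n4 w n9
    have n12 : F.le v5 v63 := Classical.byContradiction fun w => c156 n10 n8 w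
    c323 n12 n10 n11
  have s380 : F.le v60 v172 → F.le v111 q → ¬ F.le q v70 → F.le q v78 → F.le v36 q → F.le v113 v28 → F.le v76 v47 → F.le v121 q → False := fun a0 a1 a2 a3 a4 a5 a6 a7 =>
    have n1 : ¬ F.le v3 v11 := fun w => c77 w
    have n2 : ¬ F.le v125 v84 := fun w => s376 w a7
    have n3 : ¬ F.le q v84 := fun w => s340 w n2
    have n4 : F.le q v54 := Classical.byContradiction fun w => c288 n3 w
    have n5 : F.le v155 q := Classical.byContradiction fun w => s338 n4 w
    have n6 : F.le v147 q := Classical.byContradiction fun w => c110 n5 n4 w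
    have n7 : F.le q v162 := Classical.byContradiction fun w => c148 a0 a1 w
    have n8 : ¬ F.le v77 v16 := fun w => c175 w a0 a2
    have n9 : F.le q v32 := Classical.byContradiction fun w => s356 w n7 n3
    have n10 : F.le v77 v3 := Classical.byContradiction fun w => c204 a6 n9 w
    have n11 : F.le v109 q := Classical.byContradiction fun w => c303 a4 n9 w
    have n12 : ¬ F.le v149 q := fun w => c246 n10 w n8
    have n13 : F.le v60 v147 := Classical.byContradiction fun w => c291 a0 n11 w
    have n14 : ¬ F.le q v60 := fun w => c87 n6 w n12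
    have n15 : F.le q v88 := Classical.byContradiction fun w => c256 n13 n5 w
    have n16 : F.le v60 q := Classical.byContradiction fun w => c11 n14 w
    have n17 : F.le q v101 := Classical.byContradiction fun w => c55 n1 n3 w n14
    have n18 : ¬ F.le q v93 := fun w => s348 n14 w n3
    have n19 : F.le q v82 := Classical.byContradiction fun w => c45 n15 a3 w
    have n20 : F.le v92 v4 := Classical.byContradiction fun w => c179 n17 n16 w
    have n21 : F.le v64 v113 := Classical.byContradiction fun w => c225 n19 a7 w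
    have n22 : F.le q v144 := Classical.byContradiction fun w => c102 n20 n17 w
    have n23 : F.le v17 q := Classical.byContradiction fun w => c164 n21 a5 w
    c316 n23 n22 n18
  have s381 : F.le v111 q → ¬ F.le q v70 → F.le q v78 → F.le q v26 → F.le v36 q → F.le v113 v28 → F.le v76 v47 → F.le q v131 → F.le v121 q → False := fun a0 a1 a2 a3 a4 a5 a6 a7 a8 =>
    have n1 : ¬ F.le v3 v11 := fun w => c77 w
    have n2 : F.le v12 v130 := Classical.byContradiction fun w => c91 a2 a7 w
    have n3 : F.le v131 v21 := Classical.byContradiction fun w => c21 n2 a7 w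
    have n4 : F.le v9 v79 := Classical.byContradiction fun w => c267 a7 a2 w
    have n5 : F.le v78 v38 := Classical.byContradiction fun w => c193 a2 n4 w
    have n6 : F.le v117 q := Classical.byContradiction fun w => s335 a7 w
    have n7 : ¬ F.le v125 v84 := fun w => s376 w a8
    have n8 : ¬ F.le q v84 := fun w => s340 w n7
    have n9 : ¬ F.le v60 v172 := fun w => s380 w a0 a1 a2 a4 a5 a6 a8
    have n10 : ¬ F.le q v62 := fun w => c62 a0 w n9
    have n11 : F.le q v68 := Classical.byContradiction fun w => c314 w n10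
    have n12 : ¬ F.le v78 v62 := fun w => c119 a2 w n10
    have n13 : F.le v6 v102 := Classical.byContradiction fun w => c58 n11 a0 w
    have n14 : F.le v17 q := Classical.byContradiction fun w => c17 n11 a3 w
    have n15 : F.le v5 v140 := Classical.byContradiction fun w => c9 n11 n13 w
    have n16 : F.le v17 v131 := Classical.byContradiction fun w => c47 n14 a7 w
    have n17 : ¬ F.le v78 v34 := fun w => c279 w n15 n12
    have n18 : F.le q v88 := Classical.byContradiction fun w => c203 n16 n3 w
    have n19 : ¬ F.le v185 v160 := fun w => c231 n5 w n17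
    have n20 : ¬ F.le q v60 := fun w => c12 w n18 n8
    have n21 : ¬ F.le q v101 := fun w => c149 n6 w n19
    c55 n1 n8 n21 n20
  have s382 : F.le q v131 → F.le v198 q → F.le v121 q → False := fun a0 a1 a2 =>
    have n1 : ¬ F.le v3 v11 := fun w => c77 w
    have n2 : ¬ F.le v125 v84 := fun w => s376 w a2
    have n3 : ¬ F.le q v84 := fun w => s340 w n2
    have n4 : F.le q v54 := Classical.byContradiction fun w => c288 n3 w
    have n5 : F.le v155 q := Classical.byContradiction fun w => s338 n4 w
    have n6 : F.le v191 q := Classical.byContradiction fun w => c260 a0 a1 w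
    have n7 : F.le v70 q := Classical.byContradiction fun w => s350 w n6 a2
    have n8 : F.le v9 v77 := Classical.byContradiction fun w => c325 a2 n7 w
    have n9 : F.le v70 v113 := Classical.byContradiction fun w => c79 n7 a2 w
    have n10 : F.le v76 v47 := Classical.byContradiction fun w => c216 n7 n8 w
    have n11 : F.le v20 v121 := Classical.byContradiction fun w => c54 n8 a2 w
    have n12 : F.le v113 v28 := Classical.byContradiction fun w => c165 n9 a2 w
    have n13 : F.le v36 v70 := Classical.byContradiction fun w => c187 n7 n9 w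
    have n14 : F.le v20 q := Classical.byContradiction fun w => c23 n11 a2 w
    have n15 : F.le v36 q := Classical.byContradiction fun w => c98 n13 n7 w
    have n16 : F.le q v26 := Classical.byContradiction fun w => c136 n7 n14 w
    have n17 : ¬ F.le q v86 := fun w => s379 w n7 a0 a2
    have n18 : F.le q v78 := Classical.byContradiction fun w => c295 n17 w
    have n19 : ¬ F.le v80 v147 := fun w => c121 w n5 n17
    have n20 : F.le v12 v130 := Classical.byContradiction fun w => c91 n18 a0 w
    have n21 : ¬ F.le q v198 := fun w => s341 w n19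
    have n22 : F.le v131 v21 := Classical.byContradiction fun w => c21 n20 a0 w
    have n23 : ¬ F.le v131 q := fun w => c266 w n18 n21
    have n24 : ¬ F.le q v191 := fun w => c292 a1 w n23
    have n25 : ¬ F.le q v70 := fun w => s351 w n24 a2
    have n26 : ¬ F.le v111 q := fun w => s381 w n25 n18 n16 n15 n12 n10 a0 a2
    have n27 : F.le q v111 := Classical.byContradiction fun w => c150 w n26
    have n28 : ¬ F.le q v157 := fun w => c95 n16 w n26
    have n29 : ¬ F.le v5 v63 := fun w => c323 w n27 n28
    have n30 : ¬ F.le q v62 := fun w => c156 n27 w n29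
    have n31 : F.le q v68 := Classical.byContradiction fun w => c314 w n30
    have n32 : F.le v17 q := Classical.byContradiction fun w => c17 n31 n16 w
    have n33 : F.le v17 v131 := Classical.byContradiction fun w => c47 n32 a0 w
    have n34 : F.le q v88 := Classical.byContradiction fun w => c203 n33 n22 w
    have n35 : ¬ F.le q v60 := fun w => c12 w n34 n3
    have n36 : F.le q v101 := Classical.byContradiction fun w => c55 n1 n3 w n35
    have n37 : F.le v5 v61 := Classical.byContradiction fun w => c72 n35 w n30 n29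
    c26 n36 n37 n35
  have s383 : F.le q v88 → F.le v21 q → ¬ F.le q v84 → False := fun a0 a1 a2 =>
    have n1 : ¬ F.le v3 v11 := fun w => c77 w
    have n2 : ¬ F.le q v60 := fun w => c12 w a0 a2
    have n3 : F.le v17 q := Classical.byContradiction fun w => c8 a0 a1 w
    have n4 : F.le v60 q := Classical.byContradiction fun w => c11 n2 w
    have n5 : F.le q v101 := Classical.byContradiction fun w => c55 n1 a2 w n2
    have n6 : ¬ F.le q v93 := fun w => s348 n2 w a2
    have n7 : F.le v92 v4 := Classical.byContradiction fun w => c179 n5 n4 w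
    have n8 : ¬ F.le q v144 := fun w => c316 n3 w n6
    c102 n7 n5 n8
  have s384 : F.le v70 q → F.le v111 q → ¬ F.le q v131 → F.le v121 q → False := fun a0 a1 a2 a3 =>
    have n1 : ¬ F.le v125 v84 := fun w => s376 w a3
    have n2 : ¬ F.le q v84 := fun w => s340 w n1
    have n3 : F.le q v54 := Classical.byContradiction fun w => c288 n2 w
    have n4 : F.le v155 q := Classical.byContradiction fun w => s338 n3 w
    have n5 : F.le v131 q := Classical.byContradiction fun w => c192 a2 w
    have n6 : F.le q v86 := Classical.byContradiction fun w => s347 n2 w a2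
    have n7 : F.le v11 v87 := Classical.byContradiction fun w => c310 n5 n6 w
    have n8 : F.le v21 v131 := Classical.byContradiction fun w => c185 n7 n5 w
    have n9 : F.le v21 q := Classical.byContradiction fun w => c6 n8 n5 w
    have n10 : ¬ F.le q v88 := fun w => s383 w n9 n2
    have n11 : ¬ F.le v60 v147 := fun w => c256 w n4 n10
    have n12 : F.le v70 v113 := Classical.byContradiction fun w => c79 a0 a3 w
    have n13 : F.le q v62 := Classical.byContradiction fun w => s358 w n6 a0 n2 a1
    have n14 : F.le v36 v70 := Classical.byContradiction fun w => c187 a0 n12 w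
    have n15 : F.le v60 v172 := Classical.byContradiction fun w => c62 a1 n13 w
    have n16 : F.le v36 q := Classical.byContradiction fun w => c98 n14 a0 w
    have n17 : F.le q v162 := Classical.byContradiction fun w => c148 n15 a1 w
    have n18 : ¬ F.le v109 q := fun w => c291 n15 w n11
    have n19 : F.le q v32 := Classical.byContradiction fun w => s356 w n17 n2
    c303 n16 n19 n18
  have s386 : F.le v93 v95 → ¬ F.le v93 v149 → F.le v149 v151 → False := fun a0 a1 a2 =>
    have n1 : F.le v95 v149 := Classical.byContradiction fun w => c116 a0 a2 w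
    c242 a0 n1 a1
  have s387 : F.le v7 v71 → ¬ F.le v141 v71 → F.le q v70 → False := fun a0 a1 a2 =>
    have n1 : F.le v141 v7 := Classical.byContradiction fun w => c172 a2 a0 w
    c133 n1 a0 a1
  have s388 : F.le q v144 → ¬ F.le q v145 → ¬ F.le v96 v94 → ¬ F.le v97 v95 → F.le v149 v151 → ¬ F.le v22 v147 → False := fun a0 a1 a2 a3 a4 a5 =>
    have n1 : ¬ F.le v93 v149 := fun w => c247 a0 w a5
    have n2 : ¬ F.le v92 v94 := fun w => c48 a0 w a1
    have n3 : ¬ F.le v93 v95 := fun w => s386 w n1 a4
    c173 n2 n3 a2 a3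
  have s389 : F.le v60 v172 → F.le v111 q → ¬ F.le q v131 → F.le v121 q → False := fun a0 a1 a2 a3 =>
    have n1 : ¬ F.le v125 v84 := fun w => s376 w a3
    have n2 : ¬ F.le q v84 := fun w => s340 w n1
    have n3 : F.le q v54 := Classical.byContradiction fun w => c288 n2 w
    have n4 : F.le v155 q := Classical.byContradiction fun w => s338 n3 w
    have n5 : F.le v131 q := Classical.byContradiction fun w => c192 a2 w
    have n6 : F.le q v86 := Classical.byContradiction fun w => s347 n2 w a2
    have n7 : F.le v11 v87 := Classical.byContradiction fun w => c310 n5 n6 w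
    have n8 : F.le v21 v131 := Classical.byContradiction fun w => c185 n7 n5 w
    have n9 : F.le v21 q := Classical.byContradiction fun w => c6 n8 n5 w
    have n10 : ¬ F.le q v88 := fun w => s383 w n9 n2
    have n11 : F.le q v66 := Classical.byContradiction fun w => c97 n10 w
    have n12 : F.le v149 q := Classical.byContradiction fun w => c82 n4 n11 w
    have n13 : ¬ F.le v70 q := fun w => s384 w a1 a2 a3
    have n14 : F.le q v70 := Classical.byContradiction fun w => c114 n13 w
    have n15 : F.le q v189 := Classical.byContradiction fun w => c124 a3 n14 w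
    have n16 : F.le v149 v189 := Classical.byContradiction fun w => c215 n12 n15 w
    have n17 : ¬ F.le v60 v147 := fun w => c256 w n4 n10
    have n18 : F.le v87 v2 := Classical.byContradiction fun w => c298 n6 n7 w
    have n19 : F.le v153 v49 := Classical.byContradiction fun w => c162 n4 n18 w
    have n20 : F.le v10 v122 := Classical.byContradiction fun w => c184 n6 n5 w
    have n21 : F.le v38 v78 := Classical.byContradiction fun w => c30 n6 n20 w
    have n22 : F.le v38 q := Classical.byContradiction fun w => c33 n21 n6 w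
    have n23 : ¬ F.le q v21 := fun w => s349 a2 n2 w
    have n24 : ¬ F.le v22 v147 := fun w => c153 w n4 n23
    have n25 : F.le q v162 := Classical.byContradiction fun w => c148 a0 a1 w
    have n26 : ¬ F.le v109 q := fun w => c291 a0 w n17
    have n27 : F.le q v32 := Classical.byContradiction fun w => s356 w n25 n2
    have n28 : F.le q v101 := Classical.byContradiction fun w => c309 n12 n25 w
    have n29 : F.le q v109 := Classical.byContradiction fun w => c49 w n26
    have n30 : F.le v117 q := Classical.byContradiction fun w => c90 n22 n27 w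
    have n31 : F.le v191 v49 := Classical.byContradiction fun w => c254 n30 n19 w
    have n32 : F.le v149 v151 := Classical.byContradiction fun w => c289 n16 n30 w
    have n33 : ¬ F.le v97 v95 := fun w => c99 n30 w n26
    have n34 : F.le v191 v97 := Classical.byContradiction fun w => c143 n31 n27 w
    have n35 : F.le v71 v2 := Classical.byContradiction fun w => c277 n15 n31 w
    have n36 : F.le v70 v97 := Classical.byContradiction fun w => c39 n15 n34 w
    have n37 : F.le v191 v113 := Classical.byContradiction fun w => c202 n34 n29 w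
    have n38 : ¬ F.le v141 v71 := fun w => c38 w n35 n13
    have n39 : ¬ F.le v96 v94 := fun w => c101 n36 w n26
    have n40 : F.le v70 v113 := Classical.byContradiction fun w => c44 n15 n37 w
    have n41 : F.le v113 v28 := Classical.byContradiction fun w => c165 n40 a3 w
    have n42 : ¬ F.le v7 v71 := fun w => s387 w n38 n14
    have n43 : ¬ F.le v170 v145 := fun w => c100 w n29 n42
    have n44 : ¬ F.le q v145 := fun w => c134 n41 w n43
    have n45 : ¬ F.le q v144 := fun w => s388 w n44 n39 n33 n32 n24
    have n46 : ¬ F.le v92 v4 := fun w => c102 w n28 n45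
    have n47 : ¬ F.le v60 q := fun w => c179 n28 w n46
    have n48 : F.le q v60 := Classical.byContradiction fun w => c11 w n47
    have n49 : ¬ F.le v160 q := fun w => c209 n25 w n47
    c329 n28 n48 n49
  have s390 : F.le v111 q → ¬ F.le q v131 → F.le v121 q → False := fun a0 a1 a2 =>
    have n1 : ¬ F.le v125 v84 := fun w => s376 w a2
    have n2 : ¬ F.le q v84 := fun w => s340 w n1
    have n3 : F.le q v54 := Classical.byContradiction fun w => c288 n2 w
    have n4 : F.le v155 q := Classical.byContradiction fun w => s338 n3 w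
    have n5 : F.le v131 q := Classical.byContradiction fun w => c192 a1 w
    have n6 : F.le q v86 := Classical.byContradiction fun w => s347 n2 w a1
    have n7 : F.le v11 v87 := Classical.byContradiction fun w => c310 n5 n6 w
    have n8 : F.le v21 v131 := Classical.byContradiction fun w => c185 n7 n5 w
    have n9 : F.le v21 q := Classical.byContradiction fun w => c6 n8 n5 w
    have n10 : ¬ F.le q v88 := fun w => s383 w n9 n2
    have n11 : F.le q v66 := Classical.byContradiction fun w => c97 n10 w
    have n12 : F.le v149 q := Classical.byContradiction fun w => c82 n4 n11 w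
    have n13 : ¬ F.le v70 q := fun w => s384 w a0 a1 a2
    have n14 : F.le q v70 := Classical.byContradiction fun w => c114 n13 w
    have n15 : F.le q v189 := Classical.byContradiction fun w => c124 a2 n14 w
    have n16 : F.le v72 v172 := Classical.byContradiction fun w => c76 n15 a2 w
    have n17 : ¬ F.le v60 v172 := fun w => s389 w a0 a1 a2
    have n18 : ¬ F.le q v62 := fun w => c62 a0 w n17
    have n19 : F.le q v68 := Classical.byContradiction fun w => c314 w n18
    have n20 : ¬ F.le v172 v60 := fun w => c263 n16 w n18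
    have n21 : F.le v34 q := Classical.byContradiction fun w => s361 n19 w a0
    have n22 : ¬ F.le v160 v60 := fun w => c198 a0 w n20
    have n23 : F.le q v162 := Classical.byContradiction fun w => c131 w n22
    have n24 : F.le q v32 := Classical.byContradiction fun w => s356 w n23 n2
    have n25 : F.le q v101 := Classical.byContradiction fun w => c309 n12 n23 w
    have n26 : F.le q v93 := Classical.byContradiction fun w => c208 n21 n24 w
    have n27 : F.le q v60 := Classical.byContradiction fun w => s348 w n26 n2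
    have n28 : F.le v160 q := Classical.byContradiction fun w => c329 n25 n27 w
    c276 n28 n27 n22
  have s391 : ¬ F.le v70 q → ¬ F.le q v131 → F.le v121 q → False := fun a0 a1 a2 =>
    have n1 : F.le v131 q := Classical.byContradiction fun w => c192 a1 w
    have n2 : ¬ F.le v125 v84 := fun w => s376 w a2
    have n3 : ¬ F.le q v84 := fun w => s340 w n2
    have n4 : F.le q v86 := Classical.byContradiction fun w => s347 n3 w a1
    have n5 : F.le v11 v87 := Classical.byContradiction fun w => c310 n1 n4 w
    have n6 : F.le v21 v131 := Classical.byContradiction fun w => c185 n5 n1 w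
    have n7 : F.le v21 q := Classical.byContradiction fun w => c6 n6 n1 w
    have n8 : ¬ F.le v111 q := fun w => s390 w a1 a2
    have n9 : F.le q v111 := Classical.byContradiction fun w => c150 w n8
    have n10 : F.le v21 v111 := Classical.byContradiction fun w => c285 n7 n9 w
    have n11 : F.le v10 v122 := Classical.byContradiction fun w => c184 n4 n1 w
    have n12 : F.le v184 q := Classical.byContradiction fun w => c253 n11 n1 w
    have n13 : F.le v184 v111 := Classical.byContradiction fun w => c258 n12 n9 w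
    have n14 : ¬ F.le v111 v184 := fun w => c197 w n12 n8
    have n15 : F.le q v54 := Classical.byContradiction fun w => c288 n3 w
    have n16 : F.le v155 q := Classical.byContradiction fun w => s338 n15 w
    have n17 : F.le v87 v2 := Classical.byContradiction fun w => c298 n4 n5 w
    have n18 : F.le v153 v49 := Classical.byContradiction fun w => c162 n16 n17 w
    have n19 : ¬ F.le q v78 := fun w => s333 w n4 n3 a1
    have n20 : F.le v38 v78 := Classical.byContradiction fun w => c30 n4 n11 w
    have n21 : ¬ F.le q v38 := fun w => c35 w n20 n19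
    have n22 : F.le v38 q := Classical.byContradiction fun w => c33 n20 n4 w
    have n23 : F.le q v70 := Classical.byContradiction fun w => c114 a0 w
    have n24 : F.le q v189 := Classical.byContradiction fun w => c124 a2 n23 w
    have n25 : F.le v72 v172 := Classical.byContradiction fun w => c76 n24 a2 w
    have n26 : F.le q v62 := Classical.byContradiction fun w => s372 w n25 n9
    have n27 : ¬ F.le v111 v68 := fun w => c234 w n26 n8
    have n28 : F.le v38 v62 := Classical.byContradiction fun w => c32 n22 n26 w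
    have n29 : F.le v5 v63 := Classical.byContradiction fun w => c156 n9 n26 w
    have n30 : F.le v8 v110 := Classical.byContradiction fun w => c206 n26 n9 w
    have n31 : F.le v62 v34 := Classical.byContradiction fun w => c321 n26 n29 w
    have n32 : F.le v111 v19 := Classical.byContradiction fun w => c61 n30 n9 w
    have n33 : F.le v2 v69 := Classical.byContradiction fun w => c113 n26 n30 w
    have n34 : F.le v185 v160 := Classical.byContradiction fun w => c142 n28 n31 w
    have n35 : ¬ F.le v74 v123 := fun w => c207 n32 w n14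
    have n36 : F.le v123 v74 := Classical.byContradiction fun w => c297 n13 n32 w
    have n37 : F.le v90 q := Classical.byContradiction fun w => c170 n10 n32 w
    have n38 : ¬ F.le v68 v119 := fun w => c141 n33 w n21
    have n39 : ¬ F.le v113 q := fun w => c93 w n34 n8
    have n40 : F.le v72 v160 := Classical.byContradiction fun w => c182 n24 n34 w
    have n41 : ¬ F.le v193 v123 := fun w => c88 n24 w n35
    have n42 : F.le v122 v35 := Classical.byContradiction fun w => c319 n36 n40 w
    have n43 : F.le q v193 := Classical.byContradiction fun w => c273 n37 n24 w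
    have n44 : ¬ F.le v162 v119 := fun w => c271 n40 w n38
    have n45 : F.le v7 v71 := Classical.byContradiction fun w => c274 n27 n8 w n39
    have n46 : F.le v141 v71 := Classical.byContradiction fun w => s387 n45 w n23
    have n47 : ¬ F.le v71 v2 := fun w => c38 n46 w a0
    have n48 : ¬ F.le v191 v49 := fun w => c277 n24 w n47
    have n49 : ¬ F.le v117 q := fun w => c254 w n18 n48
    have n50 : F.le q v117 := Classical.byContradiction fun w => c147 w n49
    have n51 : ¬ F.le q v32 := fun w => c90 n22 w n49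
    have n52 : ¬ F.le v117 v119 := fun w => c129 w n34 n49
    have n53 : F.le q v43 := Classical.byContradiction fun w => c122 w n51
    have n54 : F.le q v60 := Classical.byContradiction fun w => s355 w n51 n3
    have n55 : F.le v32 v62 := Classical.byContradiction fun w => c188 n53 n26 w
    have n56 : F.le q v101 := Classical.byContradiction fun w => c240 n55 n31 w
    have n57 : F.le v160 q := Classical.byContradiction fun w => c329 n56 n54 w
    have n58 : F.le v160 v193 := Classical.byContradiction fun w => c59 n57 n43 w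
    have n59 : ¬ F.le v52 v119 := fun w => c157 n57 w n44
    have n60 : ¬ F.le v116 v35 := fun w => c146 w n57 n49
    have n61 : F.le v185 v193 := Classical.byContradiction fun w => c293 n34 n58 w
    have n62 : ¬ F.le v116 v118 := fun w => c205 n50 w n59
    have n63 : ¬ F.le v116 v122 := fun w => c159 w n42 n60
    have n64 : F.le v117 v123 := Classical.byContradiction fun w => c19 n63 w n62 n52
    have n65 : F.le v193 v117 := Classical.byContradiction fun w => c227 n64 n61 w
    c243 n65 n64 n41
  have s392 : ¬ F.le q v131 → F.le v121 q → False := fun a0 a1 =>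
    have n1 : ¬ F.le v125 v84 := fun w => s376 w a1
    have n2 : ¬ F.le q v84 := fun w => s340 w n1
    have n3 : F.le v131 q := Classical.byContradiction fun w => c192 a0 w
    have n4 : F.le q v86 := Classical.byContradiction fun w => s347 n2 w a0
    have n5 : F.le v11 v87 := Classical.byContradiction fun w => c310 n3 n4 w
    have n6 : F.le v21 v131 := Classical.byContradiction fun w => c185 n5 n3 w
    have n7 : F.le v21 q := Classical.byContradiction fun w => c6 n6 n3 w
    have n8 : ¬ F.le q v88 := fun w => s383 w n7 n2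
    have n9 : F.le q v66 := Classical.byContradiction fun w => c97 n8 w
    have n10 : F.le q v64 := Classical.byContradiction fun w => c137 n4 n9 w
    have n11 : ¬ F.le v111 q := fun w => s390 w a0 a1
    have n12 : F.le q v111 := Classical.byContradiction fun w => c150 w n11
    have n13 : F.le v70 q := Classical.byContradiction fun w => s391 w a0 a1
    have n14 : F.le v9 v77 := Classical.byContradiction fun w => c325 a1 n13 w
    have n15 : F.le q v62 := Classical.byContradiction fun w => c275 n13 n10 w
    have n16 : F.le v20 v121 := Classical.byContradiction fun w => c54 n14 a1 w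
    have n17 : F.le v5 v63 := Classical.byContradiction fun w => c156 n12 n15 w
    have n18 : F.le v20 q := Classical.byContradiction fun w => c23 n16 a1 w
    have n19 : F.le q v157 := Classical.byContradiction fun w => c323 n17 n12 w
    have n20 : F.le q v26 := Classical.byContradiction fun w => c136 n13 n18 w
    c95 n20 n19 n11
  have s393 : F.le v121 q → False := fun a0 =>
    have n1 : ¬ F.le v125 v84 := fun w => s376 w a0
    have n2 : ¬ F.le q v84 := fun w => s340 w n1
    have n3 : F.le q v54 := Classical.byContradiction fun w => c288 n2 w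
    have n4 : F.le v155 q := Classical.byContradiction fun w => s338 n3 w
    have n5 : F.le q v131 := Classical.byContradiction fun w => s392 w a0
    have n6 : F.le v198 q := Classical.byContradiction fun w => s353 w n5 n4
    s382 n5 n6 a0
  have s394 : ¬ F.le v113 q → False := fun a0 =>
    have n1 : ¬ F.le v121 q := fun w => s393 w
    c302 a0 n1
  have s395 : ¬ F.le q v84 → ¬ F.le q v131 → False := fun a0 a1 =>
    have n1 : ¬ F.le v121 q := fun w => s393 w
    have n2 : F.le v113 q := Classical.byContradiction fun w => s394 w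
    have n3 : F.le v131 q := Classical.byContradiction fun w => c192 a1 w
    have n4 : F.le q v86 := Classical.byContradiction fun w => s347 a0 w a1
    have n5 : ¬ F.le q v78 := fun w => s333 w n4 a0 a1
    have n6 : F.le v10 v122 := Classical.byContradiction fun w => c184 n4 n3 w
    have n7 : F.le v11 v87 := Classical.byContradiction fun w => c310 n3 n4 w
    have n8 : F.le v70 q := Classical.byContradiction fun w => c233 n1 w a1 n5
    have n9 : F.le v38 v78 := Classical.byContradiction fun w => c30 n4 n6 w
    have n10 : F.le v21 v131 := Classical.byContradiction fun w => c185 n7 n3 w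
    have n11 : F.le v189 q := Classical.byContradiction fun w => c83 n2 n8 w
    have n12 : F.le v38 q := Classical.byContradiction fun w => c33 n9 n4 w
    have n13 : F.le v21 q := Classical.byContradiction fun w => c6 n10 n3 w
    have n14 : F.le v191 q := Classical.byContradiction fun w => c201 n11 n8 w
    have n15 : ¬ F.le q v88 := fun w => s383 w n13 a0
    have n16 : F.le q v66 := Classical.byContradiction fun w => c97 n15 w
    have n17 : F.le q v64 := Classical.byContradiction fun w => c137 n4 n16 w
    have n18 : F.le q v62 := Classical.byContradiction fun w => c275 n8 n17 w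
    have n19 : F.le v187 q := Classical.byContradiction fun w => c1 n14 n17 w
    have n20 : F.le v38 v62 := Classical.byContradiction fun w => c32 n12 n18 w
    have n21 : ¬ F.le v60 v172 := fun w => c29 n19 w n1
    have n22 : ¬ F.le v111 q := fun w => c62 w n18 n21
    have n23 : F.le q v111 := Classical.byContradiction fun w => c150 w n22
    have n24 : ¬ F.le v185 v160 := fun w => c93 n2 w n22
    have n25 : F.le v5 v63 := Classical.byContradiction fun w => c156 n23 n18 w
    have n26 : ¬ F.le v62 v34 := fun w => c142 n20 w n24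
    c321 n18 n25 n26
  have s396 : ¬ F.le v70 q → F.le v111 q → ¬ F.le q v131 → False := fun a0 a1 a2 =>
    have n1 : F.le q v99 := Classical.byContradiction fun w => s331 w
    have n2 : F.le q v84 := Classical.byContradiction fun w => s395 w a2
    have n3 : ¬ F.le v12 v124 := fun w => s343 n2 w
    have n4 : ¬ F.le q v86 := fun w => s369 a2 w n3
    have n5 : F.le v131 q := Classical.byContradiction fun w => c192 a2 w
    have n6 : F.le q v78 := Classical.byContradiction fun w => c295 n4 w
    have n7 : F.le q v198 := Classical.byContradiction fun w => c266 n5 n6 w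
    have n8 : ¬ F.le q v64 := fun w => s374 n4 n7 w n2
    have n9 : F.le q v82 := Classical.byContradiction fun w => c213 w n8
    have n10 : F.le v125 v84 := Classical.byContradiction fun w => s340 n2 w
    have n11 : F.le v22 v125 := Classical.byContradiction fun w => c66 n10 n1 w
    have n12 : F.le q v21 := Classical.byContradiction fun w => c104 n11 n10 w
    have n13 : ¬ F.le v20 q := fun w => c84 w n12 n4
    have n14 : F.le q v70 := Classical.byContradiction fun w => c114 a0 w
    have n15 : ¬ F.le q v62 := fun w => c2 w n9 a0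
    have n16 : ¬ F.le q v26 := fun w => c63 n14 w n13
    have n17 : F.le q v68 := Classical.byContradiction fun w => c314 w n15
    have n18 : ¬ F.le v103 v26 := fun w => c195 a1 w n16
    have n19 : F.le v6 v102 := Classical.byContradiction fun w => c58 n17 a1 w
    c56 n19 a1 n18
  have s397 : F.le v70 q → ¬ F.le v191 q → False := fun a0 a1 =>
    have n1 : F.le v113 q := Classical.byContradiction fun w => s394 w
    have n2 : F.le v189 q := Classical.byContradiction fun w => c83 n1 a0 w
    c201 n2 a0 a1
  have s398 : ¬ F.le q v131 → False := fun a0 =>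
    have n1 : F.le v131 q := Classical.byContradiction fun w => c192 a0 w
    have n2 : F.le q v84 := Classical.byContradiction fun w => s395 w a0
    have n3 : ¬ F.le v98 v4 := fun w => s332 n2 w
    have n4 : ¬ F.le v12 v124 := fun w => s343 n2 w
    have n5 : ¬ F.le q v86 := fun w => s369 a0 w n4
    have n6 : F.le q v78 := Classical.byContradiction fun w => c295 n5 w
    have n7 : F.le q v198 := Classical.byContradiction fun w => c266 n1 n6 w
    have n8 : F.le v80 v147 := Classical.byContradiction fun w => s341 n7 w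
    have n9 : ¬ F.le v191 q := fun w => c250 w n7 a0
    have n10 : ¬ F.le q v64 := fun w => s374 n5 n7 w n2
    have n11 : F.le q v82 := Classical.byContradiction fun w => c213 w n10
    have n12 : F.le v60 v147 := Classical.byContradiction fun w => c10 n11 n8 w
    have n13 : ¬ F.le v70 q := fun w => s397 w n9
    have n14 : ¬ F.le q v62 := fun w => c2 w n11 n13
    have n15 : ¬ F.le v111 q := fun w => s396 n13 w a0
    have n16 : F.le q v68 := Classical.byContradiction fun w => c314 w n14
    have n17 : F.le q v111 := Classical.byContradiction fun w => c150 w n15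
    have n18 : F.le v172 v60 := Classical.byContradiction fun w => c328 n17 n16 w
    have n19 : F.le v109 q := Classical.byContradiction fun w => c161 n18 n12 w
    have n20 : ¬ F.le q v101 := fun w => c220 n19 w n15
    have n21 : F.le v92 v4 := Classical.byContradiction fun w => s337 n20 w n3
    have n22 : F.le q v60 := Classical.byContradiction fun w => c317 n20 w n15 n14
    c200 n21 n22 n20
  have s399 : ¬ F.le v117 q → False := fun a0 =>
    have n1 : F.le q v131 := Classical.byContradiction fun w => s398 w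
    s335 n1 a0
  have s400 : F.le q v109 → False := fun a0 =>
    have n1 : F.le v117 q := Classical.byContradiction fun w => s399 w
    have n2 : ¬ F.le v121 q := fun w => s393 w
    c249 n1 a0 n2
  have s401 : ¬ F.le v109 q → False := fun a0 =>
    have n1 : F.le v117 q := Classical.byContradiction fun w => s399 w
    have n2 : F.le v113 q := Classical.byContradiction fun w => s394 w
    c239 n2 n1 a0
  have s402 : ¬ F.le v187 q → F.le q v64 → False := fun a0 a1 =>
    have n1 : F.le q v131 := Classical.byContradiction fun w => s398 w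
    have n2 : ¬ F.le v191 q := fun w => c1 w a1 a0
    have n3 : ¬ F.le v198 q := fun w => c260 n1 w n2
    have n4 : F.le q v198 := Classical.byContradiction fun w => c130 w n3
    have n5 : ¬ F.le q v86 := fun w => c244 n1 w n3
    have n6 : ¬ F.le v155 q := fun w => s353 n3 n1 w
    have n7 : ¬ F.le q v84 := fun w => s374 n5 n4 a1 w
    have n8 : ¬ F.le q v54 := fun w => s338 w n6
    c288 n7 n8
  have s403 : F.le q v70 → F.le v111 q → False := fun a0 a1 =>
    have n1 : F.le v113 q := Classical.byContradiction fun w => s394 w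
    have n2 : ¬ F.le v121 q := fun w => s393 w
    have n3 : ¬ F.le v70 v113 := fun w => c70 a0 w n2
    have n4 : F.le v7 v71 := Classical.byContradiction fun w => c5 n1 a0 w
    have n5 : F.le q v170 := Classical.byContradiction fun w => c178 n4 n1 w
    have n6 : ¬ F.le q v26 := fun w => c75 w n5 n3
    have n7 : ¬ F.le v103 v26 := fun w => c195 a1 w n6
    have n8 : ¬ F.le v6 v102 := fun w => c56 w a1 n7
    have n9 : ¬ F.le q v68 := fun w => c58 w a1 n8
    have n10 : F.le q v62 := Classical.byContradiction fun w => c314 n9 w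
    have n11 : F.le q v64 := Classical.byContradiction fun w => c105 a0 n10 w
    have n12 : F.le v60 v172 := Classical.byContradiction fun w => c62 a1 n10 w
    have n13 : ¬ F.le v187 q := fun w => c29 w n12 n2
    s402 n13 n11
  have s404 : F.le q v62 → F.le v111 q → False := fun a0 a1 =>
    have n1 : F.le v113 q := Classical.byContradiction fun w => s394 w
    have n2 : ¬ F.le v121 q := fun w => s393 w
    have n3 : ¬ F.le q v70 := fun w => s403 w a1
    have n4 : F.le v70 q := Classical.byContradiction fun w => c114 w n3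
    have n5 : F.le v189 q := Classical.byContradiction fun w => c83 n1 n4 w
    have n6 : F.le v60 v172 := Classical.byContradiction fun w => c62 a1 a0 w
    have n7 : F.le v187 q := Classical.byContradiction fun w => c223 n5 a0 w
    c29 n7 n6 n2
  have s405 : ¬ F.le q v84 → F.le v111 q → False := fun a0 a1 =>
    have n1 : F.le q v131 := Classical.byContradiction fun w => s398 w
    have n2 : F.le v117 q := Classical.byContradiction fun w => s399 w
    have n3 : ¬ F.le v3 v11 := fun w => c77 w
    have n4 : ¬ F.le q v62 := fun w => s404 w a1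
    have n5 : F.le q v68 := Classical.byContradiction fun w => c314 w n4
    have n6 : F.le v6 v102 := Classical.byContradiction fun w => c58 n5 a1 w
    have n7 : F.le v103 v26 := Classical.byContradiction fun w => c56 n6 a1 w
    have n8 : F.le q v26 := Classical.byContradiction fun w => c195 a1 n7 w
    have n9 : F.le v17 q := Classical.byContradiction fun w => c17 n5 n8 w
    have n10 : F.le v17 v131 := Classical.byContradiction fun w => c47 n9 n1 w
    have n11 : F.le v5 v140 := Classical.byContradiction fun w => c9 n5 n6 w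
    have n12 : ¬ F.le q v70 := fun w => s403 w a1
    have n13 : F.le v70 q := Classical.byContradiction fun w => c114 w n12
    have n14 : ¬ F.le q v86 := fun w => s358 n4 w n13 a0 a1
    have n15 : F.le q v78 := Classical.byContradiction fun w => c295 n14 w
    have n16 : F.le v9 v79 := Classical.byContradiction fun w => c267 n1 n15 w
    have n17 : F.le v12 v130 := Classical.byContradiction fun w => c91 n15 n1 w
    have n18 : ¬ F.le v78 v62 := fun w => c119 n15 w n4
    have n19 : ¬ F.le v78 v34 := fun w => c279 w n11 n18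
    have n20 : F.le v78 v38 := Classical.byContradiction fun w => c193 n15 n16 w
    have n21 : F.le v131 v21 := Classical.byContradiction fun w => c21 n17 n1 w
    have n22 : ¬ F.le v185 v160 := fun w => c231 n20 w n19
    have n23 : ¬ F.le q v101 := fun w => c149 n2 w n22
    have n24 : F.le q v88 := Classical.byContradiction fun w => c203 n10 n21 w
    have n25 : F.le q v60 := Classical.byContradiction fun w => c55 n3 a0 n23 w
    c12 n25 n24 a0
  have s406 : F.le v198 q → F.le v111 q → False := fun a0 a1 =>
    have n1 : F.le v113 q := Classical.byContradiction fun w => s394 w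
    have n2 : F.le q v99 := Classical.byContradiction fun w => s331 w
    have n3 : ¬ F.le q v62 := fun w => s404 w a1
    have n4 : F.le q v68 := Classical.byContradiction fun w => c314 w n3
    have n5 : F.le v6 v102 := Classical.byContradiction fun w => c58 n4 a1 w
    have n6 : F.le v103 v26 := Classical.byContradiction fun w => c56 n5 a1 w
    have n7 : F.le v111 v68 := Classical.byContradiction fun w => c115 a1 n4 w
    have n8 : F.le v69 v2 := Classical.byContradiction fun w => c60 n4 n7 w
    have n9 : F.le q v84 := Classical.byContradiction fun w => s405 w a1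
    have n10 : F.le v54 v99 := Classical.byContradiction fun w => s345 n9 w
    have n11 : F.le v99 v15 := Classical.byContradiction fun w => s339 n10 w
    have n12 : F.le q v15 := Classical.byContradiction fun w => c28 n2 n11 w
    have n13 : F.le q v26 := Classical.byContradiction fun w => c195 a1 n6 w
    have n14 : F.le v17 q := Classical.byContradiction fun w => c17 n4 n13 w
    have n15 : F.le v17 v99 := Classical.byContradiction fun w => s346 n14 w
    have n16 : F.le v60 q := Classical.byContradiction fun w => c78 n15 n11 w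
    have n17 : F.le v34 q := Classical.byContradiction fun w => s361 n4 w a1
    have n18 : F.le v51 v54 := Classical.byContradiction fun w => c219 n9 n10 w
    have n19 : F.le q v32 := Classical.byContradiction fun w => c177 n18 n10 w
    have n20 : F.le q v93 := Classical.byContradiction fun w => c208 n17 n19 w
    have n21 : F.le q v160 := Classical.byContradiction fun w => c180 n20 n16 w
    have n22 : F.le v22 v160 := Classical.byContradiction fun w => c57 n12 n21 w
    have n23 : ¬ F.le v69 v13 := fun w => c183 w n22 n3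
    have n24 : ¬ F.le v2 v13 := fun w => c262 n8 w n23
    have n25 : ¬ F.le v14 v102 := fun w => c296 w n6 n24
    have n26 : F.le v125 v84 := Classical.byContradiction fun w => s340 n9 w
    have n27 : F.le v84 v40 := Classical.byContradiction fun w => c268 n9 n26 w
    have n28 : F.le q v40 := Classical.byContradiction fun w => c255 n9 n27 w
    have n29 : F.le q v127 := Classical.byContradiction fun w => c191 n17 n28 w
    have n30 : ¬ F.le q v70 := fun w => s403 w a1
    have n31 : F.le v70 q := Classical.byContradiction fun w => c114 w n30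
    have n32 : F.le v189 q := Classical.byContradiction fun w => c83 n1 n31 w
    have n33 : F.le v185 v22 := Classical.byContradiction fun w => c228 n32 n13 w
    have n34 : ¬ F.le v15 q := fun w => s344 w n11
    have n35 : ¬ F.le v160 v22 := fun w => c315 n21 w n34
    have n36 : ¬ F.le v105 q := fun w => c236 w n33 n35
    have n37 : ¬ F.le v105 v107 := fun w => c190 w n29 n36
    have n38 : F.le v5 v140 := Classical.byContradiction fun w => c9 n4 n5 w
    have n39 : F.le v2 v159 := Classical.byContradiction fun w => c50 n18 n21 w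
    have n40 : F.le v140 v159 := Classical.byContradiction fun w => c196 n4 n39 w
    have n41 : F.le v5 v159 := Classical.byContradiction fun w => c299 n38 n40 w
    have n42 : ¬ F.le v164 v103 := fun w => c53 w n6 n35
    have n43 : F.le v72 v160 := Classical.byContradiction fun w => c163 n13 n22 w
    have n44 : F.le v199 v18 := Classical.byContradiction fun w => c214 a0 n32 w
    have n45 : F.le v166 q := Classical.byContradiction fun w => c283 n29 a0 w
    have n46 : F.le v134 v18 := Classical.byContradiction fun w => c313 n28 n44 w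
    have n47 : F.le v166 v164 := Classical.byContradiction fun w => c20 n45 n43 w
    have n48 : ¬ F.le v104 v35 := fun w => c64 w n45 n36
    have n49 : F.le v134 v13 := Classical.byContradiction fun w => c68 n46 n13 w
    have n50 : ¬ F.le v104 v106 := fun w => c15 w n41 n48
    have n51 : F.le v14 v104 := Classical.byContradiction fun w => c252 n49 n22 w
    have n52 : ¬ F.le v104 v102 := fun w => c140 n51 w n25
    have n53 : F.le v105 v103 := Classical.byContradiction fun w => c52 n52 w n50 n37
    have n54 : F.le v164 v105 := Classical.byContradiction fun w => c24 n53 n47 w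
    c128 n54 n53 n42
  have s407 : F.le v111 q → False := fun a0 =>
    have n1 : F.le v113 q := Classical.byContradiction fun w => s394 w
    have n2 : F.le q v99 := Classical.byContradiction fun w => s331 w
    have n3 : F.le q v131 := Classical.byContradiction fun w => s398 w
    have n4 : ¬ F.le q v70 := fun w => s403 w a0
    have n5 : F.le v70 q := Classical.byContradiction fun w => c114 w n4
    have n6 : F.le v189 q := Classical.byContradiction fun w => c83 n1 n5 w
    have n7 : ¬ F.le q v62 := fun w => s404 w a0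
    have n8 : F.le q v68 := Classical.byContradiction fun w => c314 w n7
    have n9 : F.le v6 v102 := Classical.byContradiction fun w => c58 n8 a0 w
    have n10 : F.le v34 q := Classical.byContradiction fun w => s361 n8 w a0
    have n11 : F.le v5 v140 := Classical.byContradiction fun w => c9 n8 n9 w
    have n12 : F.le v103 v26 := Classical.byContradiction fun w => c56 n9 a0 w
    have n13 : F.le q v26 := Classical.byContradiction fun w => c195 a0 n12 w
    have n14 : F.le v17 q := Classical.byContradiction fun w => c17 n8 n13 w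
    have n15 : F.le v185 v22 := Classical.byContradiction fun w => c228 n6 n13 w
    have n16 : F.le v17 v99 := Classical.byContradiction fun w => s346 n14 w
    have n17 : F.le q v84 := Classical.byContradiction fun w => s405 w a0
    have n18 : F.le v54 v99 := Classical.byContradiction fun w => s345 n17 w
    have n19 : F.le v99 v15 := Classical.byContradiction fun w => s339 n18 w
    have n20 : F.le v51 v54 := Classical.byContradiction fun w => c219 n17 n18 w
    have n21 : F.le q v15 := Classical.byContradiction fun w => c28 n2 n19 w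
    have n22 : F.le v60 q := Classical.byContradiction fun w => c78 n16 n19 w
    have n23 : F.le q v32 := Classical.byContradiction fun w => c177 n20 n18 w
    have n24 : F.le q v93 := Classical.byContradiction fun w => c208 n10 n23 w
    have n25 : F.le q v160 := Classical.byContradiction fun w => c180 n24 n22 w
    have n26 : F.le v22 v160 := Classical.byContradiction fun w => c57 n21 n25 w
    have n27 : F.le v185 v160 := Classical.byContradiction fun w => c257 n15 n26 w
    have n28 : ¬ F.le v198 q := fun w => s406 w a0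
    have n29 : ¬ F.le q v86 := fun w => c244 n3 w n28
    have n30 : F.le q v78 := Classical.byContradiction fun w => c295 n29 w
    have n31 : F.le v9 v79 := Classical.byContradiction fun w => c267 n3 n30 w
    have n32 : ¬ F.le v78 v62 := fun w => c119 n30 w n7
    have n33 : F.le v78 v38 := Classical.byContradiction fun w => c193 n30 n31 w
    have n34 : ¬ F.le v78 v34 := fun w => c279 w n11 n32
    c231 n33 n27 n34
  have s408 : ¬ F.le q v111 → False := fun a0 =>
    have n1 : ¬ F.le v111 q := fun w => s407 w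
    c150 a0 n1
  have s409 : F.le v185 v160 → False := fun a0 =>
    have n1 : ¬ F.le v111 q := fun w => s407 w
    have n2 : F.le v113 q := Classical.byContradiction fun w => s394 w
    c93 n2 a0 n1
  have s410 : F.le q v101 → False := fun a0 =>
    have n1 : ¬ F.le v111 q := fun w => s407 w
    have n2 : F.le v109 q := Classical.byContradiction fun w => s401 w
    c220 n2 a0 n1
  have s411 : ¬ F.le q v93 → False := fun a0 =>
    have n1 : F.le q v111 := Classical.byContradiction fun w => s408 w
    have n2 : F.le v109 q := Classical.byContradiction fun w => s401 w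
    c294 n1 n2 a0
  have s412 : ¬ F.le q v84 → F.le q v32 → False := fun a0 a1 =>
    have n1 : ¬ F.le v3 v11 := fun w => c77 w
    have n2 : ¬ F.le q v101 := fun w => s410 w
    have n3 : F.le q v93 := Classical.byContradiction fun w => s411 w
    have n4 : F.le q v60 := Classical.byContradiction fun w => c55 n1 a0 n2 w
    have n5 : ¬ F.le v60 q := fun w => c65 n1 a0 n2 w n4
    have n6 : F.le v4 v92 := Classical.byContradiction fun w => c326 n4 n3 w
    have n7 : ¬ F.le v3 v139 := fun w => c74 a1 w n5
    c327 n4 n6 n7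
  have s413 : F.le v70 v32 → F.le q v70 → False := fun a0 a1 =>
    have n1 : ¬ F.le v185 v160 := fun w => s409 w
    have n2 : F.le q v93 := Classical.byContradiction fun w => s411 w
    have n3 : ¬ F.le q v101 := fun w => s410 w
    have n4 : ¬ F.le v111 q := fun w => s407 w
    have n5 : F.le q v32 := Classical.byContradiction fun w => c22 a1 a0 w
    have n6 : F.le q v84 := Classical.byContradiction fun w => s412 w n5
    have n7 : ¬ F.le v98 v4 := fun w => s332 n6 w
    have n8 : F.le v92 v4 := Classical.byContradiction fun w => s337 n3 w n7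
    have n9 : ¬ F.le q v60 := fun w => c200 n8 w n3
    have n10 : F.le v60 q := Classical.byContradiction fun w => c11 n9 w
    have n11 : F.le q v62 := Classical.byContradiction fun w => c317 n3 n9 n4 w
    have n12 : F.le q v160 := Classical.byContradiction fun w => c180 n2 n10 w
    have n13 : F.le q v64 := Classical.byContradiction fun w => c105 a1 n11 w
    have n14 : ¬ F.le v185 q := fun w => c301 w n12 n1
    have n15 : F.le v187 q := Classical.byContradiction fun w => s402 w n13
    c269 n15 n10 n14
  have s414 : F.le v7 v71 → F.le q v70 → False := fun a0 a1 =>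
    have n1 : F.le v109 q := Classical.byContradiction fun w => s401 w
    have n2 : F.le v141 v7 := Classical.byContradiction fun w => c172 a1 a0 w
    have n3 : F.le v70 v32 := Classical.byContradiction fun w => c139 n2 n1 w
    s413 n3 a1
  have s415 : F.le q v70 → False := fun a0 =>
    have n1 : F.le v113 q := Classical.byContradiction fun w => s394 w
    have n2 : F.le v7 v71 := Classical.byContradiction fun w => c5 n1 a0 w
    s414 n2 a0
  have s416 : ¬ F.le v70 q → False := fun a0 =>
    have n1 : ¬ F.le q v70 := fun w => s415 w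
    c114 a0 n1
  have s418 : ¬ F.le v172 v72 → False := fun a0 =>
    have n1 : F.le v70 q := Classical.byContradiction fun w => s416 w
    have n2 : F.le v113 q := Classical.byContradiction fun w => s394 w
    s362 n2 a0 n1
  have s420 : ¬ F.le q v84 → False := fun a0 =>
    have n1 : ¬ F.le v3 v11 := fun w => c77 w
    have n2 : F.le q v93 := Classical.byContradiction fun w => s411 w
    have n3 : ¬ F.le q v109 := fun w => s400 w
    have n4 : F.le q v131 := Classical.byContradiction fun w => s398 w
    have n5 : F.le v70 q := Classical.byContradiction fun w => s416 w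
    have n6 : F.le q v111 := Classical.byContradiction fun w => s408 w
    have n7 : ¬ F.le q v101 := fun w => s410 w
    have n8 : F.le q v60 := Classical.byContradiction fun w => c55 n1 a0 n7 w
    have n9 : ¬ F.le q v32 := fun w => s412 a0 w
    have n10 : ¬ F.le q v88 := fun w => c12 n8 w a0
    have n11 : F.le v4 v92 := Classical.byContradiction fun w => c326 n8 n2 w
    have n12 : F.le q v43 := Classical.byContradiction fun w => c122 w n9
    have n13 : F.le q v66 := Classical.byContradiction fun w => c97 n10 w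
    have n14 : F.le v144 q := Classical.byContradiction fun w => c312 n11 n2 w
    have n15 : ¬ F.le q v169 := fun w => c112 n14 w n3
    have n16 : ¬ F.le v24 q := fun w => c25 w n6 n15
    have n17 : F.le v17 q := Classical.byContradiction fun w => c211 w n16
    have n18 : F.le v17 v131 := Classical.byContradiction fun w => c47 n17 n4 w
    have n19 : ¬ F.le v131 v21 := fun w => c203 n18 w n10
    have n20 : ¬ F.le v12 v130 := fun w => c21 w n4 n19
    have n21 : ¬ F.le q v78 := fun w => c91 w n4 n20
    have n22 : F.le q v86 := Classical.byContradiction fun w => c295 w n21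
    have n23 : F.le q v64 := Classical.byContradiction fun w => c137 n22 n13 w
    have n24 : F.le q v62 := Classical.byContradiction fun w => c275 n5 n23 w
    have n25 : F.le v5 v63 := Classical.byContradiction fun w => c156 n6 n24 w
    have n26 : F.le v32 v62 := Classical.byContradiction fun w => c188 n12 n24 w
    have n27 : F.le v62 v34 := Classical.byContradiction fun w => c321 n24 n25 w
    c240 n26 n27 n7
  have s421 : F.le v98 v4 → False := fun a0 =>
    have n1 : F.le q v84 := Classical.byContradiction fun w => s420 w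
    s332 n1 a0
  have s426 : ¬ F.le v92 v4 → False := fun a0 =>
    have n1 : ¬ F.le v98 v4 := fun w => s421 w
    have n2 : ¬ F.le q v101 := fun w => s410 w
    s337 n2 a0 n1
  have s431 : F.le q v60 → False := fun a0 =>
    have n1 : F.le v92 v4 := Classical.byContradiction fun w => s426 w
    have n2 : ¬ F.le q v101 := fun w => s410 w
    c200 n1 a0 n2
  have s436 : ¬ F.le v60 q → False := fun a0 =>
    have n1 : ¬ F.le q v60 := fun w => s431 w
    c11 n1 a0
  have s438 : ¬ F.le q v62 → False := fun a0 =>
    have n1 : ¬ F.le q v60 := fun w => s431 w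
    have n2 : ¬ F.le q v101 := fun w => s410 w
    have n3 : ¬ F.le v111 q := fun w => s407 w
    c317 n2 n1 n3 a0
  have s441 : ¬ F.le q v56 → False := fun a0 =>
    have n1 : F.le v60 q := Classical.byContradiction fun w => s436 w
    have n2 : F.le q v62 := Classical.byContradiction fun w => s438 w
    c230 n2 n1 a0
  have s442 : ¬ F.le q v160 → False := fun a0 =>
    have n1 : F.le v60 q := Classical.byContradiction fun w => s436 w
    have n2 : F.le q v93 := Classical.byContradiction fun w => s411 w
    c180 n2 n1 a0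
  have s447 : ¬ F.le v172 q → False := fun a0 =>
    have n1 : F.le q v56 := Classical.byContradiction fun w => s441 w
    have n2 : F.le v172 v72 := Classical.byContradiction fun w => s418 w
    c89 n2 n1 a0
  have n1 : F.le v172 q := Classical.byContradiction fun w => s447 w
  have n2 : F.le q v160 := Classical.byContradiction fun w => s442 w
  have n3 : ¬ F.le v111 q := fun w => s407 w
  exact c194 n1 n2 n3

end Pool.Agent.Helper89.SR
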