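import Mathlib

/-!
The relations of the fundamental group of the cyclic branched covers of the odd alternating
pretzel links, with the circles around the bands drilled out.
-/

set_option autoImplicit false

namespace Pool.Agent.Helper89.SR

/-- Elements of a group which satisfy the relations of the fundamental group of the following
manifold.  Let `F` be the surface in the 3-sphere which consists of a top and a bottom disc and
of `b` vertical bands with one half twist each, all in the same direction, the gap number `j`
being between the bands number `j` and `j + 1` (cyclically); its boundary is the torus link
`T(2, b)`.  Take the `n`-fold cyclic cover of the 3-sphere branched along the boundary of `F`,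
and drill out the lifts of the `b` circles around the bands.  It consists of `n` copies of the
complement of `F` and of the circles.

The element `h i j` belongs to the path in the copy number `i` which passes through the gap
number `j` from the front to the back; the front of the copy number `i` is joined to the back of
the copy number `i + 1` across the top disc; the element `t i` belongs to the path from the back
of the copy number `i` to the front of the copy number `i + 1` across the bottom disc; and
`m i j` is the meridian of the circle around the band number `j` in the copy number `i`. -/
structure Grid (G : Type*) [Group G] (b n : ℕ) where
  h : ZMod n → ZMod b → G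
  m : ZMod n → ZMod b → G
  t : ZMod n → G
  base : ∀ i, h i 0 = 1
  /-- Crossing the band number `j`. -/
  glue : ∀ i j, t i * h i j * m i j = m (i + 1) j * (h (i + 1) (j - 1))⁻¹
  /-- The meridian commutes with the circle around the band number `j`. -/
  comm : ∀ i j, m i j * ((h i (j - 1))⁻¹ * h i j) = (h i (j - 1))⁻¹ * h i j * m i j
  /-- Going `n` times around the boundary of `F`. -/
  close : ∀ j, ((List.range n).map fun k : ℕ => h (k : ZMod n) j).prod = 1

/-- The circle around the band number `j` in the copy number `i`. -/
def Grid.circle {G : Type*} [Group G] {b n : ℕ} (g : Grid G b n) (i : ZMod n) (j : ZMod b) : G :=
  (g.h i (j - 1))⁻¹ * g.h i j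

/-- All the elements of the grid. -/
def Grid.elts {G : Type*} [Group G] {b n : ℕ} (g : Grid G b n) : Set G :=
  {x | (∃ i j, x = g.h i j) ∨ (∃ i j, x = g.m i j) ∨ ∃ i, x = g.t i}

end Pool.Agent.Helper89.SR
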