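import Mathlib
import Pool.Agent.Helper89.SR.Defs

/-!
The symmetry between the two directions of a grid.
-/

set_option autoImplicit false

namespace Pool.Agent.Helper89.SR

variable {G : Type*} [Group G] {b n : ℕ}

/-- Mapping a grid to another group. -/
def Grid.map {H : Type*} [Group H] (g : Grid G b n) (ρ : G →* H) : Grid H b n where
  h i j := ρ (g.h i j)
  m i j := ρ (g.m i j)
  t i := ρ (g.t i)
  base i := by rw [g.base, map_one]
  glue i j := by
    rw [← map_mul, ← map_mul, g.glue, map_mul, map_inv]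
  comm i j := by
    rw [← map_inv, ← map_mul, ← map_mul, g.comm, map_mul]
  close j := by
    have := congrArg ρ (g.close j)
    rw [map_one, map_list_prod, List.map_map] at this
    exact this

/-- The partial products. -/
def Grid.part (g : Grid G b n) (j : ZMod b) (k : ℕ) : G :=
  ((List.range k).map fun l : ℕ => g.h ((l : ZMod n) + 1) j).prod

lemma Grid.part_zero (g : Grid G b n) (j : ZMod b) : g.part j 0 = 1 := by
  simp [Grid.part]

lemma Grid.part_succ (g : Grid G b n) (j : ZMod b) (k : ℕ) :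
    g.part j (k + 1) = g.part j k * g.h ((k : ZMod n) + 1) j := by
  simp [Grid.part, List.range_succ]

lemma Grid.part_base (g : Grid G b n) (k : ℕ) : g.part 0 k = 1 := by
  induction k with
  | zero => exact g.part_zero 0
  | succ k ih => rw [g.part_succ, ih, g.base, mul_one]

lemma Grid.part_n (g : Grid G b n) (j : ZMod b) : g.part j n = 1 := by
  cases n with
  | zero => exact g.part_zero j
  | succ n =>
    have h1 := g.close j
    rw [List.range_succ_eq_map, List.map_cons, List.prod_cons, List.map_map] at h1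
    have h2 : (List.map ((fun k : ℕ => g.h (k : ZMod (n + 1)) j) ∘ Nat.succ)
        (List.range n)).prod = g.part j n := by
      unfold Grid.part
      congr 1
      apply List.map_congr_left
      intro l _
      simp
    rw [h2] at h1
    rw [g.part_succ]
    have h3 : ((n : ZMod (n + 1)) + 1) = 0 := by
      have := ZMod.natCast_self (n + 1)
      push_cast at this
      exact this
    rw [h3]
    have h4 : g.h ((0 : ℕ) : ZMod (n + 1)) j = g.h 0 j := by simp
    rw [h4] at h1
    exact mul_eq_one_comm.mp h1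

lemma Grid.part_add (g : Grid G b n) (j : ZMod b) (k : ℕ) : g.part j (k + n) = g.part j k := by
  induction k with
  | zero => rw [zero_add, g.part_n, g.part_zero]
  | succ k ih =>
    rw [show k + 1 + n = (k + n) + 1 by ring, g.part_succ, ih, g.part_succ]
    congr 2
    push_cast
    rw [ZMod.natCast_self, add_zero]

lemma Grid.part_mod (g : Grid G b n) (j : ZMod b) (k : ℕ) : g.part j (k % n) = g.part j k := by
  conv_rhs => rw [← Nat.mod_add_div k n]
  generalize k % n = l
  induction k / n with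
  | zero => simp
  | succ d ih => rw [Nat.mul_succ, ← add_assoc, g.part_add, ← ih]

/-- The partial products, as a function on the levels. -/
def Grid.q (g : Grid G b n) (j : ZMod b) (i : ZMod n) : G := g.part j i.val

lemma Grid.q_zero (g : Grid G b n) (j : ZMod b) : g.q j 0 = 1 := by
  rw [Grid.q, ZMod.val_zero, g.part_zero]

lemma Grid.q_base (g : Grid G b n) (i : ZMod n) : g.q 0 i = 1 := g.part_base _

lemma Grid.q_succ [NeZero n] (g : Grid G b n) (j : ZMod b) (i : ZMod n) :
    g.q j (i + 1) = g.q j i * g.h (i + 1) j := by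
  have h1 : (i + 1).val = (i.val + 1) % n := by
    rw [ZMod.val_add, ZMod.val_one_eq_one_mod, Nat.add_mod_mod]
  rw [Grid.q, h1, g.part_mod, g.part_succ, ZMod.natCast_zmod_val, Grid.q]

lemma Grid.q_pred [NeZero n] (g : Grid G b n) (j : ZMod b) (i : ZMod n) :
    g.q j i = g.q j (i - 1) * g.h i j := by
  have := g.q_succ j (i - 1)
  rwa [sub_add_cancel] at this

/-- The vertical maps of the dual grid. -/
def Grid.h' (g : Grid G b n) (j : ZMod b) (i : ZMod n) : G := g.q (j - 1) i * (g.q j i)⁻¹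

/-- The meridians of the dual grid. -/
def Grid.m' (g : Grid G b n) (j : ZMod b) (i : ZMod n) : G :=
  g.q j i * (g.m i j)⁻¹ * (g.q j i)⁻¹

/-- The circles of the dual grid. -/
lemma Grid.circle' [NeZero n] (g : Grid G b n) (j : ZMod b) (i : ZMod n) :
    (g.h' j (i - 1))⁻¹ * g.h' j i = g.q j i * (g.circle i j)⁻¹ * (g.q j i)⁻¹ := by
  rw [Grid.h', Grid.h', Grid.circle, g.q_pred (j - 1) i, g.q_pred j i]
  group

/-- The transverse element of the dual grid. -/
def Grid.t' (g : Grid G b n) (j : ZMod b) (i : ZMod n) : G :=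
  g.m' (j + 1) i * (g.h' (j + 1) (i - 1))⁻¹ * (g.m' j i)⁻¹ * (g.h' j i)⁻¹

lemma Grid.t'_eq [NeZero n] (g : Grid G b n) (j : ZMod b) (i : ZMod n) :
    g.t' j i = g.q (j + 1) i * (g.m i (j + 1))⁻¹ * (g.h i (j + 1))⁻¹ * g.h i j * g.m i j *
      (g.q (j - 1) i)⁻¹ := by
  rw [Grid.t', Grid.m', Grid.m', Grid.h', Grid.h', add_sub_cancel_right, g.q_pred (j + 1) i,
    g.q_pred j i]
  group

lemma Grid.t'_eq' [NeZero n] (g : Grid G b n) (j : ZMod b) (i : ZMod n) :
    g.t' j i = g.q (j + 1) (i - 1) * g.h i j * (g.m i (j + 1))⁻¹ * g.m i j *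
      (g.q (j - 1) i)⁻¹ := by
  have h1 := g.comm i (j + 1)
  rw [add_sub_cancel_right] at h1
  have h2 : (g.m i (j + 1))⁻¹ * (g.h i (j + 1))⁻¹ * g.h i j =
      (g.h i (j + 1))⁻¹ * g.h i j * (g.m i (j + 1))⁻¹ := by
    have h3 := congrArg Inv.inv h1
    simp only [mul_inv_rev, inv_inv] at h3
    rw [mul_assoc, ← h3]
  rw [g.t'_eq]
  calc g.q (j + 1) i * (g.m i (j + 1))⁻¹ * (g.h i (j + 1))⁻¹ * g.h i j * g.m i j *
        (g.q (j - 1) i)⁻¹
      = g.q (j + 1) i * ((g.m i (j + 1))⁻¹ * (g.h i (j + 1))⁻¹ * g.h i j) * g.m i j *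
        (g.q (j - 1) i)⁻¹ := by group
    _ = g.q (j + 1) (i - 1) * g.h i (j + 1) * ((g.h i (j + 1))⁻¹ * g.h i j *
        (g.m i (j + 1))⁻¹) * g.m i j * (g.q (j - 1) i)⁻¹ := by rw [h2, g.q_pred (j + 1) i]
    _ = _ := by group

lemma Grid.t'_succ [NeZero n] (g : Grid G b n) (j : ZMod b) (i : ZMod n) :
    g.t' j (i + 1) = g.t' j i := by
  rw [g.t'_eq', g.t'_eq, g.q_succ (j - 1) i, add_sub_cancel_right]
  have h1 := g.glue i j
  have h2 := g.glue i (j + 1)
  rw [add_sub_cancel_right] at h2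
  have h3 : g.h (i + 1) j * (g.m (i + 1) (j + 1))⁻¹ =
      (g.m i (j + 1))⁻¹ * (g.h i (j + 1))⁻¹ * (g.t i)⁻¹ := by
    have := congrArg Inv.inv h2
    simp only [mul_inv_rev, inv_inv] at this
    rw [← this, mul_assoc]
  calc g.q (j + 1) i * g.h (i + 1) j * (g.m (i + 1) (j + 1))⁻¹ * g.m (i + 1) j *
        (g.q (j - 1) i * g.h (i + 1) (j - 1))⁻¹
      = g.q (j + 1) i * (g.h (i + 1) j * (g.m (i + 1) (j + 1))⁻¹) *
        (g.m (i + 1) j * (g.h (i + 1) (j - 1))⁻¹) * (g.q (j - 1) i)⁻¹ := by group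
    _ = g.q (j + 1) i * ((g.m i (j + 1))⁻¹ * (g.h i (j + 1))⁻¹ * (g.t i)⁻¹) *
        (g.t i * g.h i j * g.m i j) * (g.q (j - 1) i)⁻¹ := by rw [h3, h1]
    _ = _ := by group

lemma Grid.t'_const [NeZero n] (g : Grid G b n) (j : ZMod b) (i : ZMod n) :
    g.t' j i = g.t' j 0 := by
  have h1 : ∀ k : ℕ, g.t' j (k : ZMod n) = g.t' j 0 := by
    intro k
    induction k with
    | zero => simp
    | succ k ih => rw [Nat.cast_succ, g.t'_succ, ih]
  have := h1 i.val
  rwa [ZMod.natCast_zmod_val] at this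

/-- The dual grid. -/
def Grid.dual [NeZero n] (g : Grid G b n) : Grid G n b where
  h := g.h'
  m := g.m'
  t j := g.t' j 0
  base j := by rw [Grid.h', g.q_zero, g.q_zero, inv_one, mul_one]
  glue j i := by
    rw [← g.t'_const j i, Grid.t']
    group
  comm j i := by
    rw [g.circle', Grid.m']
    have h1 := g.comm i j
    rw [← Grid.circle] at h1
    have h2 : (g.m i j)⁻¹ * (g.circle i j)⁻¹ = (g.circle i j)⁻¹ * (g.m i j)⁻¹ := by
      rw [← mul_inv_rev, ← mul_inv_rev, h1]
    calc g.q j i * (g.m i j)⁻¹ * (g.q j i)⁻¹ * (g.q j i * (g.circle i j)⁻¹ * (g.q j i)⁻¹)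
        = g.q j i * ((g.m i j)⁻¹ * (g.circle i j)⁻¹) * (g.q j i)⁻¹ := by group
      _ = g.q j i * ((g.circle i j)⁻¹ * (g.m i j)⁻¹) * (g.q j i)⁻¹ := by rw [h2]
      _ = _ := by group
  close i := by
    have h1 : ∀ k : ℕ, ((List.range k).map fun l : ℕ => g.h' (l : ZMod b) i).prod =
        g.q (-1) i * (g.q ((k : ZMod b) - 1) i)⁻¹ := by
      intro k
      induction k with
      | zero => simp
      | succ k ih =>
        rw [List.range_succ, List.map_append, List.prod_append, ih]
        simp [Grid.h']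
    rw [h1, ZMod.natCast_self, zero_sub, mul_inv_cancel]

lemma Grid.dual_circle [NeZero n] (g : Grid G b n) (j : ZMod b) (i : ZMod n) :
    g.dual.circle j i = g.q j i * (g.circle i j)⁻¹ * (g.q j i)⁻¹ := g.circle' j i

end Pool.Agent.Helper89.SR
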