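import Mathlib
import Pool.Agent.Helper89.SR.Dual
import Pool.Agent.Helper89.SR.Core3
import Pool.Agent.Helper89.SR.Core4
import Pool.Agent.Helper89.SR.Core5

/-!
Grids of maps of a line which satisfy the sign rule.
-/

set_option autoImplicit false

namespace Pool.Agent.Helper89.SR

variable {Ω : Type*} [LinearOrder Ω] {b n : ℕ}

lemma iso_inv_le {f : Ω ≃o Ω} {x y : Ω} : f⁻¹ x ≤ y ↔ x ≤ f y := by
  rw [← f.le_iff_le (x := f⁻¹ x), RelIso.apply_inv_self]

lemma iso_le_inv {f : Ω ≃o Ω} {x y : Ω} : x ≤ f⁻¹ y ↔ f x ≤ y := by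
  rw [← f.le_iff_le (y := f⁻¹ y), RelIso.apply_inv_self]

/-- The sign rule. -/
structure Grid.Weak (g : Grid (Ω ≃o Ω) b n) : Prop where
  up : ∀ i j s, s ≤ g.circle i j s → s ≤ g.m i j s
  dn : ∀ i j s, g.circle i j s ≤ s → g.m i j s ≤ s

/-- The sign rule for the dual grid. -/
lemma Grid.Weak.dual [NeZero n] {g : Grid (Ω ≃o Ω) b n} (w : g.Weak) : g.dual.Weak := by
  constructor
  · intro j i s hs
    rw [g.dual_circle] at hs
    change s ≤ (g.q j i * (g.m i j)⁻¹ * (g.q j i)⁻¹) s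
    simp only [RelIso.mul_apply] at hs ⊢
    rw [← iso_inv_le, iso_le_inv] at hs ⊢
    exact w.dn i j _ hs
  · intro j i s hs
    rw [g.dual_circle] at hs
    change (g.q j i * (g.m i j)⁻¹ * (g.q j i)⁻¹) s ≤ s
    simp only [RelIso.mul_apply] at hs ⊢
    rw [← iso_le_inv, iso_inv_le] at hs ⊢
    exact w.up i j _ hs

/-- All vertical maps are trivial. -/
def Grid.Triv (g : Grid (Ω ≃o Ω) b n) : Prop := ∀ i j, g.h i j = 1

lemma Grid.triv_of_dual [NeZero n] [NeZero b] {g : Grid (Ω ≃o Ω) b n} (h : g.dual.Triv) :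
    g.Triv := by
  have h1 : ∀ (j : ZMod b) (i : ZMod n), g.q (j + 1) i = g.q j i := by
    intro j i
    have := h (j + 1) i
    change g.q (j + 1 - 1) i * (g.q (j + 1) i)⁻¹ = 1 at this
    rw [add_sub_cancel_right, mul_inv_eq_one] at this
    exact this.symm
  have h2 : ∀ (k : ℕ) (i : ZMod n), g.q (k : ZMod b) i = 1 := by
    intro k i
    induction k with
    | zero => rw [Nat.cast_zero, g.q_base]
    | succ k ih => rw [Nat.cast_succ, h1, ih]
  have h3 : ∀ (j : ZMod b) (i : ZMod n), g.q j i = 1 := by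
    intro j i
    have := h2 j.val i
    rwa [ZMod.natCast_zmod_val] at this
  intro i j
  have := g.q_pred j i
  rw [h3, h3, one_mul] at this
  exact this.symm

/-- If the maps of neighbouring columns are monotone, they are all trivial. -/
lemma Grid.triv_of_le [NeZero b] {g : Grid (Ω ≃o Ω) b n}
    (h : ∀ i j s, g.h i j s ≤ g.h i (j - 1) s) : g.Triv := by
  have h1 : ∀ i (k l : ℕ) s, g.h i ((k + l : ℕ) : ZMod b) s ≤ g.h i (k : ZMod b) s := by
    intro i k l s
    induction l with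
    | zero => rfl
    | succ l ih =>
      refine le_trans ?_ ih
      have := h i ((k + (l + 1) : ℕ) : ZMod b) s
      have e : (((k + (l + 1) : ℕ) : ZMod b) - 1) = ((k + l : ℕ) : ZMod b) := by
        push_cast
        ring
      rwa [e] at this
  intro i j
  ext s
  have hb : 0 < b := Nat.pos_of_ne_zero (NeZero.ne b)
  apply le_antisymm
  · have := h1 i 0 j.val s
    rw [zero_add, ZMod.natCast_zmod_val, Nat.cast_zero, g.base] at this
    exact this
  · have hj := ZMod.val_lt j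
    have := h1 i j.val (b - j.val) s
    rw [show j.val + (b - j.val) = b by omega, ZMod.natCast_self, g.base,
      ZMod.natCast_zmod_val] at this
    exact this

section Three

/-- Three copies of the line. -/
def frame (Ω : Type*) [LinearOrder Ω] : Frame (ZMod 3 × Ω) where
  le p q := p.1 = q.1 ∧ p.2 ≤ q.2
  lev p := p.1
  refl _ := ⟨rfl, le_rfl⟩
  trans h k := ⟨h.1.trans k.1, h.2.trans k.2⟩
  tot {x y} h := (le_total x.2 y.2).imp (fun k => ⟨h, k⟩) (fun k => ⟨h.symm, k⟩)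

/-- A family of maps, as a map of the three lines. -/
def shift (f : ZMod 3 → (Ω ≃o Ω)) : Equiv.Perm (ZMod 3 × Ω) where
  toFun p := (p.1 - 1, f p.1 p.2)
  invFun p := (p.1 + 1, (f (p.1 + 1))⁻¹ p.2)
  left_inv p := by
    obtain ⟨i, x⟩ := p
    simp only [sub_add_cancel, RelIso.inv_apply_self]
  right_inv p := by
    obtain ⟨i, x⟩ := p
    simp only [add_sub_cancel_right, RelIso.apply_inv_self]

lemma shift_apply (f : ZMod 3 → (Ω ≃o Ω)) (i : ZMod 3) (x : Ω) :
    shift f (i, x) = (i - 1, f i x) := rfl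

lemma shift_symm_apply (f : ZMod 3 → (Ω ≃o Ω)) (i : ZMod 3) (x : Ω) :
    (shift f).symm (i, x) = (i + 1, (f (i + 1))⁻¹ x) := rfl

lemma shift_down (f : ZMod 3 → (Ω ≃o Ω)) : (frame Ω).Down (shift f) := by
  constructor
  · rintro ⟨i, x⟩ ⟨k, y⟩
    change (i - 1 = k - 1 ∧ f i x ≤ f k y) ↔ (i = k ∧ x ≤ y)
    constructor
    · rintro ⟨h1, h2⟩
      have h3 : i = k := sub_left_injective h1
      subst h3
      exact ⟨rfl, (f i).le_iff_le.mp h2⟩
    · rintro ⟨rfl, h2⟩
      exact ⟨rfl, (f i).monotone h2⟩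
  · rintro ⟨i, x⟩
    change i - 1 = i + 2
    rw [sub_eq_add_neg]
    congr 1

lemma shift_line {f : ZMod 3 → (Ω ≃o Ω)} (h : f 0 * f 1 * f 2 = 1) :
    (frame Ω).Line (shift f) := by
  refine ⟨shift_down f, ?_⟩
  have h1 : ∀ i x, f (i - 1 - 1) (f (i - 1) (f i x)) = x := by
    have e1 : f 2 * f 0 * f 1 = 1 := by
      have := mul_eq_one_comm.mp h
      rw [mul_assoc]
      rwa [] at this
    have e2 : f 1 * f 2 * f 0 = 1 := by
      rw [mul_assoc] at h
      exact mul_eq_one_comm.mp h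
    intro i x
    fin_cases i
    · have := DFunLike.congr_fun e2 x
      exact this
    · have := DFunLike.congr_fun e1 x
      exact this
    · have := DFunLike.congr_fun h x
      exact this
  rintro ⟨i, x⟩
  rw [shift_apply, shift_apply, shift_apply, h1]
  congr 1
  rw [sub_sub, sub_sub]
  have : (1 + 1 + 1 : ZMod 3) = 0 := by decide
  rw [← add_assoc, this, sub_zero]

variable {g : Grid (Ω ≃o Ω) b 3}

lemma Grid.line_of (g : Grid (Ω ≃o Ω) b 3) (j : ZMod b) :
    (frame Ω).Line (shift fun i => g.h i j) := by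
  apply shift_line
  have := g.close j
  simpa [List.range_succ, mul_assoc] using this

lemma Grid.col_of (w : g.Weak) {j k : ZMod b} (hk : k = j - 1) :
    (frame Ω).Col (shift fun i => g.t (i + 1)) (shift fun i => g.h i k)
      (shift fun i => g.h i j) := by
  subst hk
  have G0 : ∀ i x, g.t i (g.h i j (g.m i j x)) = g.m (i + 1) j ((g.h (i + 1) (j - 1))⁻¹ x) :=
    fun i x => DFunLike.congr_fun (g.glue i j) x
  have up : ∀ i x, g.h i (j - 1) x ≤ g.h i j x → x ≤ g.m i j x := by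
    intro i x h
    apply w.up
    change x ≤ (g.h i (j - 1))⁻¹ (g.h i j x)
    rwa [iso_le_inv]
  have dn : ∀ i x, g.h i j x ≤ g.h i (j - 1) x → g.m i j x ≤ x := by
    intro i x h
    apply w.dn
    change (g.h i (j - 1))⁻¹ (g.h i j x) ≤ x
    rwa [iso_inv_le]
  -- the signs one level up
  have upi : ∀ i x, (g.h i j)⁻¹ x ≤ (g.h i (j - 1))⁻¹ x →
      (g.h i (j - 1))⁻¹ x ≤ g.m i j ((g.h i (j - 1))⁻¹ x) := by
    intro i x h
    apply up
    rwa [RelIso.apply_inv_self, ← iso_inv_le]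
  have dni : ∀ i x, (g.h i (j - 1))⁻¹ x ≤ (g.h i j)⁻¹ x →
      g.m i j ((g.h i (j - 1))⁻¹ x) ≤ (g.h i (j - 1))⁻¹ x := by
    intro i x h
    apply dn
    rwa [RelIso.apply_inv_self, ← iso_le_inv]
  have upj : ∀ i x, (g.h i j)⁻¹ x ≤ (g.h i (j - 1))⁻¹ x →
      (g.h i j)⁻¹ x ≤ g.m i j ((g.h i j)⁻¹ x) := by
    intro i x h
    apply up
    rwa [RelIso.apply_inv_self, ← iso_le_inv]
  have dnj : ∀ i x, (g.h i (j - 1))⁻¹ x ≤ (g.h i j)⁻¹ x →
      g.m i j ((g.h i j)⁻¹ x) ≤ (g.h i j)⁻¹ x := by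
    intro i x h
    apply dn
    rwa [RelIso.apply_inv_self, ← iso_inv_le]
  have lev : ∀ i : ZMod 3, i - 1 - 1 = i + 1 := by decide
  -- the second form of the relation
  have G1 : ∀ i x, (g.m (i + 1) j)⁻¹ ((g.h (i + 1) j)⁻¹ x) =
      g.h (i - 1) (j - 1) ((g.m (i - 1) j)⁻¹ (g.t (i + 1) x)) := by
    intro i x
    have h1 := G0 (i + 1) ((g.m (i + 1) j)⁻¹ ((g.h (i + 1) j)⁻¹ x))
    rw [RelIso.apply_inv_self, RelIso.apply_inv_self,
      show i + 1 + 1 = i - 1 from (by decide : ∀ i : ZMod 3, i + 1 + 1 = i - 1) i] at h1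
    rw [h1, RelIso.inv_apply_self, RelIso.apply_inv_self]
  constructor
  · rintro ⟨i, x⟩ ⟨-, h1⟩ ⟨-, h2⟩
    refine ⟨lev i, ?_⟩
    change g.t (i - 1 + 1) (g.h i j x) ≤ (g.h (i + 1) (j - 1))⁻¹ x
    rw [sub_add_cancel]
    refine ((g.t i).monotone ((g.h i j).monotone (up i x h1))).trans ?_
    rw [G0]
    exact dni (i + 1) x h2
  · rintro ⟨i, x⟩ ⟨-, h1⟩ ⟨-, h2⟩
    refine ⟨(lev i).symm, ?_⟩
    change (g.h (i + 1) (j - 1))⁻¹ x ≤ g.t (i - 1 + 1) (g.h i j x)
    rw [sub_add_cancel]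
    refine le_trans ?_ ((g.t i).monotone ((g.h i j).monotone (dn i x h1)))
    rw [G0]
    exact upi (i + 1) x h2
  · rintro ⟨i, x⟩ ⟨-, h1⟩ ⟨-, h2⟩
    refine ⟨(lev i).symm, ?_⟩
    change (g.h (i + 1) j)⁻¹ x ≤ g.h (i - 1) (j - 1) (g.t (i + 1) x)
    have h3 : (g.h (i + 1) j)⁻¹ x ≤ (g.m (i + 1) j)⁻¹ ((g.h (i + 1) j)⁻¹ x) := by
      rw [iso_le_inv]
      exact dnj (i + 1) x h1
    refine h3.trans ?_
    rw [G1]
    apply (g.h (i - 1) (j - 1)).monotone
    rw [iso_inv_le]
    exact up (i - 1) _ h2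
  · rintro ⟨i, x⟩ ⟨-, h1⟩ ⟨-, h2⟩
    refine ⟨lev i, ?_⟩
    change g.h (i - 1) (j - 1) (g.t (i + 1) x) ≤ (g.h (i + 1) j)⁻¹ x
    have h3 : (g.m (i + 1) j)⁻¹ ((g.h (i + 1) j)⁻¹ x) ≤ (g.h (i + 1) j)⁻¹ x := by
      rw [iso_inv_le]
      exact upj (i + 1) x h1
    refine le_trans ?_ h3
    rw [G1]
    apply (g.h (i - 1) (j - 1)).monotone
    rw [iso_le_inv]
    exact dn (i - 1) _ h2

/-- Three levels, three columns. -/
theorem Grid.triv3 {g : Grid (Ω ≃o Ω) 3 3} (w : g.Weak) : g.Triv := by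
  apply Grid.triv_of_le
  intro i j s
  by_contra hcon
  refine core3 (shift_down _) (g.line_of j) (g.line_of (j + 1)) (g.line_of (j + 2))
    (Grid.col_of w ?_) (Grid.col_of w ?_) (Grid.col_of w ?_) (i, s) ?_
  · exact (by decide : ∀ j : ZMod 3, j + 2 = j - 1) j
  · exact (by decide : ∀ j : ZMod 3, j = j + 1 - 1) j
  · exact (by decide : ∀ j : ZMod 3, j + 1 = j + 2 - 1) j
  · rintro ⟨-, h⟩
    apply hcon
    change g.h i j s ≤ g.h i (j + 2) s at h
    rwa [(by decide : ∀ j : ZMod 3, j + 2 = j - 1) j] at h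

/-- Three levels, four columns. -/
theorem Grid.triv4 {g : Grid (Ω ≃o Ω) 4 3} (w : g.Weak) : g.Triv := by
  apply Grid.triv_of_le
  intro i j s
  by_contra hcon
  refine core4 (shift_down _) (g.line_of j) (g.line_of (j + 1)) (g.line_of (j + 2))
    (g.line_of (j + 3)) (Grid.col_of w ?_) (Grid.col_of w ?_) (Grid.col_of w ?_)
    (Grid.col_of w ?_) (i, s) ?_
  · exact (by decide : ∀ j : ZMod 4, j + 3 = j - 1) j
  · exact (by decide : ∀ j : ZMod 4, j = j + 1 - 1) j
  · exact (by decide : ∀ j : ZMod 4, j + 1 = j + 2 - 1) j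
  · exact (by decide : ∀ j : ZMod 4, j + 2 = j + 3 - 1) j
  · rintro ⟨-, h⟩
    apply hcon
    change g.h i j s ≤ g.h i (j + 3) s at h
    rwa [(by decide : ∀ j : ZMod 4, j + 3 = j - 1) j] at h

/-- Three levels, five columns. -/
theorem Grid.triv5 {g : Grid (Ω ≃o Ω) 5 3} (w : g.Weak) : g.Triv := by
  apply Grid.triv_of_le
  intro i j s
  by_contra hcon
  refine core5 (shift_down _) (g.line_of j) (g.line_of (j + 1)) (g.line_of (j + 2))
    (g.line_of (j + 3)) (g.line_of (j + 4)) (Grid.col_of w ?_) (Grid.col_of w ?_)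
    (Grid.col_of w ?_) (Grid.col_of w ?_) (Grid.col_of w ?_) (i, s) ?_
  · exact (by decide : ∀ j : ZMod 5, j + 4 = j - 1) j
  · exact (by decide : ∀ j : ZMod 5, j = j + 1 - 1) j
  · exact (by decide : ∀ j : ZMod 5, j + 1 = j + 2 - 1) j
  · exact (by decide : ∀ j : ZMod 5, j + 2 = j + 3 - 1) j
  · exact (by decide : ∀ j : ZMod 5, j + 3 = j + 4 - 1) j
  · rintro ⟨-, h⟩
    apply hcon
    change g.h i j s ≤ g.h i (j + 4) s at h
    rwa [(by decide : ∀ j : ZMod 5, j + 4 = j - 1) j] at h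

end Three

section Two

/-- Two columns. -/
theorem Grid.triv2 [NeZero n] {g : Grid (Ω ≃o Ω) 2 n} (w : g.Weak) : g.Triv := by
  set x : ZMod n → (Ω ≃o Ω) := fun i => g.h i 1 with hx
  have b0 : ∀ i, g.h i 0 = 1 := g.base
  have G1 : ∀ i s, g.t i (x i (g.m i 1 s)) = g.m (i + 1) 1 s := by
    intro i s
    have := DFunLike.congr_fun (g.glue i 1) s
    rw [sub_self, b0, inv_one, mul_one] at this
    exact this
  have G0 : ∀ i s, g.t i (g.m i 0 s) = g.m (i + 1) 0 ((x (i + 1))⁻¹ s) := by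
    intro i s
    have := DFunLike.congr_fun (g.glue i 0) s
    rw [b0, mul_one, show (0 - 1 : ZMod 2) = 1 by decide] at this
    exact this
  have c1 : ∀ i, g.circle i 1 = x i := by
    intro i
    rw [Grid.circle, sub_self, b0, inv_one, one_mul]
  have c0 : ∀ i, g.circle i 0 = (x i)⁻¹ := by
    intro i
    rw [Grid.circle, b0, mul_one, show (0 - 1 : ZMod 2) = 1 by decide]
  -- the signs are constant along the columns
  have up : ∀ i s, s < x i s → s < x (i + 1) s := by
    intro i s h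
    by_contra hcon
    rw [not_lt] at hcon
    have h1 : s ≤ g.m i 1 s := w.up i 1 s (by rw [c1]; exact h.le)
    have h2 : g.m (i + 1) 1 s ≤ s := w.dn _ 1 s (by rw [c1]; exact hcon)
    have h3 : g.t i s < s := by
      calc g.t i s < g.t i (x i s) := (g.t i).strictMono h
        _ ≤ g.t i (x i (g.m i 1 s)) := (g.t i).monotone ((x i).monotone h1)
        _ ≤ s := by rw [G1]; exact h2
    have h4 : g.m i 0 s ≤ s := w.dn i 0 s (by
      rw [c0, iso_inv_le]; exact h.le)
    have h5 : s ≤ (x (i + 1))⁻¹ s := by rw [iso_le_inv]; exact hcon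
    have h6 : (x (i + 1))⁻¹ s ≤ g.m (i + 1) 0 ((x (i + 1))⁻¹ s) := w.up _ 0 _ (by
      rw [c0]; exact (x (i + 1))⁻¹.monotone h5)
    have h7 : s ≤ g.t i s := by
      calc s ≤ g.m (i + 1) 0 ((x (i + 1))⁻¹ s) := h5.trans h6
        _ = g.t i (g.m i 0 s) := (G0 i s).symm
        _ ≤ g.t i s := (g.t i).monotone h4
    exact absurd h3 (not_lt.mpr h7)
  have dn : ∀ i s, x i s < s → x (i + 1) s < s := by
    intro i s h
    by_contra hcon
    rw [not_lt] at hcon
    have h1 : g.m i 1 s ≤ s := w.dn i 1 s (by rw [c1]; exact h.le)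
    have h2 : s ≤ g.m (i + 1) 1 s := w.up _ 1 s (by rw [c1]; exact hcon)
    have h3 : s < g.t i s := by
      calc s ≤ g.t i (x i (g.m i 1 s)) := by rw [G1]; exact h2
        _ ≤ g.t i (x i s) := (g.t i).monotone ((x i).monotone h1)
        _ < g.t i s := (g.t i).strictMono h
    have h4 : s ≤ g.m i 0 s := w.up i 0 s (by
      rw [c0, iso_le_inv]; exact h.le)
    have h5 : (x (i + 1))⁻¹ s ≤ s := by rw [iso_inv_le]; exact hcon
    have h6 : g.m (i + 1) 0 ((x (i + 1))⁻¹ s) ≤ (x (i + 1))⁻¹ s := w.dn _ 0 _ (by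
      rw [c0]; exact (x (i + 1))⁻¹.monotone h5)
    have h7 : g.t i s ≤ s := by
      calc g.t i s ≤ g.t i (g.m i 0 s) := (g.t i).monotone h4
        _ = g.m (i + 1) 0 ((x (i + 1))⁻¹ s) := G0 i s
        _ ≤ s := h6.trans h5
    exact absurd h3 (not_lt.mpr h7)
  have all : ∀ (p : ZMod n → Prop), (∀ i, p i → p (i + 1)) → ∀ i, p i → ∀ k, p k := by
    intro p hp i hi k
    have h1 : ∀ l : ℕ, p (i + l) := by
      intro l
      induction l with
      | zero => simpa using hi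
      | succ l ih =>
        have := hp _ ih
        rwa [add_assoc, ← Nat.cast_succ] at this
    have h2 := h1 (k - i).val
    rwa [ZMod.natCast_zmod_val, add_sub_cancel] at h2
  have hn : n ≠ 0 := NeZero.ne n
  have hclose : ∀ s, ((List.range n).map fun k : ℕ => x (k : ZMod n)).prod s = s := by
    intro s
    exact DFunLike.congr_fun (g.close 1) s
  have hup : ∀ (s : Ω), (∀ i, s < x i s) → ∀ k, 0 < k →
      s < ((List.range k).map fun k : ℕ => x (k : ZMod n)).prod s := by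
    intro s hs k hk
    induction k with
    | zero => omega
    | succ k ih =>
      rw [List.range_succ, List.map_append, List.prod_append, List.map_singleton,
        List.prod_singleton, RelIso.mul_apply]
      rcases Nat.eq_zero_or_pos k with h0 | h0
      · subst h0
        simpa using hs 0
      · exact (ih h0).trans ((OrderIso.strictMono _) (hs _))
  have hdn : ∀ (s : Ω), (∀ i, x i s < s) → ∀ k, 0 < k →
      ((List.range k).map fun k : ℕ => x (k : ZMod n)).prod s < s := by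
    intro s hs k hk
    induction k with
    | zero => omega
    | succ k ih =>
      rw [List.range_succ, List.map_append, List.prod_append, List.map_singleton,
        List.prod_singleton, RelIso.mul_apply]
      rcases Nat.eq_zero_or_pos k with h0 | h0
      · subst h0
        simpa using hs 0
      · exact ((OrderIso.strictMono _) (hs _)).trans (ih h0)
  have fix : ∀ i s, x i s = s := by
    intro i s
    rcases lt_trichotomy (x i s) s with h | h | h
    · have h1 := hdn s (all _ (fun i => dn i s) i h) n (Nat.pos_of_ne_zero hn)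
      rw [hclose] at h1
      exact absurd h1 (lt_irrefl s)
    · exact h
    · have h1 := hup s (all _ (fun i => up i s) i h) n (Nat.pos_of_ne_zero hn)
      rw [hclose] at h1
      exact absurd h1 (lt_irrefl s)
  intro i j
  rcases (by decide : ∀ j : ZMod 2, j = 0 ∨ j = 1) j with rfl | rfl
  · exact b0 i
  · ext s
    exact fix i s

end Two

/-- The spherical grids are trivial. -/
theorem Grid.triv_of_spherical (hb : 0 < b) (hn : 0 < n) (hs : (b - 2) * (n - 2) < 4)
    {g : Grid (Ω ≃o Ω) b n} (w : g.Weak) : g.Triv := by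
  have : NeZero b := ⟨hb.ne'⟩
  have : NeZero n := ⟨hn.ne'⟩
  -- one column
  rcases Nat.lt_or_ge b 2 with h1 | h1
  · obtain rfl : b = 1 := by omega
    intro i j
    rw [show j = 0 from (by decide : ∀ j : ZMod 1, j = 0) j, g.base]
  rcases Nat.lt_or_ge n 2 with h2 | h2
  · obtain rfl : n = 1 := by omega
    intro i j
    have := g.close j
    rw [show i = 0 from (by decide : ∀ j : ZMod 1, j = 0) i]
    simpa using this
  rcases Nat.eq_or_lt_of_le h1 with h3 | h3
  · subst h3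
    exact Grid.triv2 w
  rcases Nat.eq_or_lt_of_le h2 with h4 | h4
  · subst h4
    exact Grid.triv_of_dual (Grid.triv2 w.dual)
  obtain ⟨b', rfl⟩ : ∃ b', b = b' + 3 := ⟨b - 3, by omega⟩
  obtain ⟨n', rfl⟩ : ∃ n', n = n' + 3 := ⟨n - 3, by omega⟩
  have h5 : (b' + 1) * (n' + 1) < 4 := by
    rwa [show b' + 3 - 2 = b' + 1 by omega, show n' + 3 - 2 = n' + 1 by omega] at hs
  have h6 : (b' = 0 ∧ n' = 0) ∨ (b' = 1 ∧ n' = 0) ∨ (b' = 2 ∧ n' = 0) ∨
      (b' = 0 ∧ n' = 1) ∨ (b' = 0 ∧ n' = 2) := by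
    have h7 : b' ≤ 2 := by nlinarith
    have h8 : n' ≤ 2 := by nlinarith
    interval_cases b' <;> interval_cases n' <;> simp_all
  rcases h6 with ⟨rfl, rfl⟩ | ⟨rfl, rfl⟩ | ⟨rfl, rfl⟩ | ⟨rfl, rfl⟩ | ⟨rfl, rfl⟩
  · exact Grid.triv3 w
  · exact Grid.triv4 w
  · exact Grid.triv5 w
  · exact Grid.triv_of_dual (Grid.triv4 w.dual)
  · exact Grid.triv_of_dual (Grid.triv5 w.dual)

end Pool.Agent.Helper89.SR
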