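import Mathlib
import Pool.Agent.Helper89.SR.Act
import Pool.Agent.Helper31.OrderAct
import Pool.Agent.Helper42.Th.Piece
import Pool.Agent.Helper71.TreeProof

/-!
The groups of filled spherical grids are not left-orderable.
-/

set_option autoImplicit false

namespace Pool.Agent.Helper89.SR

open Pool.Agent.Helper31.OrderAct
open Pool.Agent.Helper71.Rot
open Pool.Agent.Helper71.Tree (Glued Role FillSpec spec_of_glued)

variable {Ω : Type*} [CompleteLinearOrder Ω] {G : Type*} [Group G] {b n : ℕ}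

/-- All the elements act trivially. -/
theorem act_trivial (ρ : G →* (Ω ≃o Ω)) (hb : 0 < b) (hn : 0 < n)
    (hs : (b - 2) * (n - 2) < 4) (g : Grid G b n) {S : ZMod n → ZMod b → Set G}
    (hfill : ∀ i j, FillSpec false (some 0) none (ρ (g.m i j)) (ρ (g.circle i j))
      (ρ '' (S i j))) (s : Ω) :
    ∀ x ∈ g.elts ∪ ⋃ i, ⋃ j, S i j, ρ x s = s := by
  have hcomm : ∀ i j, ρ (g.m i j) * ρ (g.circle i j) = ρ (g.circle i j) * ρ (g.m i j) := by
    intro i j
    rw [← map_mul, ← map_mul]
    exact congrArg ρ (g.comm i j)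
  have hpos : ∀ i j, Pos (ρ (g.m i j)) (ρ (g.circle i j)) := by
    intro i j
    have hp := ((hfill i j).bd (hcomm i j)).lower 0 rfl
    rwa [neg_zero, zpow_zero, one_mul] at hp
  have hcirc : ∀ i j, (g.map ρ).circle i j = ρ (g.circle i j) := by
    intro i j
    rw [Grid.circle, Grid.circle, map_mul, map_inv]
    rfl
  have hw : (g.map ρ).Weak := by
    constructor
    · intro i j s hs
      rw [hcirc] at hs
      exact ((hpos i j).up s hs).1
    · intro i j s hs
      rw [hcirc] at hs
      exact ((hpos i j).dn s hs).1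
  have hh : ∀ i j, ρ (g.h i j) = 1 := Grid.triv_of_spherical hb hn hs hw
  have hc : ∀ i j s, ρ (g.circle i j) s = s := by
    intro i j s
    rw [Grid.circle, map_mul, map_inv, hh, hh]
    simp
  have hm : ∀ i j s, ρ (g.m i j) s = s := by
    intro i j s
    apply le_antisymm
    · exact ((hpos i j).dn s (hc i j s).le).1
    · exact ((hpos i j).up s (hc i j s).ge).1
  have ht : ∀ i s, ρ (g.t i) s = s := by
    intro i s
    have h1 := DFunLike.congr_fun (congrArg ρ (g.glue i 0)) s
    simp only [map_mul, map_inv, hh, RelIso.mul_apply, hm, inv_one, RelIso.one_apply] at h1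
    exact h1
  rintro x ((⟨i, j, rfl⟩ | ⟨i, j, rfl⟩ | ⟨i, rfl⟩) | hx)
  · rw [hh]
    rfl
  · exact hm i j s
  · exact ht i s
  · obtain ⟨i, hx⟩ := Set.mem_iUnion.mp hx
    obtain ⟨j, hx⟩ := Set.mem_iUnion.mp hx
    exact (hfill i j).fix s (hm i j s) (hc i j s) _ ⟨x, hx, rfl⟩

/-- The main theorem, for fillings which have the right behaviour under all actions. -/
theorem not_leftOrderable_of_spec {G : Type*} [Group G] {b n : ℕ} (hb : 0 < b) (hn : 0 < n)
    (hs : (b - 2) * (n - 2) < 4) (g : Grid G b n) {S : ZMod n → ZMod b → Set G}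
    (hgen : Subgroup.closure (g.elts ∪ ⋃ i, ⋃ j, S i j) = ⊤) (hnt : Nontrivial G)
    (ho : LinearOrder G) (hmul : ∀ f g h : G, g ≤ h → f * g ≤ f * h)
    (hfill : ∀ i j, FillSpec false (some 0) none (cutHom hmul (g.m i j))
      (cutHom hmul (g.circle i j)) (cutHom hmul '' (S i j))) : False := by
  have hall : ∀ L : LowerSet G, ∀ x : G, cutHom hmul x L = L := by
    intro L x
    have hfix := act_trivial (cutHom hmul) hb hn hs g hfill L
    have hx : x ∈ Subgroup.closure (g.elts ∪ ⋃ i, ⋃ j, S i j) := by rw [hgen]; trivial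
    induction hx using Subgroup.closure_induction with
    | mem y hy => exact hfix y hy
    | one => simp
    | mul a b _ _ ha hb => rw [map_mul, RelIso.mul_apply, hb, ha]
    | inv a _ ha => rw [map_inv]; exact inv_fix ha
  obtain ⟨x, y, hxy⟩ := exists_pair_ne G
  have key : ∀ x y : G, y ≤ x := by
    intro x y
    have h1 := hall (LowerSet.Iic x) (y * x⁻¹)
    have h2 : y ∈ LowerSet.Iic x := by
      rw [← h1, mem_cutHom]
      simp
    exact h2
  exact hxy (le_antisymm (key y x) (key x y))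

/-- The main theorem, for fillings by trees of all kinds of pieces. -/
theorem not_leftOrderable {G : Type*} [Group G] {b n : ℕ} (hb : 0 < b) (hn : 0 < n)
    (hs : (b - 2) * (n - 2) < 4) (g : Grid G b n) {S : ZMod n → ZMod b → Set G}
    (hS : ∀ i j, Glued (.fill false (some 0) none) (g.m i j) (g.circle i j) (S i j))
    (hgen : Subgroup.closure (g.elts ∪ ⋃ i, ⋃ j, S i j) = ⊤) :
    ¬ Pool.Agent.Helper71.Tree.LeftOrderable G := by
  rintro ⟨hnt, ⟨ho, hmul⟩⟩
  exact not_leftOrderable_of_spec hb hn hs g hgen hnt ho hmul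
    fun i j => spec_of_glued (cutHom hmul) (hS i j)

/-- The main theorem, for fillings by trees of alternating pieces. -/
theorem not_leftOrderable' {G : Type*} [Group G] {b n : ℕ} (hb : 0 < b) (hn : 0 < n)
    (hs : (b - 2) * (n - 2) < 4) (g : Grid G b n) {S : ZMod n → ZMod b → Set G}
    (hS : ∀ i j, Pool.Agent.Helper42.Th.Fill false 0 (g.m i j) (g.circle i j) (S i j))
    (hgen : Subgroup.closure (g.elts ∪ ⋃ i, ⋃ j, S i j) = ⊤) :
    ¬ (Nontrivial G ∧ ∃ _ : LinearOrder G, ∀ f g h : G, g ≤ h → f * g ≤ f * h) := by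
  rintro ⟨hnt, ⟨ho, hmul⟩⟩
  exact not_leftOrderable_of_spec hb hn hs g hgen hnt ho hmul
    fun i j => Pool.Agent.Helper42.Th.spec_of_fill (cutHom hmul) (hS i j)

end Pool.Agent.Helper89.SR
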